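import Pool.Agent.Helper79.DD.GrT

/-!
# DD: symmetric powers as quotients of tensor powers (helper79)
-/

namespace Pool.Agent.Helper79.DD

open Pool.Agent.Helper79.CU

section

variable {β : Type} [DecidableEq β] {r : ℕ}

/-- The multiplicities of the letters of a word. -/
def wt (r : ℕ) (I : Fin r → β) : β → Fin (r + 1) := fun b =>
  ⟨(Finset.univ.filter fun k => I k = b).card,
    Nat.lt_succ_of_le ((Finset.card_filter_le _ _).trans (by simp))⟩

variable (β) in
/-- The classes of the words of length `r` up to permutation. -/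
abbrev Wt (r : ℕ) : Type := {s : β → Fin (r + 1) // ∃ I : Fin r → β, wt r I = s}

/-- The class of a word. -/
def cls (I : Fin r → β) : Wt β r := ⟨wt r I, I, rfl⟩

/-- A word in the class. -/
noncomputable def rep (s : Wt β r) : Fin r → β := s.2.choose

theorem cls_rep (s : Wt β r) : cls (rep s) = s := Subtype.ext s.2.choose_spec

theorem card_Wt [Fintype β] (r : ℕ) : Fintype.card (Wt β r) ≤ (r + 1) ^ Fintype.card β := by
  refine (Fintype.card_subtype_le _).trans (le_of_eq ?_)
  rw [Fintype.card_fun, Fintype.card_fin]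

theorem wt_perm (I : Fin r → β) (τ : Equiv.Perm (Fin r)) : wt r (I ∘ τ) = wt r I := by
  funext b
  refine Fin.ext ?_
  change (Finset.univ.filter fun k => I (τ k) = b).card = (Finset.univ.filter fun k => I k = b).card
  refine Finset.card_bij' (fun k _ => τ k) (fun k _ => τ.symm k) ?_ ?_ ?_ ?_
  · intro k hk
    simpa using hk
  · intro k hk
    simpa using hk
  · intro k _
    exact τ.symm_apply_apply k
  · intro k _
    exact τ.apply_symm_apply k

theorem cls_perm (I : Fin r → β) (τ : Equiv.Perm (Fin r)) : cls (I ∘ τ) = cls I :=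
  Subtype.ext (wt_perm I τ)

/-- Words of the same class differ by a permutation. -/
theorem exists_perm {I I' : Fin r → β} (h : cls I = cls I') :
    ∃ τ : Equiv.Perm (Fin r), I' = I ∘ τ := by
  have h1 : wt r I = wt r I' := congrArg Subtype.val h
  have h2 : ∀ b, Fintype.card {k // I' k = b} = Fintype.card {k // I k = b} := by
    intro b
    rw [Fintype.card_subtype, Fintype.card_subtype]
    have h3 := congrArg (fun f : β → Fin (r + 1) => (f b : ℕ)) h1
    exact h3.symm
  have e : ∀ b, {k // I' k = b} ≃ {k // I k = b} := fun b => Fintype.equivOfCardEq (h2 b)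
  refine ⟨((Equiv.sigmaFiberEquiv I').symm.trans (Equiv.sigmaCongrRight e)).trans
    (Equiv.sigmaFiberEquiv I), ?_⟩
  funext k
  have h4 : I ((Equiv.sigmaFiberEquiv I) (Equiv.sigmaCongrRight e
      ((Equiv.sigmaFiberEquiv I').symm k))) = I' k := by
    have h5 := (Equiv.sigmaCongrRight e ((Equiv.sigmaFiberEquiv I').symm k)).2.2
    exact h5
  exact h4.symm

/-- The class of a word, with a further index. -/
def clsG {Γ : Type} (x : Γ × (Fin r → β)) : Γ × Wt β r := (x.1, cls x.2)

/-- A word in the class. -/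
noncomputable def repG {Γ : Type} (s : Γ × Wt β r) : Γ × (Fin r → β) := (s.1, rep s.2)

theorem clsG_rep {Γ : Type} (s : Γ × Wt β r) : clsG (repG s) = s :=
  Prod.ext rfl (cls_rep s.2)

variable {R : Type} [CommRing R]

theorem tensB_perm {Γ : Type} (M : Matrix (Γ × β) (Γ × β) R) (τ : Equiv.Perm (Fin r)) (γ γ' : Γ)
    (I J : Fin r → β) : tensB r M (γ, I ∘ τ) (γ', J ∘ τ) = tensB r M (γ, I) (γ', J) := by
  unfold tensB
  rw [← Equiv.sum_comp τ.symm]
  refine Finset.sum_congr rfl fun s _ => ?_
  simp only [Function.comp_apply, Equiv.apply_symm_apply]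
  congr 1
  rw [eq_iff_iff]
  constructor
  · intro h s' hs'
    have := h (τ.symm s') fun h1 => hs' (τ.symm.injective h1)
    simpa using this
  · intro h s' hs'
    exact h (τ s') fun h1 => hs' (by rw [← h1, Equiv.symm_apply_apply])

theorem tens_perm (M : Matrix β β R) (τ : Equiv.Perm (Fin r)) (I J : Fin r → β) :
    tens r M (I ∘ τ) (J ∘ τ) = tens r M I J := by
  unfold tens
  rw [← Equiv.sum_comp τ.symm]
  refine Finset.sum_congr rfl fun s _ => ?_
  simp only [Function.comp_apply, Equiv.apply_symm_apply]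
  congr 1
  rw [eq_iff_iff]
  constructor
  · intro h s' hs'
    have := h (τ.symm s') fun h1 => hs' (τ.symm.injective h1)
    simpa using this
  · intro h s' hs'
    exact h (τ s') fun h1 => hs' (by rw [← h1, Equiv.symm_apply_apply])

/-- The permutation of the letters of the words. -/
def permE (β : Type) {r : ℕ} (τ : Equiv.Perm (Fin r)) : Equiv.Perm (Fin r → β) where
  toFun I := I ∘ τ
  invFun I := I ∘ τ.symm
  left_inv I := by
    funext k
    simp
  right_inv I := by
    funext k
    simp

theorem tens_qinv [Fintype β] (M : Matrix β β R) : QInv (cls (β := β) (r := r)) (tens r M) := by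
  intro I I' s' h
  obtain ⟨τ, rfl⟩ := exists_perm h
  rw [← Equiv.sum_comp (permE β τ) fun J => if cls J = s' then tens r M (I ∘ τ) J else 0]
  refine Finset.sum_congr rfl fun J _ => ?_
  change (if cls J = s' then tens r M I J else 0) =
    if cls (J ∘ τ) = s' then tens r M (I ∘ τ) (J ∘ τ) else 0
  rw [cls_perm, tens_perm]

theorem tensB_qinv {Γ : Type} [Fintype Γ] [DecidableEq Γ] [Fintype β]
    (M : Matrix (Γ × β) (Γ × β) R) : QInv (clsG (β := β) (r := r) (Γ := Γ)) (tensB r M) := by
  rintro ⟨γ, I⟩ ⟨γ', I'⟩ s' h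
  obtain rfl : γ = γ' := congrArg Prod.fst h
  obtain ⟨τ, rfl⟩ := exists_perm (congrArg Prod.snd h : cls I = cls I')
  rw [Fintype.sum_prod_type, Fintype.sum_prod_type]
  refine Finset.sum_congr rfl fun γ'' _ => ?_
  rw [← Equiv.sum_comp (permE β τ) fun J => if clsG (γ'', J) = s' then
    tensB r M (γ, I ∘ τ) (γ'', J) else 0]
  refine Finset.sum_congr rfl fun J _ => ?_
  change (if clsG (γ'', J) = s' then tensB r M (γ, I) (γ'', J) else 0) =
    if clsG (γ'', J ∘ τ) = s' then tensB r M (γ, I ∘ τ) (γ'', J ∘ τ) else 0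
  rw [tensB_perm]
  unfold clsG
  simp only [cls_perm]

end

end Pool.Agent.Helper79.DD
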