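import Pool.Agent.Helper79.AA.Core

/-!
# DD: the core theorem with explicit constants (helper79)
-/

open Polynomial

namespace Pool.Agent.Helper79.DD

open Pool.Agent.Helper79.GX Pool.Agent.Helper79.AA

/-- The step of the bound `B`. -/
def stepB (c m B₀ : ℕ) : ℕ := B₀ + (2 * m + 1) * (2 * (B₀ + 1 + (6 * c * m ^ 2 + 1)))

/-- The step of the exponent `E`. -/
def stepE (m E₀ : ℕ) : ℕ := E₀ + 2 * (8 * m ^ 3 + 4 * m ^ 2 + 4 * m + 6) + 4

/-- The bound for systems of rank at most `n`. -/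
def cB (c : ℕ) : ℕ → ℕ
  | 0 => 0
  | (n + 1) => stepB c (n + 1) (cB c n)

/-- The exponent for systems of rank at most `n`. -/
def cE : ℕ → ℕ
  | 0 => 0
  | (n + 1) => stepE (n + 1) (cE n)

/-- The conclusion of the core theorem. -/
def CoreC (n c B E : ℕ) : Prop := ∀ {ι : Type} [Fintype ι] [DecidableEq ι],
    Fintype.card ι ≤ n → ∀ (K : ℕ) (Λ R : ℝ), 2 ≤ K → (K : ℝ) ^ E ≤ Λ → Λ ≤ R * K →
    ∀ (T : ℚ[X]) (A : Matrix ι ι ℚ[X]) (z : ℂ → ι → ℂ), IsSys T A R z →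
    ∀ Ξ : Finset ℤ, (∀ u ∈ Ξ, |u| ≤ K) → (∀ u ∈ Ξ, T.eval (u : ℚ) ≠ 0) →
    (∀ u ∈ Ξ, Gr T A (u : ℚ) (Λ ^ c)) → (∀ u ∈ Ξ, BadAt R z (u : ℚ)) → Ξ.card ≤ B

/-- The induction step. -/
theorem core_stepX {n c B₀ E₀ : ℕ} (ih : CoreAt n c B₀ E₀) :
    CoreAt (n + 1) c (stepB c (n + 1) B₀) (stepE (n + 1) E₀) := by
  classical
  obtain ⟨m, hm⟩ : ∃ m : ℕ, m = n + 1 := ⟨_, rfl⟩
  rw [← hm, stepB, stepE]
  set b' : ℕ := B₀ + 1 + (6 * c * m ^ 2 + 1) with hb'
  set b : ℕ := 2 * b' with hb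
  set N : ℕ := (2 * m + 1) * b with hN
  set E : ℕ := E₀ + 2 * (8 * m ^ 3 + 4 * m ^ 2 + 4 * m + 6) + 4 with hE
  intro m' hm' K Λ R hK hKΛ hΛR T A z hz hi Ξ hΞ hT hG hx
  have hK1 : (1 : ℝ) ≤ K := by exact_mod_cast (by omega : 1 ≤ K)
  have hK2 : (2 : ℝ) ≤ K := by exact_mod_cast hK
  have hE₀ : (K : ℝ) ^ E₀ ≤ Λ := (pow_le_pow_right₀ hK1 (by omega)).trans hKΛ
  have hΛ4 : (K : ℝ) ^ 4 ≤ Λ := (pow_le_pow_right₀ hK1 (by omega)).trans hKΛ
  rcases Nat.lt_or_ge m' m with hlt | hge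
  · exact (ih m' (by omega) K Λ R hK hE₀ hΛR T A z hz hi Ξ hΞ hT hG hx).trans (by omega)
  obtain rfl : m' = m := le_antisymm hm' hge
  by_contra hcon
  push Not at hcon
  obtain ⟨Ξ', hsub, hcard⟩ := Finset.exists_subset_card_eq (s := Ξ) (n := N) (by omega)
  replace hΞ : ∀ u ∈ Ξ', |u| ≤ K := fun u hu => hΞ u (hsub hu)
  replace hT : ∀ u ∈ Ξ', T.eval (u : ℚ) ≠ 0 := fun u hu => hT u (hsub hu)
  replace hG : ∀ u ∈ Ξ', Gr T A (u : ℚ) (Λ ^ c) := fun u hu => hG u (hsub hu)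
  replace hx : ∀ u ∈ Ξ', ∃ x : Fin m' → ℚ, x ≠ 0 ∧ ∑ k, ((x k : ℚ) : ℂ) * z (u : ℂ) k = 0 :=
    fun u hu => hx u (hsub hu)
  choose! x hx0 hxz using hx
  have hm1 : 1 ≤ m' := by omega
  have hb1 : 1 ≤ b := by omega
  have hNpos : 0 < N := by positivity
  have hne : Ξ'.Nonempty := Finset.card_pos.1 (by omega)
  -- sizes
  have hK0 : (0 : ℝ) < K := by linarith
  have hΛ0 : 0 < Λ := lt_of_lt_of_le (by positivity) hΛ4
  have hΛ1 : 1 ≤ Λ := le_trans (one_le_pow₀ hK1) hΛ4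
  have hQ1 : 1 ≤ Λ ^ c := one_le_pow₀ hΛ1
  have hRK : (K : ℝ) ^ 3 ≤ R := by
    have h1 : (K : ℝ) ^ 3 * K ≤ R * K := by
      calc (K : ℝ) ^ 3 * K = (K : ℝ) ^ 4 := by ring
        _ ≤ _ := hΛ4.trans hΛR
    exact le_of_mul_le_mul_right h1 hK0
  have hR4 : 4 * (K : ℝ) ≤ R := le_trans (by nlinarith [mul_pos hK0 hK0]) hRK
  have hR2 : 1 ≤ R / 2 := by linarith
  have hR0 : 0 < R := by linarith
  have hball : ∀ u ∈ Ξ', (u : ℂ) ∈ Metric.ball (0 : ℂ) R := by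
    intro u hu
    rw [Metric.mem_ball, dist_zero_right, Complex.norm_intCast]
    have h1 : |(u : ℝ)| ≤ K := by exact_mod_cast hΞ u hu
    linarith
  -- the constants
  obtain ⟨C₁, hC₁, haux⟩ := exists_aux hm1 T A hQ1 hK hb1 hcard hx0 hΞ hG
  obtain ⟨C₂, hC₂⟩ := exists_rows T A
  choose! Cg hCg using hG
  set C₀ : ℝ := ∑ u ∈ Ξ', |Cg u| with hC₀
  have hC₀u : ∀ u ∈ Ξ', Cg u ≤ C₀ := fun u hu => (le_abs_self _).trans
    (Finset.single_le_sum (f := fun u => |Cg u|) (fun _ _ => abs_nonneg _) hu)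
  have hC₀0 : 0 ≤ C₀ := Finset.sum_nonneg fun _ _ => abs_nonneg _
  -- a bound for `z`
  have hcomp : IsCompact (Metric.closedBall (0 : ℂ) (R / 2)) := isCompact_closedBall _ _
  have hzb : ∀ a, ∃ S : ℝ, ∀ s ∈ Metric.closedBall (0 : ℂ) (R / 2), ‖z s a‖ ≤ S := fun a =>
    hcomp.exists_bound_of_continuousOn fun s hs => ((hz.an a s (by
      rw [Metric.mem_closedBall] at hs
      rw [Metric.mem_ball]
      linarith)).continuousAt).continuousWithinAt
  choose Sa hSa using hzb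
  set S : ℝ := ∑ a, |Sa a| with hS
  have hS0 : 0 ≤ S := Finset.sum_nonneg fun _ _ => abs_nonneg _
  have hSz : ∀ s : ℂ, ‖s‖ ≤ R / 2 → ∀ a, ‖z s a‖ ≤ S := fun s hs a =>
    (hSa a s (by rwa [Metric.mem_closedBall, dist_zero_right])).trans ((le_abs_self _).trans
      (Finset.single_le_sum (f := fun a => |Sa a|) (fun _ _ => abs_nonneg _)
        (Finset.mem_univ a)))
  -- the functions of `τ`
  set H : ℕ → ℝ := fun τ => (C₁ * (τ : ℝ) ^ 2 * (2 * K) ^ (2 * m' * b * τ) *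
    (Λ ^ c) ^ (2 * τ)) ^ (2 * m') with hH
  set qq : ℕ → ℝ := fun τ => C₀ * (Λ ^ c) ^ (m' * τ + C₂) with hqq
  set rr : ℕ → ℝ := fun τ => (((m' * τ + C₂ : ℕ) : ℝ) + 1) * (m' * ((((2 * m' * b * τ : ℕ) : ℝ) +
    1) * H τ * (2 * K) ^ (2 * m' * b * τ) * (C₀ * (Λ ^ c) ^ (m' * τ + C₂)))) with hrr
  set vv : ℕ → ℝ := fun τ => (m' * ((((2 * m' * b * τ : ℕ) : ℝ) + 1) * H τ *
    (R / 2) ^ (2 * m' * b * τ) * S)) * (3 * K) ^ (N * τ) * (4 / R) ^ (N * τ) with hvv
  have hmain : ∀ τ : ℕ, 1 ≤ τ → ∃ u ∈ Ξ', ∀ a, ‖z (u : ℂ) a‖ ≤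
      (qq τ) ^ m' * (m' * (((m' - 1).factorial : ℝ) * (rr τ) ^ (m' - 1) * vv τ)) := by
    intro τ hτ
    obtain ⟨p, hp0, hdeg, hcoef, hrow⟩ := haux τ hτ
    set P : Fin m' → ℚ[X] := fun a => (p a).map (Int.castRingHom ℚ) with hP
    have hP0 : P ≠ 0 := by
      intro h
      apply hp0
      funext a
      have h1 := congrFun h a
      rw [hP] at h1
      exact (Polynomial.map_eq_zero_iff (RingHom.injective_int (Int.castRingHom ℚ))).1 h1
    have hPdeg : ∀ a, (P a).natDegree ≤ 2 * m' * b * τ := fun a =>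
      natDegree_map_le.trans (hdeg a)
    have hH0 : 0 ≤ H τ := by positivity
    have hMcard : 2 * m' * b * τ < (Ξ'.card - B₀) * τ := by
      have h1 : 2 * m' * b < Ξ'.card - B₀ := by
        rw [hcard, hN, add_mul, one_mul]
        omega
      exact Nat.mul_lt_mul_of_pos_right h1 (by omega)
    have hcyc := aux_cyclic ih (by omega : m' ≤ n + 1) hK hE₀ hΛR hQ1 hz hi hΞ hT (fun u hu => ⟨Cg u, hCg u hu⟩) hxz hP0
      hPdeg hrow hMcard
    obtain ⟨u, hu, s, hs, hdetr⟩ := hC₂ P (2 * m' * b * τ) Ξ' hPdeg hcyc hT hne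
    refine ⟨u, hu, fun a => ?_⟩
    have hsk : ∀ k, s k ≤ m' * τ + C₂ := by
      intro k
      by_contra h1
      push Not at h1
      have h2 := hs k
      rw [hcard, hN] at h2
      have h3 : (m' * τ + C₂ + 1) * ((2 * m' + 1) * b) ≤ s k * ((2 * m' + 1) * b) :=
        Nat.mul_le_mul_right _ h1
      have h4 : (m' * τ + C₂ + 1) * ((2 * m' + 1) * b) = m' * (2 * m' * b * τ) +
          C₂ * ((2 * m' + 1) * b) + (m' * τ * b + (2 * m' + 1) * b) := by ring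
      have h5 : 0 < m' * τ * b + (2 * m' + 1) * b := by positivity
      omega
    obtain ⟨q, hq0, hqle, hqj⟩ := hCg u hu (m' * τ + C₂)
    have hqj' : ∀ j ≤ m' * τ + C₂, ∀ a b, (∃ n : ℤ, (q : ℚ) * gm T A j u a b = n) ∧
        |((gm T A j u a b : ℚ) : ℝ)| ≤ C₀ * (Λ ^ c) ^ j := fun j hj a b =>
      ⟨(hqj j hj a b).1, (hqj j hj a b).2.trans
        (mul_le_mul_of_nonneg_right (hC₀u u hu) (by positivity))⟩
    have hb := fun k a => row_bound (T := T) (A := A) (P := p) (by omega : 1 ≤ K) hdeg hcoef hH0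
      (hΞ u hu) hQ1 hqj' (hsk k) a
    -- the values
    set f : ℂ → ℂ := fun s => ∑ a, aeval s (P a) * z s a with hf
    have hfan : AnalyticOnNhd ℂ f (Metric.ball 0 R) := by
      refine Finset.analyticOnNhd_fun_sum _ fun k _ => AnalyticOnNhd.mul (fun s _ => ?_) (hz.an k)
      have h1 : AnalyticOnNhd ℂ (fun s : ℂ => aeval s (P k)) Set.univ :=
        DifferentiableOn.analyticOnNhd
          (fun s _ => ((P k).hasDerivAt_aeval s).differentiableAt.differentiableWithinAt)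
          isOpen_univ
      exact h1 s (Set.mem_univ s)
    have hrowd : ∀ v ∈ Ξ', ∀ j, iteratedDeriv j f (v : ℂ) =
        (j.factorial : ℂ) * ∑ k, ((row T A P j (v : ℚ) k : ℚ) : ℂ) * z (v : ℂ) k := by
      intro v hv j
      have h1 := row_deriv hz P j (u := (v : ℚ)) (by
        rw [Rat.cast_intCast]
        exact hball v hv) (hT v hv)
      rw [Rat.cast_intCast] at h1
      exact h1
    have hzero : ∀ v ∈ Ξ', ∀ j < τ, iteratedDeriv j f (v : ℂ) = 0 := by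
      intro v hv j hj
      obtain ⟨cc, hcc⟩ := hrow v hv j hj
      rw [hrowd v hv j, hcc]
      simp only [Pi.smul_apply, smul_eq_mul, Rat.cast_mul, mul_assoc]
      rw [← Finset.mul_sum, hxz v hv, mul_zero, mul_zero]
    have hfb : ∀ s : ℂ, ‖s‖ ≤ R / 2 → ‖f s‖ ≤ m' * ((((2 * m' * b * τ : ℕ) : ℝ) + 1) * H τ *
        (R / 2) ^ (2 * m' * b * τ) * S) := by
      intro s hs
      refine (norm_sum_le _ _).trans ?_
      have h1 : ∀ a ∈ (Finset.univ : Finset (Fin m')), ‖aeval s (P a) * z s a‖ ≤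
          ((((2 * m' * b * τ : ℕ) : ℝ) + 1) * H τ * (R / 2) ^ (2 * m' * b * τ) * S) := by
        intro a _
        rw [norm_mul]
        exact mul_le_mul (aeval_bound hR2 (hdeg a) (hcoef a) hs) (hSz s hs a) (norm_nonneg _)
          (by positivity)
      refine (Finset.sum_le_sum h1).trans ?_
      rw [Finset.sum_const, Finset.card_univ, Fintype.card_fin, nsmul_eq_mul]
    have hval : ∀ k, ‖∑ a, ((row T A P (s k) (u : ℚ) a : ℚ) : ℂ) * z (u : ℂ) a‖ ≤ vv τ := by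
      intro k
      have h1 := schwarz hK hR4 hΞ hfan hzero hfb hu (s k)
      rw [hrowd u hu (s k), norm_mul, Complex.norm_natCast, hcard] at h1
      exact le_of_mul_le_mul_left h1 (by exact_mod_cast (s k).factorial_pos)
    have hcr := cramer_bound hm1 hdetr hq0 (fun i j => (hb i j).1) (fun i j => (hb i j).2)
      (z := fun a => z (u : ℂ) a) hval a
    refine hcr.trans ?_
    have hvv0 : 0 ≤ vv τ := by positivity
    have hrr0 : 0 ≤ rr τ := by positivity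
    refine mul_le_mul_of_nonneg_right (pow_le_pow_left₀ (by positivity) ?_ _) (by positivity)
    exact hqle.trans (mul_le_mul_of_nonneg_right (hC₀u u hu) (by positivity))
  -- the growth rate
  have sH : Sb H (((2 * (K : ℝ)) ^ (2 * m' * b) * (Λ ^ c) ^ 2) ^ (2 * m')) := by
    have h1 := ((((Sb.const (by linarith : 0 ≤ C₁)).mul
      ((Sb.lin zero_le_one le_rfl).pow 2)).mul
      (Sb.exp (by positivity : 0 ≤ 2 * (K : ℝ)) (2 * m' * b))).mul
      (Sb.exp (by positivity : 0 ≤ Λ ^ c) 2)).pow (2 * m')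
    refine (h1.congr (by rw [one_pow, one_mul, one_mul])).mono (fun τ _ => by positivity)
      fun τ _ => ?_
    rw [one_mul, add_zero]
  have sQ : Sb (fun τ => C₀ * (Λ ^ c) ^ (m' * τ + C₂)) ((Λ ^ c) ^ m') := by
    have h1 := (Sb.const (by positivity : 0 ≤ C₀ * (Λ ^ c) ^ C₂)).mul
      (Sb.exp (by positivity : 0 ≤ Λ ^ c) m')
    refine (h1.congr (one_mul _)).mono (fun τ _ => by positivity) fun τ _ => ?_
    rw [pow_add]
    exact le_of_eq (by ring)
  have sL : ∀ A₁ A₂ : ℕ, Sb (fun τ => ((A₁ * τ + A₂ : ℕ) : ℝ) + 1) 1 := by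
    intro A₁ A₂
    refine (Sb.lin (a := A₁) (b := (A₂ : ℝ) + 1) (by positivity) (by positivity)).mono
      (fun τ _ => by positivity) fun τ _ => ?_
    push_cast
    linarith
  have sL' : ∀ A₁ : ℕ, Sb (fun τ => ((A₁ * τ : ℕ) : ℝ) + 1) 1 := by
    intro A₁
    simpa using sL A₁ 0
  have sR : Sb rr (((2 * (K : ℝ)) ^ (2 * m' * b) * (Λ ^ c) ^ 2) ^ (2 * m') *
      (2 * (K : ℝ)) ^ (2 * m' * b) * (Λ ^ c) ^ m') := by
    have h1 := (sL m' C₂).mul ((Sb.const (by positivity : 0 ≤ (m' : ℝ))).mul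
      ((((sL' (2 * m' * b)).mul sH).mul
        (Sb.exp (by positivity : 0 ≤ 2 * (K : ℝ)) (2 * m' * b))).mul sQ))
    exact h1.congr (by rw [one_mul, one_mul, one_mul])
  have sV : Sb vv (((2 * (K : ℝ)) ^ (2 * m' * b) * (Λ ^ c) ^ 2) ^ (2 * m') *
      (R / 2) ^ (2 * m' * b) * (3 * (K : ℝ)) ^ N * (4 / R) ^ N) := by
    have h1 := ((((Sb.const (by positivity : 0 ≤ (m' : ℝ))).mul
      ((((sL' (2 * m' * b)).mul sH).mul
        (Sb.exp (by positivity : 0 ≤ R / 2) (2 * m' * b))).mul (Sb.const hS0)))).mul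
        (Sb.exp (by positivity : 0 ≤ 3 * (K : ℝ)) N)).mul
        (Sb.exp (by positivity : 0 ≤ 4 / R) N)
    exact h1.congr (by rw [one_mul, one_mul, mul_one])
  have sG : Sb (fun τ => (qq τ) ^ m' * (m' * (((m' - 1).factorial : ℝ) * (rr τ) ^ (m' - 1) *
      vv τ))) (((Λ ^ c) ^ m') ^ m' *
      (((2 * (K : ℝ)) ^ (2 * m' * b) * (Λ ^ c) ^ 2) ^ (2 * m') * (2 * (K : ℝ)) ^ (2 * m' * b) *
        (Λ ^ c) ^ m') ^ (m' - 1) *
      (((2 * (K : ℝ)) ^ (2 * m' * b) * (Λ ^ c) ^ 2) ^ (2 * m') * (R / 2) ^ (2 * m' * b) *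
        (3 * (K : ℝ)) ^ ((2 * m' + 1) * b) * (4 / R) ^ ((2 * m' + 1) * b))) := by
    have h1 := (sQ.pow m').mul ((Sb.const (by positivity : 0 ≤ (m' : ℝ))).mul
      (((Sb.const (by positivity : 0 ≤ ((m' - 1).factorial : ℝ))).mul
        (sR.pow (m' - 1))).mul sV))
    exact h1.congr (by rw [one_mul, one_mul, hN]; ring)
  have hrate := rate (m := m') (b := b) (b' := b') (c := c) (K := K) (E := E) (Λ := Λ) (R := R)
    hm1 hK hb (by omega) (by omega) hKΛ hΛR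
  -- a lower bound for `z`
  have hnz : ∀ u ∈ Ξ', ∃ k, z (u : ℂ) k ≠ 0 := by
    intro u hu
    have := nz hz hi hm1 (u := (u : ℚ)) (by
      rw [Rat.cast_intCast]
      exact hball u hu) (hT u hu)
    rwa [Rat.cast_intCast] at this
  have : Nonempty (Fin m') := ⟨⟨0, hm1⟩⟩
  choose! kk hkk using hnz
  obtain ⟨u₀, hu₀, hmin⟩ := Finset.exists_min_image Ξ' (fun u => ‖z (u : ℂ) (kk u)‖) hne
  have hν : 0 < ‖z (u₀ : ℂ) (kk u₀)‖ := norm_pos_iff.2 (hkk u₀ hu₀)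
  obtain ⟨τ, hτ, hlt⟩ := sG.lt hrate hν
  obtain ⟨u, hu, hle⟩ := hmain τ hτ
  have h1 := hle (kk u)
  have h2 := hmin u hu
  linarith

/-- The core theorem for independent components. -/
theorem core_indepX (n c : ℕ) : CoreAt n c (cB c n) (cE n) := by
  induction n with
  | zero =>
    intro m hm K Λ R _ _ _ T A z _ _ Ξ _ _ _ hx
    rw [cB]
    obtain rfl : m = 0 := by omega
    rw [Nat.le_zero, Finset.card_eq_zero, Finset.eq_empty_iff_forall_notMem]
    intro u hu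
    obtain ⟨x, hx0, -⟩ := hx u hu
    exact hx0 (Subsingleton.elim _ _)
  | succ n ih =>
    exact core_stepX ih

/-- The core theorem. -/
theorem coreX (n c : ℕ) : CoreC n c (cB c n) (cE n + 3) := by
  have hcore := core_indepX n c
  set B : ℕ := cB c n with hB
  set E : ℕ := cE n with hE
  intro ι _ _ hn K Λ R hK hKΛ hΛR T A z hz Ξ hΞ hT hG hbad
  have hK1 : (1 : ℝ) ≤ K := by exact_mod_cast (by omega : 1 ≤ K)
  have hK2 : (2 : ℝ) ≤ K := by exact_mod_cast hK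
  have hK0 : (0 : ℝ) < K := by linarith
  have hE₀ : (K : ℝ) ^ E ≤ Λ := (pow_le_pow_right₀ hK1 (by omega)).trans hKΛ
  have hΛ1 : 1 ≤ Λ := le_trans (one_le_pow₀ hK1) hKΛ
  have hR0 : 0 < R := by
    by_contra h
    push Not at h
    nlinarith
  have hQ1 : 1 ≤ Λ ^ c := one_le_pow₀ hΛ1
  obtain ⟨r, cc, E', N, Ψ, Φ, B', hr, hEΨ, hNΨ, h1, hNz, hInt, hsys, hind⟩ := exists_quo hR0 hz
  have hev : ∀ (u : ℚ) {α β γ : Type} [Fintype β] (M₁ : Matrix α β ℚ[X]) (M₂ : Matrix β γ ℚ[X]),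
      (M₁ * M₂).map (Polynomial.eval u) =
        M₁.map (Polynomial.eval u) * M₂.map (Polynomial.eval u) := by
    intro u α β γ _ M₁ M₂
    exact Matrix.map_mul (f := Polynomial.evalRingHom u)
  have hone : ∀ (u : ℚ) {α : Type} [DecidableEq α], (1 : Matrix α α ℚ[X]).map
      (Polynomial.eval u) = 1 := by
    intro u α _
    exact Matrix.map_one (Polynomial.evalRingHom u) (map_zero _) (map_one _)
  refine hcore r (hr.trans hn) K Λ R hK hE₀ hΛR T B' _ hsys hind Ξ hΞ hT (fun u hu => ?_)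
    (fun u hu => ?_)
  · refine gr_inter hInt (hT u hu) (Ψ := Ψ.map (Polynomial.eval (u : ℚ))) ?_ ?_ hQ1 (hG u hu)
    · rw [← hev, hEΨ, hone]
    · rw [← hev, hNΨ]
      ext i j
      simp
  · obtain ⟨x, hx0, hx⟩ := hbad u hu
    rw [Rat.cast_intCast] at hx0
    set y : Fin r → ℚ := Matrix.vecMul x (Ψ.map (Polynomial.eval (u : ℚ))) with hy
    set w : Fin cc → ℚ := Matrix.vecMul x (Φ.map (Polynomial.eval (u : ℚ))) with hw
    have hxy : x = Matrix.vecMul y (E'.map (Polynomial.eval (u : ℚ))) +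
        Matrix.vecMul w (N.map (Polynomial.eval (u : ℚ))) := by
      have h2 := congrArg (fun M : Matrix ι ι ℚ[X] => M.map (Polynomial.eval (u : ℚ))) h1
      rw [Matrix.map_add _ (fun _ _ => eval_add), hev, hev, hone] at h2
      rw [hy, hw, Matrix.vecMul_vecMul, Matrix.vecMul_vecMul, ← Matrix.vecMul_add, h2,
        Matrix.vecMul_one]
    have hcast : ∀ p : ℚ[X], aeval (u : ℂ) p = ((p.eval (u : ℚ) : ℚ) : ℂ) := by
      intro p
      have := aeval_algebraMap_apply (A := ℚ) ℂ (u : ℚ) p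
      rw [coe_aeval_eq_eval, eq_ratCast, eq_ratCast, Rat.cast_intCast] at this
      exact this
    have hub : (u : ℂ) ∈ Metric.ball (0 : ℂ) R := by
      rw [Metric.mem_ball, dist_zero_right, Complex.norm_intCast]
      have h3 : |(u : ℝ)| ≤ K := by exact_mod_cast hΞ u hu
      have h4 : (K : ℝ) ^ 2 * K ≤ R * K := by
        calc (K : ℝ) ^ 2 * K = (K : ℝ) ^ 3 := by ring
          _ ≤ (K : ℝ) ^ (E + 3) := pow_le_pow_right₀ hK1 (by omega)
          _ ≤ _ := hKΛ.trans hΛR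
      have h5 : (K : ℝ) ^ 2 ≤ R := le_of_mul_le_mul_right h4 hK0
      nlinarith
    refine ⟨y, ?_, ?_⟩
    · intro h0
      apply hx
      refine ⟨Matrix.vecMul (fun i => C (w i)) N, fun k => ?_, fun s hs => ?_⟩
      · rw [hxy, h0, Matrix.zero_vecMul, zero_add]
        simp [Matrix.vecMul, dotProduct, eval_finsetSum]
      · simp only [Matrix.vecMul, dotProduct, map_sum, map_mul, aeval_C, Finset.sum_mul]
        rw [Finset.sum_comm]
        refine Finset.sum_eq_zero fun i _ => ?_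
        have h5 := hNz s hs i
        simp only [mul_assoc]
        rw [← Finset.mul_sum, h5, mul_zero]
    · have h6 : ∑ k, ((x k : ℚ) : ℂ) * z (u : ℂ) k =
          ∑ i, ((y i : ℚ) : ℂ) * ∑ k, aeval (u : ℂ) (E' i k) * z (u : ℂ) k +
          ∑ i, ((w i : ℚ) : ℂ) * ∑ k, aeval (u : ℂ) (N i k) * z (u : ℂ) k := by
        conv_lhs => rw [hxy]
        simp only [Pi.add_apply, Rat.cast_add, add_mul, Finset.sum_add_distrib, Matrix.vecMul,
          dotProduct, Matrix.map_apply, Rat.cast_sum, Rat.cast_mul, Finset.sum_mul,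
          Finset.mul_sum, hcast]
        congr 1
        · rw [Finset.sum_comm]
          exact Finset.sum_congr rfl fun i _ => Finset.sum_congr rfl fun k _ => by ring
        · rw [Finset.sum_comm]
          exact Finset.sum_congr rfl fun i _ => Finset.sum_congr rfl fun k _ => by ring
      have h7 : ∑ i, ((w i : ℚ) : ℂ) * ∑ k, aeval (u : ℂ) (N i k) * z (u : ℂ) k = 0 :=
        Finset.sum_eq_zero fun i _ => by rw [hNz _ hub i, mul_zero]
      rw [h7, add_zero] at h6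
      rw [← h6]
      exact hx0

end Pool.Agent.Helper79.DD
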