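import Pool.Agent.Helper79.BB.BoxCore
import Pool.Agent.Helper79.DD.CoreX

/-!
# DD: the core theorem on boxes with explicit constants (helper79)
-/

open Polynomial

namespace Pool.Agent.Helper79.DD

open Pool.Agent.Helper79.AA Pool.Agent.Helper79.BB

/-- The conclusion of the core theorem on boxes. -/
def BoxC (m n δ c B E : ℕ) : Prop := ∀ {ι : Type} [Fintype ι]
    [DecidableEq ι], Fintype.card ι ≤ n → ∀ (K : ℕ) (Λ R : ℝ), 2 ≤ K → (K : ℝ) ^ E ≤ Λ →
    Λ ≤ R * K → ∀ (T : MvPolynomial (Fin m) ℚ)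
    (A : Fin m → Matrix ι ι (MvPolynomial (Fin m) ℚ)) (z : (Fin m → ℂ) → ι → ℂ),
    IsSysM T A R z → (∀ j, T.degreeOf j ≤ δ) → (∀ i k l j, (A i k l).degreeOf j ≤ δ) →
    (∀ (i : Fin m) (a : Fin m → ℤ) (s : ℤ), (∀ j, |pt i a s j| ≤ K) →
      MvPolynomial.eval (fun j => ((pt i a s j : ℤ) : ℚ)) T ≠ 0 →
      Gr (spec i a T) ((A i).map (spec i a)) (s : ℚ) (Λ ^ c)) →
    Set.ncard {u : Fin m → ℤ | (∀ j, |u j| ≤ K) ∧
      MvPolynomial.eval (fun j => ((u j : ℤ) : ℚ)) T ≠ 0 ∧ BadM R z u} ≤ B * K ^ (m - 1)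

/-- The size from which a grid exists. -/
def gK (m b B : ℕ) : ℕ := B + b * B ^ m * 2 ^ (m - 1)

/-- The constant of the core theorem on boxes. -/
def bB (m n δ c : ℕ) : ℕ :=
  (2 * max (gK m (m * (cB c n + δ)) (2 * (n + 1) * m * (m * δ + 2))) (cB c n + δ + 1) + 1 +
    m * (cB c n + δ)) * 3 ^ (m - 1)

/-- The exponent of the core theorem on boxes. -/
def bE (n : ℕ) : ℕ := cE n + 3 + 3

theorem grid_selX (m b B : ℕ) (hm : 1 ≤ m) : ∀ K : ℕ, gK m b B ≤ K →
    ∀ S : Set (Fin m → ℤ),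
      Set.ncard {u : Fin m → ℤ | (∀ j, |u j| ≤ K) ∧ u ∈ S} ≤ b * (2 * K + 1) ^ (m - 1) →
      ∃ w : Fin m → ℤ, ∀ e : Fin m → ℕ, (∀ j, e j < B) →
        (∀ j, |w j + (e j : ℤ)| ≤ K) ∧ (fun j => w j + (e j : ℤ)) ∉ S := by
  classical
  intro K hK S hS
  rw [gK] at hK
  by_contra hcon
  have hcon2 : ∀ w : Fin m → ℤ, ∃ e : Fin m → ℕ, (∀ j, e j < B) ∧
      ((∀ j, |w j + (e j : ℤ)| ≤ K) → (fun j => w j + (e j : ℤ)) ∈ S) := by
    intro w
    by_contra hw
    apply hcon
    refine ⟨w, fun e he => ?_⟩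
    by_contra h2
    apply hw
    refine ⟨e, he, fun h3 => ?_⟩
    by_contra h4
    exact h2 ⟨h3, h4⟩
  choose e he1 he2 using hcon2
  set SK : Set (Fin m → ℤ) := {u : Fin m → ℤ | (∀ j, |u j| ≤ K) ∧ u ∈ S} with hSK
  have hfin : SK.Finite := by
    apply Set.Finite.subset (Finset.finite_toSet
      (Fintype.piFinset fun _ : Fin m => Finset.Icc (-(K : ℤ)) K))
    intro u hu
    rw [Finset.mem_coe, Fintype.mem_piFinset]
    intro j
    rw [Finset.mem_Icc]
    exact abs_le.1 (hu.1 j)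
  set W : Finset (Fin m → ℤ) := Fintype.piFinset fun _ : Fin m =>
    Finset.Icc (-(K : ℤ)) ((K : ℤ) - B) with hW
  have hBK : B ≤ K := le_trans (Nat.le_add_right _ _) hK
  have hWcard : W.card = (2 * K + 1 - B) ^ m := by
    rw [hW, Fintype.card_piFinset, Finset.prod_const, Finset.card_univ, Fintype.card_fin,
      Int.card_Icc]
    congr 1
    omega
  have hle : W.card ≤ (hfin.toFinset ×ˢ (Fintype.piFinset fun _ : Fin m => Finset.range B)).card := by
    apply Finset.card_le_card_of_injOn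
      (fun w => ((fun j => w j + ((e w j : ℕ) : ℤ), e w) : (Fin m → ℤ) × (Fin m → ℕ)))
    · intro w hw
      have hw' : w ∈ W := hw
      rw [hW, Fintype.mem_piFinset] at hw'
      rw [Finset.mem_coe, Finset.mem_product, Set.Finite.mem_toFinset, Fintype.mem_piFinset]
      have hK2 : ∀ j, |w j + ((e w j : ℕ) : ℤ)| ≤ K := by
        intro j
        have h1 := Finset.mem_Icc.1 (hw' j)
        have h2 := he1 w j
        rw [abs_le]
        constructor <;> omega
      refine ⟨⟨hK2, he2 w hK2⟩, fun j => Finset.mem_range.2 (he1 w j)⟩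
    · intro w _ w' _ h
      have h1 := congrArg Prod.fst h
      have h2 := congrArg Prod.snd h
      dsimp only at h1 h2
      funext j
      have h3 := congrFun h1 j
      have h4 := congrFun h2 j
      rw [h4] at h3
      exact add_right_cancel h3
  rw [hWcard, Finset.card_product, Fintype.card_piFinset, Finset.prod_const, Finset.card_univ,
    Fintype.card_fin, Finset.card_range, ← Set.ncard_eq_toFinset_card SK hfin] at hle
  obtain ⟨m', rfl⟩ : ∃ m', m = m' + 1 := ⟨m - 1, by omega⟩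
  rw [Nat.add_sub_cancel] at hS hK
  set N : ℕ := 2 * K + 1 - B with hN
  have hN1 : K + 1 ≤ N := by omega
  have hN2 : 2 * K + 1 ≤ 2 * N := by omega
  have h5 : N ^ m' * N ≤ N ^ m' * (b * B ^ (m' + 1) * 2 ^ m') := by
    calc N ^ m' * N = N ^ (m' + 1) := by rw [pow_succ]
      _ ≤ SK.ncard * B ^ (m' + 1) := hle
      _ ≤ b * (2 * K + 1) ^ m' * B ^ (m' + 1) := Nat.mul_le_mul_right _ hS
      _ ≤ b * (2 * N) ^ m' * B ^ (m' + 1) :=
          Nat.mul_le_mul_right _ (Nat.mul_le_mul_left _ (Nat.pow_le_pow_left hN2 m'))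
      _ = N ^ m' * (b * B ^ (m' + 1) * 2 ^ m') := by rw [mul_pow]; ring
  have h6 : N ≤ b * B ^ (m' + 1) * 2 ^ m' :=
    Nat.le_of_mul_le_mul_left h5 (Nat.pow_pos (by omega))
  omega

theorem box_coreX (m n δ c : ℕ) (hm : 1 ≤ m) : BoxC m n δ c (bB m n δ c) (bE n) := by
  classical
  have hcore : CoreC n c (cB c n) (cE n + 3) := coreX n c
  rw [bB, bE]
  set B₁ : ℕ := cB c n with hB₁
  set E₁ : ℕ := cE n + 3 with hE₁'
  set b : ℕ := B₁ + δ with hb
  set Bg : ℕ := 2 * (n + 1) * m * (m * δ + 2) with hBg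
  have hK₀ := grid_selX m (m * b) Bg hm
  set K₀ : ℕ := gK m (m * b) Bg with hK₀'
  set K₁ : ℕ := max K₀ (b + 1) with hK₁
  intro ι _ _ hn K Λ R hK hKΛ hΛR T A z hz hT hA hG
  have hK1 : (1 : ℝ) ≤ K := by exact_mod_cast (by omega : 1 ≤ K)
  have hK2 : (2 : ℝ) ≤ K := by exact_mod_cast hK
  have hK0 : (0 : ℝ) < K := by linarith
  have hE₁ : (K : ℝ) ^ E₁ ≤ Λ := (pow_le_pow_right₀ hK1 (by omega)).trans hKΛ
  have hRK : (K : ℝ) < R := by
    have h4 : (K : ℝ) ^ 2 * K ≤ R * K := by
      calc (K : ℝ) ^ 2 * K = (K : ℝ) ^ 3 := by ring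
        _ ≤ (K : ℝ) ^ (E₁ + 3) := pow_le_pow_right₀ hK1 (by omega)
        _ ≤ _ := hKΛ.trans hΛR
    have h5 : (K : ℝ) ^ 2 ≤ R := le_of_mul_le_mul_right h4 hK0
    nlinarith
  have hR0 : 0 < R := by linarith
  set S : Set (Fin m → ℤ) := {u : Fin m → ℤ | (∀ j, |u j| ≤ K) ∧
      MvPolynomial.eval (fun j => ((u j : ℤ) : ℚ)) T ≠ 0 ∧ BadM R z u} with hS
  have h3K : 2 * K + 1 ≤ 3 * K := by omega
  rcases Nat.lt_or_ge K K₁ with hlt | hge
  · -- small `K`
    have h1 := (box_card K S fun a ha => ha.1).2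
    rw [Fintype.card_fin] at h1
    refine h1.trans ?_
    obtain ⟨k, rfl⟩ : ∃ k, m = k + 1 := ⟨m - 1, by omega⟩
    rw [Nat.add_sub_cancel, pow_succ]
    calc (2 * K + 1) ^ k * (2 * K + 1) ≤ (3 * K) ^ k * (2 * K₁ + 1) :=
          Nat.mul_le_mul (Nat.pow_le_pow_left h3K _) (by omega)
      _ = (2 * K₁ + 1) * 3 ^ k * K ^ k := by
          rw [mul_pow]
          ring
      _ ≤ (2 * K₁ + 1 + (k + 1) * b) * 3 ^ k * K ^ k :=
          Nat.mul_le_mul_right _ (Nat.mul_le_mul_right _ (by omega))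
  -- large `K`
  have hmem : ∀ u : Fin m → ℤ, (∀ j, |u j| ≤ K) → ip u ∈ Metric.ball (0 : Fin m → ℂ) R := by
    intro u hu
    rw [Metric.mem_ball, dist_zero_right, pi_norm_lt_iff hR0]
    intro j
    rw [ip, Complex.norm_intCast]
    have h1 : |(u j : ℝ)| ≤ K := by exact_mod_cast hu j
    linarith
  by_cases hex : ∃ ρ : ℕ, ∃ u : Fin m → ℤ, (∀ j, |u j| ≤ K) ∧
      MvPolynomial.eval (fun j => ((u j : ℤ) : ℚ)) T ≠ 0 ∧
      Module.finrank ℚ (relQ (z (ip u))) = ρ
  swap
  · have h1 : S = ∅ := by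
      rw [Set.eq_empty_iff_forall_notMem]
      rintro u ⟨hu1, hu2, -⟩
      exact hex ⟨_, u, hu1, hu2, rfl⟩
    rw [h1, Set.ncard_empty]
    exact Nat.zero_le _
  set ρ : ℕ := Nat.find hex with hρ
  obtain ⟨u₀, hu₀, hTu₀, hρu₀⟩ := Nat.find_spec hex
  rw [← hρ] at hρu₀
  have hmin : ∀ u : Fin m → ℤ, (∀ j, |u j| ≤ K) →
      MvPolynomial.eval (fun j => ((u j : ℤ) : ℚ)) T ≠ 0 →
      ρ ≤ Module.finrank ℚ (relQ (z (ip u))) := by
    intro u hu hTu
    exact Nat.find_min' hex ⟨u, hu, hTu, rfl⟩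
  -- lines
  have hupdip : ∀ (u : Fin m → ℤ) (i : Fin m) (s : ℤ),
      Function.update (ip u) i (s : ℂ) = ip (Function.update u i s) := fun u i s =>
    (ip_update u i s).symm
  have hline : ∀ (u : Fin m → ℤ) (i : Fin m), (∀ j, |u j| ≤ K) →
      MvPolynomial.eval (fun j => ((u j : ℤ) : ℚ)) T ≠ 0 →
      Set.ncard {s : ℤ | |s| ≤ K ∧
        (MvPolynomial.eval (fun j => ((Function.update u i s j : ℤ) : ℚ)) T = 0 ∨
          BadAt R (fun s => z (Function.update (ip u) i s)) (s : ℚ))} ≤ b ∧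
      ∀ s : ℤ, |s| ≤ K →
        MvPolynomial.eval (fun j => ((Function.update u i s j : ℤ) : ℚ)) T ≠ 0 →
        ¬ BadAt R (fun s => z (Function.update (ip u) i s)) (s : ℚ) →
        Module.finrank ℚ (relQ (z (ip (Function.update u i s)))) ≤
          Module.finrank ℚ (relQ (z (ip u))) := by
    intro u i hu hTu
    set c' : Fin m → ℤ := Function.update u i 0 with hc'
    have hcb : ∀ j, |(c' j : ℝ)| < R := by
      intro j
      by_cases hj : j = i
      · rw [hc', hj, Function.update_self]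
        simpa using hR0
      · rw [hc', Function.update_of_ne hj]
        have h1 : |(u j : ℝ)| ≤ K := by exact_mod_cast hu j
        linarith
    have hci : c' i = 0 := by rw [hc', Function.update_self]
    have hsys := line_sys (i := i) hz hcb hci
    have hupd : ∀ s : ℤ, Function.update c' i s = Function.update u i s := by
      intro s
      rw [hc', Function.update_idem]
    have hfun : (fun s : ℂ => z (Function.update (ip c') i s)) =
        fun s : ℂ => z (Function.update (ip u) i s) := by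
      funext s
      rw [hc', ip_update, Function.update_idem]
    rw [hfun] at hsys
    have hpt : ∀ s : ℤ, pt i c' s = Function.update u i s := by
      intro s
      funext j
      rw [pt]
      by_cases hj : j = i
      · rw [if_pos hj, hj, hci, zero_add, Function.update_self]
      · rw [if_neg hj, add_zero, hc', Function.update_of_ne hj, Function.update_of_ne hj]
    have hbox : ∀ s : ℤ, |s| ≤ K → ∀ j, |pt i c' s j| ≤ K := by
      intro s hs j
      rw [hpt]
      by_cases hj : j = i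
      · rw [hj, Function.update_self]
        exact hs
      · rw [Function.update_of_ne hj]
        exact hu j
    have hev : ∀ s : ℤ, (spec i c' T).eval (s : ℚ) =
        MvPolynomial.eval (fun j => ((Function.update u i s j : ℤ) : ℚ)) T := by
      intro s
      rw [spec_evalZ hci]
      simp only [hupd]
    have hself : Function.update u i (u i) = u := Function.update_eq_self i u
    refine ⟨?_, ?_⟩
    · have hpne : spec i c' T ≠ 0 := by
        intro h0
        have h1 := hev (u i)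
        rw [h0, eval_zero, hself] at h1
        exact hTu h1.symm
      have hf1 : {s : ℤ | |s| ≤ K ∧ (spec i c' T).eval (s : ℚ) = 0}.Finite :=
        (Set.finite_Icc (-(K : ℤ)) K).subset fun l hl => Set.mem_Icc.2 (abs_le.1 hl.1)
      have hf2 : {s : ℤ | |s| ≤ K ∧ (spec i c' T).eval (s : ℚ) ≠ 0 ∧
          BadAt R (fun s => z (Function.update (ip u) i s)) (s : ℚ)}.Finite :=
        (Set.finite_Icc (-(K : ℤ)) K).subset fun l hl => Set.mem_Icc.2 (abs_le.1 hl.1)
      have h1 : {s : ℤ | |s| ≤ K ∧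
          (MvPolynomial.eval (fun j => ((Function.update u i s j : ℤ) : ℚ)) T = 0 ∨
          BadAt R (fun s => z (Function.update (ip u) i s)) (s : ℚ))} ⊆
          {s : ℤ | |s| ≤ K ∧ (spec i c' T).eval (s : ℚ) = 0} ∪
          {s : ℤ | |s| ≤ K ∧ (spec i c' T).eval (s : ℚ) ≠ 0 ∧
          BadAt R (fun s => z (Function.update (ip u) i s)) (s : ℚ)} := by
        rintro s ⟨hs1, hs2⟩
        by_cases h0 : (spec i c' T).eval (s : ℚ) = 0
        · exact Or.inl ⟨hs1, h0⟩
        · refine Or.inr ⟨hs1, h0, ?_⟩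
          rcases hs2 with h2 | h2
          · rw [hev] at h0
            exact absurd h2 h0
          · exact h2
      refine (Set.ncard_le_ncard h1 (hf1.union hf2)).trans ((Set.ncard_union_le _ _).trans ?_)
      have h2 := (int_roots_ncard hpne K).trans ((spec_natDegree c' T).trans (hT i))
      have h3 : Set.ncard {s : ℤ | |s| ≤ K ∧ (spec i c' T).eval (s : ℚ) ≠ 0 ∧
          BadAt R (fun s => z (Function.update (ip u) i s)) (s : ℚ)} ≤ B₁ := by
        rw [Set.ncard_eq_toFinset_card _ hf2]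
        refine hcore hn K Λ R hK hE₁ hΛR _ _ _ hsys _ (fun s hs => ?_) (fun s hs => ?_)
          (fun s hs => ?_) (fun s hs => ?_)
        · exact ((Set.Finite.mem_toFinset hf2).1 hs).1
        · exact ((Set.Finite.mem_toFinset hf2).1 hs).2.1
        · have hs' := (Set.Finite.mem_toFinset hf2).1 hs
          refine hG i c' s (hbox s hs'.1) ?_
          have h4 := hs'.2.1
          rw [hev] at h4
          simp only [hpt]
          exact h4
        · exact ((Set.Finite.mem_toFinset hf2).1 hs).2.2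
      omega
    · intro s hs _ hsb
      obtain ⟨ρ', ψ, h1, h2, -⟩ := line_vanish hR0 hsys
      have hmemZ : ∀ s : ℤ, |s| ≤ K → (s : ℂ) ∈ Metric.ball (0 : ℂ) R := by
        intro s hs
        rw [Metric.mem_ball, dist_zero_right, Complex.norm_intCast]
        have h1 : |(s : ℝ)| ≤ K := by exact_mod_cast hs
        linarith
      have h3 := h2 s (hmemZ s hs) hsb
      have h4 := h1 (u i) (hmemZ _ (hu i))
      rw [hupdip, hself] at h4
      rw [hupdip] at h3
      rw [h3]
      exact h4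
  set good : (Fin m → ℤ) → Prop := fun u =>
    MvPolynomial.eval (fun j => ((u j : ℤ) : ℚ)) T ≠ 0 ∧
      Module.finrank ℚ (relQ (z (ip u))) = ρ with hgood
  have hboxu : ∀ (u : Fin m → ℤ) (i : Fin m) (s : ℤ), (∀ j, |u j| ≤ K) → |s| ≤ K →
      ∀ j, |Function.update u i s j| ≤ K := by
    intro u i s hu hs j
    by_cases hj : j = i
    · rw [hj, Function.update_self]
      exact hs
    · rw [Function.update_of_ne hj]
      exact hu j
  have hstep : ∀ (u : Fin m → ℤ) (i : Fin m), (∀ j, |u j| ≤ K) → good u →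
      Set.ncard {s : ℤ | |s| ≤ K ∧ ¬ good (Function.update u i s)} ≤ b := by
    rintro u i hu ⟨hgT, hgρ⟩
    obtain ⟨h1, h2⟩ := hline u i hu hgT
    refine le_trans (Set.ncard_le_ncard ?_ ?_) h1
    · rintro s ⟨hs, hng⟩
      refine ⟨hs, ?_⟩
      by_contra hcon
      push Not at hcon
      obtain ⟨hc1, hc2⟩ := hcon
      apply hng
      refine ⟨hc1, le_antisymm ?_ (hmin _ (hboxu u i s hu hs) hc1)⟩
      exact (h2 s hs hc1 hc2).trans hgρ.le
    · exact (Set.finite_Icc (-(K : ℤ)) K).subset fun l hl => Set.mem_Icc.2 (abs_le.1 hl.1)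
  have hcount := chain_count K b good hstep u₀ hu₀ ⟨hTu₀, hρu₀⟩
  have hKK : K₀ ≤ K ∧ b + 1 ≤ K := ⟨(le_max_left _ _).trans hge, (le_max_right _ _).trans hge⟩
  obtain ⟨w, hw⟩ := hK₀ K hKK.1 {u | ¬ good u} (by
    refine hcount.trans (le_of_eq ?_)
    rfl)
  have hwg : ∀ e : Fin m → ℕ, (∀ j, e j < Bg) → (∀ j, |w j + (e j : ℤ)| ≤ K) ∧
      good fun j => w j + (e j : ℤ) := by
    intro e he
    obtain ⟨h1, h2⟩ := hw e he
    refine ⟨h1, ?_⟩
    by_contra h3
    exact h2 h3
  obtain ⟨I, hI, v, hv⟩ := exists_indepM R z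
  have hIρ : I.card + ρ ≤ Fintype.card ι := by
    by_contra hcon
    push Not at hcon
    refine grid_core hm hBg hn hR0 hz hT hA (w := w) (ρ := ρ) (fun e he => ?_) (fun e he i => ?_)
      hcon hI
    · obtain ⟨h1, h2, h3⟩ := hwg e he
      refine ⟨fun j => ?_, h2, h3⟩
      have h4 : |((w j + (e j : ℤ) : ℤ) : ℝ)| ≤ K := by exact_mod_cast h1 j
      linarith
    · obtain ⟨h1, h2, h3⟩ := hwg e he
      obtain ⟨h4, -⟩ := hline (fun j => w j + (e j : ℤ)) i h1 h2
      -- a point outside of the exceptional set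
      have hex2 : ∃ s : ℤ, |s| ≤ K ∧ ¬ (MvPolynomial.eval (fun j => ((Function.update
          (fun j => w j + (e j : ℤ)) i s j : ℤ) : ℚ)) T = 0 ∨
          BadAt R (fun s => z (Function.update (ip fun j => w j + (e j : ℤ)) i s)) (s : ℚ)) := by
        by_contra hcon2
        push Not at hcon2
        have h5 : {s : ℤ | |s| ≤ K ∧ (MvPolynomial.eval (fun j => ((Function.update
          (fun j => w j + (e j : ℤ)) i s j : ℤ) : ℚ)) T = 0 ∨
          BadAt R (fun s => z (Function.update (ip fun j => w j + (e j : ℤ)) i s)) (s : ℚ))} =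
          Set.Icc (-(K : ℤ)) K := by
          ext s
          constructor
          · intro hs
            exact Set.mem_Icc.2 (abs_le.1 hs.1)
          · intro hs
            have h6 := abs_le.2 (Set.mem_Icc.1 hs)
            exact ⟨h6, hcon2 s h6⟩
        rw [h5] at h4
        have h6 : (Set.Icc (-(K : ℤ)) K).ncard = 2 * K + 1 := by
          rw [← Finset.coe_Icc, Set.ncard_coe_finset, Int.card_Icc]
          omega
        rw [h6] at h4
        omega
      obtain ⟨s, hs, hs2⟩ := hex2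
      rw [not_or] at hs2
      refine ⟨s, ?_, hs2.2, ?_⟩
      · have h5 : |(s : ℝ)| ≤ K := by exact_mod_cast hs
        linarith
      · rw [hupdip]
        exact hmin _ (hboxu _ i s h1 hs) hs2.1
  -- the conclusion
  have hsub : S ⊆ {u : Fin m → ℤ | (∀ j, |u j| ≤ K) ∧ ¬ good u} := by
    rintro u ⟨hu1, hu2, hu3⟩
    refine ⟨hu1, fun hg => ?_⟩
    exact not_bad hz hv hIρ (hmem u hu1) hu2 hg.2 hu3
  have hfin : {u : Fin m → ℤ | (∀ j, |u j| ≤ K) ∧ ¬ good u}.Finite :=
    (box_card K _ fun a ha => ha.1).1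
  refine ((Set.ncard_le_ncard hsub hfin).trans hcount).trans ?_
  calc m * b * (2 * K + 1) ^ (m - 1) ≤ m * b * (3 * K) ^ (m - 1) :=
        Nat.mul_le_mul_left _ (Nat.pow_le_pow_left h3K _)
    _ = m * b * 3 ^ (m - 1) * K ^ (m - 1) := by
        rw [mul_pow]
        ring
    _ ≤ (2 * K₁ + 1 + m * b) * 3 ^ (m - 1) * K ^ (m - 1) :=
        Nat.mul_le_mul_right _ (Nat.mul_le_mul_right _ (by omega))

end Pool.Agent.Helper79.DD
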