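import Pool.Agent.Helper79.DD.UDefs
import Pool.Agent.Helper79.AA.MBeta

/-!
# DD, BB-20: specialization to the `m`-dimensional spaces of the pencils

All statements are elementary: for homomorphisms use `MvPolynomial.algHom_ext`, for `specM_degree` expand `P` as the sum of its monomials: `X_p ↦ C (a_p) + (X_i or 0)` has
degree `≤ 1` in every variable, a monomial of degree `d` goes to a polynomial of `degreeOf i ≤ d ≤ totalDegree` (`MvPolynomial.induction_on'`,
`MvPolynomial.degreeOf_sum_le`, `degreeOf_prod_le`, `degreeOf_pow_le`). `dirM j₀` is injective.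
-/

open Polynomial

namespace Pool.Agent.Helper79.DD

open Pool.Agent.Helper79.BB

open Pool.Agent.Helper79.AA Pool.Agent.Helper79.GX Pool.Agent.Helper64.Per

variable {J ν : Type} [DecidableEq J] [DecidableEq ν] {m dg ed : ℕ} (j₀ : J)

omit [DecidableEq J] [DecidableEq ν] in
theorem dirM_injective :
    Function.Injective (dirM (m := m) (dg := dg) (ed := ed) (ν := ν) j₀) := by
  intro i i' h
  have h1 := Sum.inr.inj h
  have h2 := Sum.inl.inj h1
  exact congrArg Prod.fst h2

private lemma specM_sum_dir {M : Type} [AddCommMonoid M] (f : Fin m → M) (i : Fin m) :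
    (∑ i', if (dirM j₀ i : Px m dg ed J ν) = dirM j₀ i' then f i' else 0) = f i := by
  rw [Finset.sum_eq_single i]
  · rw [if_pos rfl]
  · intro i' _ hne
    rw [if_neg]
    intro h
    exact hne (dirM_injective j₀ h).symm
  · intro h
    exact absurd (Finset.mem_univ i) h

private lemma specM_sum_not {M : Type} [AddCommMonoid M] (f : Fin m → M) {p : Px m dg ed J ν}
    (hp : ¬ ∃ i, p = dirM j₀ i) : (∑ i', if p = dirM j₀ i' then f i' else 0) = 0 := by
  refine Finset.sum_eq_zero fun i' _ => if_neg fun h => hp ⟨i', h⟩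

theorem specM_aeval (a : Px m dg ed J ν → ℤ) (P : MvPolynomial (Px m dg ed J ν) ℚ) (u : Fin m → ℂ) :
    MvPolynomial.aeval u (specM j₀ a P) =
      MvPolynomial.aeval (shM j₀ (fun p => (a p : ℂ)) u) P := by
  have h : (MvPolynomial.aeval u).comp (specM j₀ a) =
      MvPolynomial.aeval (shM j₀ (fun p => (a p : ℂ)) u) := by
    apply MvPolynomial.algHom_ext
    intro p
    rw [AlgHom.comp_apply, specM, MvPolynomial.aeval_X, MvPolynomial.aeval_X, shM]
    by_cases hp : ∃ i, p = dirM j₀ i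
    · obtain ⟨i, rfl⟩ := hp
      rw [specM_sum_dir, specM_sum_dir]
      simp
    · rw [specM_sum_not j₀ _ hp, specM_sum_not j₀ _ hp]
      simp
  exact congrArg (fun f => f P) h

theorem specM_evalZ (a : Px m dg ed J ν → ℤ) (P : MvPolynomial (Px m dg ed J ν) ℚ) (u : Fin m → ℤ) :
    MvPolynomial.eval (fun i => ((u i : ℤ) : ℚ)) (specM j₀ a P) =
      MvPolynomial.eval (fun p => ((shM j₀ a u p : ℤ) : ℚ)) P := by
  have h : (MvPolynomial.aeval (fun i => ((u i : ℤ) : ℚ))).comp (specM j₀ a) =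
      MvPolynomial.aeval (fun p => ((shM j₀ a u p : ℤ) : ℚ)) := by
    apply MvPolynomial.algHom_ext
    intro p
    rw [AlgHom.comp_apply, specM, MvPolynomial.aeval_X, MvPolynomial.aeval_X, shM]
    by_cases hp : ∃ i, p = dirM j₀ i
    · obtain ⟨i, rfl⟩ := hp
      rw [specM_sum_dir, specM_sum_dir]
      simp
    · rw [specM_sum_not j₀ _ hp, specM_sum_not j₀ _ hp]
      simp
  have h2 : MvPolynomial.aeval (fun i => ((u i : ℤ) : ℚ)) (specM j₀ a P) =
      MvPolynomial.aeval (fun p => ((shM j₀ a u p : ℤ) : ℚ)) P := congrArg (fun f => f P) h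
  rw [MvPolynomial.aeval_eq_eval, MvPolynomial.aeval_eq_eval] at h2
  exact h2

theorem spec_specM (a : Px m dg ed J ν → ℤ) (i : Fin m) (c : Fin m → ℤ)
    (P : MvPolynomial (Px m dg ed J ν) ℚ) :
    spec i c (specM j₀ a P) = spec (dirM j₀ i) (shM j₀ a c) P := by
  have h : (spec i c).comp (specM j₀ a) = spec (dirM j₀ i) (shM j₀ a c) := by
    apply MvPolynomial.algHom_ext
    intro p
    rw [AlgHom.comp_apply, specM, spec, spec, MvPolynomial.aeval_X, MvPolynomial.aeval_X, shM]
    by_cases hp : ∃ i', p = dirM j₀ i'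
    · obtain ⟨i', rfl⟩ := hp
      rw [specM_sum_dir, specM_sum_dir, map_add, MvPolynomial.aeval_C, MvPolynomial.aeval_X]
      by_cases hi : i' = i
      · subst hi
        rw [if_pos rfl, if_pos rfl]
        push_cast
        rw [map_add, ← add_assoc]
        rfl
      · rw [if_neg hi, if_neg (fun h => hi (dirM_injective j₀ h))]
        push_cast
        rw [map_add, add_zero, add_zero]
        rfl
    · rw [specM_sum_not j₀ _ hp, specM_sum_not j₀ _ hp, if_neg (fun h => hp ⟨i, h⟩), add_zero,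
        add_zero, add_zero, MvPolynomial.aeval_C]
      rfl
  exact congrArg (fun f => f P) h

theorem pt_shM (a : Px m dg ed J ν → ℤ) (i : Fin m) (c : Fin m → ℤ) (s : ℤ) :
    pt (dirM j₀ i) (shM j₀ a c) s = shM j₀ a (pt i c s) := by
  funext p
  unfold pt shM
  by_cases hp : ∃ i', p = dirM j₀ i'
  · obtain ⟨i', rfl⟩ := hp
    rw [specM_sum_dir, specM_sum_dir, add_assoc]
    by_cases hi : i' = i
    · subst hi
      rw [if_pos rfl, if_pos rfl]
    · rw [if_neg hi, if_neg (fun h => hi (dirM_injective j₀ h))]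
  · rw [specM_sum_not j₀ _ hp, specM_sum_not j₀ _ hp, if_neg (fun h => hp ⟨i, h⟩), add_zero]

private lemma specM_degree_X (a : Px m dg ed J ν → ℤ) (i : Fin m) (p : Px m dg ed J ν) :
    MvPolynomial.degreeOf i ((MvPolynomial.C ((a p : ℤ) : ℚ) : MvPolynomial (Fin m) ℚ) +
      ∑ i', if p = dirM j₀ i' then MvPolynomial.X i' else 0) ≤ 1 := by
  by_cases hp : ∃ i', p = dirM j₀ i'
  · obtain ⟨i', rfl⟩ := hp
    rw [specM_sum_dir]
    refine le_trans (MvPolynomial.degreeOf_add_le _ _ _) ?_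
    rw [MvPolynomial.degreeOf_C]
    refine max_le (Nat.zero_le _) ?_
    classical
    rw [MvPolynomial.degreeOf_X]
    split_ifs <;> simp
  · rw [specM_sum_not j₀ _ hp, add_zero, MvPolynomial.degreeOf_C]
    exact Nat.zero_le _

theorem specM_degree (a : Px m dg ed J ν → ℤ) (P : MvPolynomial (Px m dg ed J ν) ℚ) (i : Fin m) :
    (specM j₀ a P).degreeOf i ≤ P.totalDegree := by
  rw [specM, MvPolynomial.aeval_def, MvPolynomial.eval₂_eq]
  refine le_trans (MvPolynomial.degreeOf_sum_le _ _ _) ?_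
  refine Finset.sup_le fun d hd => ?_
  refine le_trans (MvPolynomial.degreeOf_mul_le _ _ _) ?_
  have h1 : MvPolynomial.degreeOf i ((algebraMap ℚ (MvPolynomial (Fin m) ℚ)) (P.coeff d)) = 0 :=
    MvPolynomial.degreeOf_C _ _
  rw [h1, zero_add]
  refine le_trans (MvPolynomial.degreeOf_prod_le _ _ _) ?_
  refine le_trans (Finset.sum_le_sum (g := fun p => d p) fun p _ => ?_) ?_
  · refine le_trans (MvPolynomial.degreeOf_pow_le _ _ _) ?_
    calc d p * _ ≤ d p * 1 := Nat.mul_le_mul_left _ (specM_degree_X j₀ a i p)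
      _ = d p := Nat.mul_one _
  · exact MvPolynomial.le_totalDegree hd

theorem shM_cast (a : Px m dg ed J ν → ℤ) (u : Fin m → ℤ) :
    shM j₀ (fun p => (a p : ℂ)) (ip u) = fun p => ((shM j₀ a u p : ℤ) : ℂ) := by
  funext p
  unfold shM
  by_cases hp : ∃ i', p = dirM j₀ i'
  · obtain ⟨i', rfl⟩ := hp
    rw [specM_sum_dir, specM_sum_dir]
    push_cast
    rfl
  · rw [specM_sum_not j₀ _ hp, specM_sum_not j₀ _ hp, add_zero, add_zero]

theorem shM_add {R : Type} [CommRing R] (y : Px m dg ed J ν → R) (u v : Fin m → R) :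
    shM j₀ (shM j₀ y u) v = shM j₀ y (u + v) := by
  funext p
  unfold shM
  by_cases hp : ∃ i', p = dirM j₀ i'
  · obtain ⟨i', rfl⟩ := hp
    rw [specM_sum_dir, specM_sum_dir, specM_sum_dir, add_assoc]
    rfl
  · rw [specM_sum_not j₀ _ hp, specM_sum_not j₀ _ hp, specM_sum_not j₀ _ hp, add_zero]

theorem shM_inl {R : Type} [CommRing R] (y : Px m dg ed J ν → R) (u : Fin m → R)
    (l : Fin (dg + 1) × J) : shM j₀ y u (Sum.inl l) = y (Sum.inl l) := by
  unfold shM
  rw [specM_sum_not j₀ _ (fun h => by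
    obtain ⟨i, hi⟩ := h
    exact Sum.inl_ne_inr hi), add_zero]

theorem shM_q {R : Type} [CommRing R] (y : Px m dg ed J ν → R) (u : Fin m → R) (l : ν) :
    shM j₀ y u (Sum.inr (Sum.inr l)) = y (Sum.inr (Sum.inr l)) := by
  unfold shM
  rw [specM_sum_not j₀ _ (fun h => by
    obtain ⟨i, hi⟩ := h
    exact Sum.inr_ne_inl (Sum.inr.inj hi)), add_zero]

theorem shM_dir {R : Type} [CommRing R] (y : Px m dg ed J ν → R) (u : Fin m → R) (i : Fin m) :
    shM j₀ y u (dirM j₀ i) = y (dirM j₀ i) + u i := by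
  unfold shM
  rw [specM_sum_dir]

theorem shM_abs {a : Px m dg ed J ν → ℤ} {u : Fin m → ℤ} {X K : ℕ} (ha : ∀ p, |a p| ≤ X)
    (hu : ∀ i, |u i| ≤ K) (p : Px m dg ed J ν) : |shM j₀ a u p| ≤ (X + K : ℕ) := by
  unfold shM
  push_cast
  by_cases hp : ∃ i', p = dirM j₀ i'
  · obtain ⟨i', rfl⟩ := hp
    rw [specM_sum_dir]
    exact le_trans (abs_add_le _ _) (add_le_add (ha _) (hu _))
  · rw [specM_sum_not j₀ _ hp, add_zero]
    have h1 := ha p
    have h2 : (0 : ℤ) ≤ (K : ℤ) := Int.natCast_nonneg K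
    linarith

section

variable {κ : IntermediateField ℚ Qbar} [Fintype J] [Fintype ν] {L : Type} [Field L]
  [Algebra κ L]

omit [Fintype ν] in
theorem FvM_shM (ω : J → κ) (y : Px m dg ed J ν → L) (u : Fin m → L) (t : L) :
    FvM ω (shM j₀ y u) t = FvM ω y t := by
  unfold FvM
  refine Finset.sum_congr rfl fun l _ => ?_
  rw [shM_inl]

omit [Fintype J] in
theorem denM_shM (ω : J → κ) (gd : ν → ℕ × J) (y : Px m dg ed J ν → L) (u : Fin m → L) (t : L) :
    denM ω gd (shM j₀ y u) t = denM ω gd y t := by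
  unfold denM
  refine Finset.sum_congr rfl fun l _ => ?_
  rw [shM_q]

theorem ptM_shM (ω : J → κ) (gd : ν → ℕ × J) (y : Px m dg ed J ν → L) (u : Fin m → L) (t : L) :
    ptM ω gd (shM j₀ y u) t = fun i => ptM ω gd y t i +
      algebraMap κ L (ω j₀) / denM ω gd y t * u i := by
  funext i
  have h1 : ∀ l : Fin (ed + 1) × J, shM j₀ y u (Sum.inr (Sum.inl (i, l))) =
      y (Sum.inr (Sum.inl (i, l))) + if l = (0, j₀) then u i else 0 := by
    intro l
    by_cases hl : l = (0, j₀)
    · subst hl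
      rw [if_pos rfl]
      exact shM_dir j₀ y u i
    · rw [if_neg hl, add_zero]
      unfold shM
      rw [specM_sum_not j₀ _ (fun h => by
        obtain ⟨i', hi'⟩ := h
        have h2 := Sum.inl.inj (Sum.inr.inj hi')
        exact hl (congrArg Prod.snd h2)), add_zero]
  unfold ptM
  rw [denM_shM]
  have h2 : (∑ l : Fin (ed + 1) × J, shM j₀ y u (Sum.inr (Sum.inl (i, l))) *
      algebraMap κ L (ω l.2) * t ^ (l.1 : ℕ)) =
      (∑ l : Fin (ed + 1) × J, y (Sum.inr (Sum.inl (i, l))) *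
        algebraMap κ L (ω l.2) * t ^ (l.1 : ℕ)) + algebraMap κ L (ω j₀) * u i := by
    have h3 : ∀ l : Fin (ed + 1) × J, shM j₀ y u (Sum.inr (Sum.inl (i, l))) *
        algebraMap κ L (ω l.2) * t ^ (l.1 : ℕ) = y (Sum.inr (Sum.inl (i, l))) *
        algebraMap κ L (ω l.2) * t ^ (l.1 : ℕ) +
        if l = (0, j₀) then algebraMap κ L (ω j₀) * u i else 0 := by
      intro l
      rw [h1 l]
      by_cases hl : l = (0, j₀)
      · subst hl
        rw [if_pos rfl, if_pos rfl]
        simp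
        ring
      · rw [if_neg hl, if_neg hl, add_zero, add_zero]
    rw [Finset.sum_congr rfl fun l _ => h3 l, Finset.sum_add_distrib,
      Finset.sum_ite_eq' Finset.univ ((0 : Fin (ed + 1)), j₀)
        (fun _ => algebraMap κ L (ω j₀) * u i), if_pos (Finset.mem_univ _)]
  rw [h2, add_div]
  congr 1
  ring

end

end Pool.Agent.Helper79.DD
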