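import Pool.Agent.Helper79.DD.PenDefs
import Pool.Agent.Helper79.DD.SpecM
import Pool.Agent.Helper79.BB.Pd

/-!
# DD, BB-23: the pencils are systems over `ℚ`

`pmap ω gd j₀ a θ u = x⁰ + λ u`, `λ = ω_(j₀) / q ≠ 0`, `q = denM …` (`ptM_shM`). `y := shM j₀ (a : ℂ) u`; `FvM ω y θ = FvM ω a θ = 0` (`FvM_shM`), `denM_shM`.
* `pmap_pd`: chain rule: `∂_i (f ∘ pmap) = λ (∂_i f) ∘ pmap` (e.g. `HasFDerivAt.comp`, the derivative of `pmap` is `λ • id`).
* `pen_sys`: `ode`: `specM_aeval`; with `x = pmap … u`: `T(x) [Θ(y) ∂_i (b_γ z_r(x)) - ∑_(γ', r') M_i(y)_((γ, r), (γ', r')) b_γ' z_r'(x)] = 0`: `T(x) Θ b_γ λ ∂_i z_r(x) = λ Θ b_γ ∑_r' A_i(x)_(r r') z_r'(x)` (`hode`) and, by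
  `D.ident` divided by `q`, `Θ λ b_γ A_i(x)_(r r') = T(x) ∑_γ' M_i(y) b_γ'`. The bracket is an analytic function of `u` in the ball (a convex set), and `T(pmap u)` is an analytic function which is not identically
  zero on the ball (`T ≠ 0`, `pmap` is an affine isomorphism: a polynomial which vanishes on a nonempty open set is `0`; if the ball is empty there is nothing to prove), so the bracket is `0`: identity theorem
  (`AnalyticOnNhd.eqOn_zero_of_preconnected_of_eventuallyEq_zero`, or the product of two analytic functions which is zero near a point: one of them is zero near this point, `AnalyticAt.eventually_eq_zero_or_eventually_ne_zero` is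
  for one variable; in several variables restrict to lines, or use the density of `{T ≠ 0}` and continuity: near every point of the ball there are points with `T(pmap u) ≠ 0`, and both sides are continuous: this is the simplest).
-/

open Polynomial

namespace Pool.Agent.Helper79.DD

open Pool.Agent.Helper79.BB

open Pool.Agent.Helper79.AA Pool.Agent.Helper79.GX Pool.Agent.Helper64.Per

variable {κ : IntermediateField ℚ Qbar} {J ν : Type} [Fintype J] [DecidableEq J] [Fintype ν]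
  [DecidableEq ν] {ω : J → κ} {gd : ν → ℕ × J} {m dg ed : ℕ} {j₀ : J}

theorem pmap_eq (a : Px m dg ed J ν → ℤ) (θ : ℂ) (u : Fin m → ℂ) :
    pmap ω gd j₀ a θ u = fun i => ptM ω gd (fun p => (a p : ℂ)) θ i +
      algebraMap κ ℂ (ω j₀) / denM ω gd (fun p => (a p : ℂ)) θ * u i := by
  rw [pmap, ptM_shM]

private theorem penSys_hasFDerivAt (a : Px m dg ed J ν → ℤ) (θ : ℂ) (u : Fin m → ℂ) :
    HasFDerivAt (pmap ω gd j₀ a θ) ((algebraMap κ ℂ (ω j₀) / denM ω gd (fun p => (a p : ℂ)) θ) •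
      (ContinuousLinearMap.id ℂ (Fin m → ℂ))) u := by
  have h1 : pmap ω gd j₀ a θ = fun u : Fin m → ℂ => ptM ω gd (fun p => (a p : ℂ)) θ +
      (algebraMap κ ℂ (ω j₀) / denM ω gd (fun p => (a p : ℂ)) θ) • u := by
    funext v
    rw [pmap_eq]
    rfl
  rw [h1]
  have h2 := ((hasFDerivAt_id (𝕜 := ℂ) u).const_smul
    (algebraMap κ ℂ (ω j₀) / denM ω gd (fun p => (a p : ℂ)) θ))
  exact h2.const_add _

theorem pmap_pd {a : Px m dg ed J ν → ℤ} {θ : ℂ} {f : (Fin m → ℂ) → ℂ} {u : Fin m → ℂ}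
    (hf : DifferentiableAt ℂ f (pmap ω gd j₀ a θ u)) (i : Fin m) :
    pd i (fun u => f (pmap ω gd j₀ a θ u)) u =
      algebraMap κ ℂ (ω j₀) / denM ω gd (fun p => (a p : ℂ)) θ * pd i f (pmap ω gd j₀ a θ u) := by
  have h1 := (hf.hasFDerivAt.comp u (penSys_hasFDerivAt (ω := ω) (j₀ := j₀) a θ u)).fderiv
  unfold pd
  have h2 : fderiv ℂ (fun u => f (pmap ω gd j₀ a θ u)) u =
      (fderiv ℂ f (pmap ω gd j₀ a θ u)).comp
        ((algebraMap κ ℂ (ω j₀) / denM ω gd (fun p => (a p : ℂ)) θ) •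
          (ContinuousLinearMap.id ℂ (Fin m → ℂ))) := h1
  rw [h2, ContinuousLinearMap.comp_apply, smul_apply,
    ContinuousLinearMap.id_apply, map_smul, smul_eq_mul]

/-- A nonzero polynomial does not vanish on a nonempty open set. -/
theorem exists_ne {T : MvPolynomial (Fin m) κ} (hT : T ≠ 0) {W : Set (Fin m → ℂ)} (hW : IsOpen W)
    (hne : W.Nonempty) : ∃ x ∈ W, MvPolynomial.aeval x T ≠ 0 := by
  by_contra hcon
  push Not at hcon
  obtain ⟨x₀, hx₀⟩ := hne
  obtain ⟨r, hr, hball⟩ := Metric.isOpen_iff.1 hW x₀ hx₀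
  have hinj : Function.Injective (algebraMap κ ℂ) := (algebraMap κ ℂ).injective
  have hT' : MvPolynomial.map (algebraMap κ ℂ) T ≠ 0 := by
    intro h0
    apply hT
    apply MvPolynomial.map_injective _ hinj
    rw [h0, map_zero]
  apply hT'
  refine MvPolynomial.funext_set (fun i => Metric.ball (x₀ i) r) ?_ ?_
  · intro i
    exact infinite_of_mem_nhds (x₀ i) (Metric.ball_mem_nhds (x₀ i) hr)
  · intro x hx
    rw [map_zero, MvPolynomial.eval_map, ← MvPolynomial.aeval_def]
    apply hcon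
    apply hball
    rw [Metric.mem_ball, dist_pi_lt_iff hr]
    intro i
    exact hx i (Set.mem_univ i)

private theorem penSys_analyticAt (a : Px m dg ed J ν → ℤ) (θ : ℂ) (u : Fin m → ℂ) :
    AnalyticAt ℂ (pmap ω gd j₀ a θ) u := by
  have h1 : pmap ω gd j₀ a θ = fun u : Fin m → ℂ => ptM ω gd (fun p => (a p : ℂ)) θ +
      (algebraMap κ ℂ (ω j₀) / denM ω gd (fun p => (a p : ℂ)) θ) • u := by
    funext v
    rw [pmap_eq]
    rfl
  rw [h1]
  exact analyticAt_const.fun_add (analyticAt_const.fun_smul analyticAt_id)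

theorem pen_sys {β : Type} [Fintype β] [DecidableEq β] {T : MvPolynomial (Fin m) κ} (hT : T ≠ 0)
    {A : Fin m → Matrix β β (MvPolynomial (Fin m) κ)} (D : UniM ω gd dg ed j₀ T A)
    {U : Set (Fin m → ℂ)} {z : (Fin m → ℂ) → β → ℂ}
    (hz : ∀ i, AnalyticOnNhd ℂ (fun t => z t i) U)
    (hode : ∀ t ∈ U, ∀ s i, MvPolynomial.aeval t T * pd s (fun t => z t i) t =
      ∑ l, MvPolynomial.aeval t (A s i l) * z t l)
    (hω : ω j₀ ≠ 0) {a : Px m dg ed J ν → ℤ} {θ : ℂ} (hqC : denM ω gd (fun p => (a p : ℂ)) θ ≠ 0)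
    (hθ : FvM ω (fun p => (a p : ℂ)) θ = 0) {R : ℝ}
    (hR : ∀ u ∈ Metric.ball (0 : Fin m → ℂ) R, pmap ω gd j₀ a θ u ∈ U) :
    IsSysM (specM j₀ a D.Θ) (fun i => (D.M i).map (specM j₀ a)) R
      (zpen ω gd j₀ D.b z a θ) := by
  have hωC : algebraMap κ ℂ (ω j₀) ≠ 0 := by
    intro h0
    exact hω ((algebraMap κ ℂ).injective (by rw [h0, map_zero]))
  have hlam : algebraMap κ ℂ (ω j₀) / denM ω gd (fun p => (a p : ℂ)) θ ≠ 0 := div_ne_zero hωC hqC
  have han0 : ∀ (r : β), AnalyticOnNhd ℂ (fun u => z (pmap ω gd j₀ a θ u) r)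
      (Metric.ball (0 : Fin m → ℂ) R) := by
    intro r u hu
    have h1 := hz r _ (hR u hu)
    have h2 : AnalyticAt ℂ (pmap ω gd j₀ a θ) u := penSys_analyticAt a θ u
    exact AnalyticAt.fun_comp (g := fun t => z t r) (f := pmap ω gd j₀ a θ) h1 h2
  have han : ∀ k, AnalyticOnNhd ℂ (fun u => zpen ω gd j₀ D.b z a θ u k)
      (Metric.ball (0 : Fin m → ℂ) R) := by
    intro k u hu
    unfold zpen
    exact analyticAt_const.mul (han0 k.2 u hu)
  refine ⟨han, ?_⟩
  -- the bracket times `T` is zero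
  have key : ∀ u ∈ Metric.ball (0 : Fin m → ℂ) R, ∀ i (k : D.Γ × β),
      MvPolynomial.aeval (pmap ω gd j₀ a θ u) T *
        (MvPolynomial.aeval u (specM j₀ a D.Θ) * pd i (fun u => zpen ω gd j₀ D.b z a θ u k) u -
          ∑ l, MvPolynomial.aeval u ((D.M i).map (specM j₀ a) k l) *
            zpen ω gd j₀ D.b z a θ u l) = 0 := by
    intro u hu i k
    obtain ⟨γ, r⟩ := k
    have hx := hR u hu
    have hzd : DifferentiableAt ℂ (fun t => z t r) (pmap ω gd j₀ a θ u) :=
      (hz r _ hx).differentiableAt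
    have h1 : pd i (fun u => zpen ω gd j₀ D.b z a θ u (γ, r)) u =
        algebraMap κ ℂ (ω (D.b γ).1) * θ ^ (D.b γ).2 *
          (algebraMap κ ℂ (ω j₀) / denM ω gd (fun p => (a p : ℂ)) θ *
            pd i (fun t => z t r) (pmap ω gd j₀ a θ u)) := by
      unfold zpen
      rw [← pmap_pd (f := fun t => z t r) hzd i]
      exact pd_const_mul (han0 r u hu).differentiableAt _ _
    have h2 := hode _ hx i r
    have h3 : ∀ r' : β, MvPolynomial.aeval (shM j₀ (fun p => (a p : ℂ)) u) D.Θ *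
        algebraMap κ ℂ (ω j₀) * (algebraMap κ ℂ (ω (D.b γ).1) * θ ^ (D.b γ).2 *
          MvPolynomial.aeval (pmap ω gd j₀ a θ u) (A i r r')) =
        denM ω gd (fun p => (a p : ℂ)) θ * MvPolynomial.aeval (pmap ω gd j₀ a θ u) T *
          ∑ γ', MvPolynomial.aeval (shM j₀ (fun p => (a p : ℂ)) u) (D.M i (γ, r) (γ', r')) *
            (algebraMap κ ℂ (ω (D.b γ').1) * θ ^ (D.b γ').2) := by
      intro r'
      have h4 := D.ident θ (shM j₀ (fun p => (a p : ℂ)) u)
        (by rw [FvM_shM]; exact hθ) (by rw [denM_shM]; exact hqC) i γ r r'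
      rw [denM_shM] at h4
      exact h4
    have h5 : ∀ r' : β, MvPolynomial.aeval (shM j₀ (fun p => (a p : ℂ)) u) D.Θ *
        (algebraMap κ ℂ (ω j₀) / denM ω gd (fun p => (a p : ℂ)) θ) *
          (algebraMap κ ℂ (ω (D.b γ).1) * θ ^ (D.b γ).2) *
          MvPolynomial.aeval (pmap ω gd j₀ a θ u) (A i r r') =
        MvPolynomial.aeval (pmap ω gd j₀ a θ u) T *
          ∑ γ', MvPolynomial.aeval (shM j₀ (fun p => (a p : ℂ)) u) (D.M i (γ, r) (γ', r')) *
            (algebraMap κ ℂ (ω (D.b γ').1) * θ ^ (D.b γ').2) := by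
      intro r'
      apply mul_left_cancel₀ hqC
      refine Eq.trans ?_ ((h3 r').trans (by ring))
      have h8 : denM ω gd (fun p => (a p : ℂ)) θ *
          (algebraMap κ ℂ (ω j₀) / denM ω gd (fun p => (a p : ℂ)) θ) = algebraMap κ ℂ (ω j₀) :=
        mul_div_cancel₀ _ hqC
      linear_combination MvPolynomial.aeval (shM j₀ (fun p => (a p : ℂ)) u) D.Θ *
        (algebraMap κ ℂ (ω (D.b γ).1) * θ ^ (D.b γ).2) *
        MvPolynomial.aeval (pmap ω gd j₀ a θ u) (A i r r') * h8
    have h7 : ∑ l, MvPolynomial.aeval u ((D.M i).map (specM j₀ a) (γ, r) l) *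
            zpen ω gd j₀ D.b z a θ u l =
        ∑ r', (∑ γ', MvPolynomial.aeval (shM j₀ (fun p => (a p : ℂ)) u) (D.M i (γ, r) (γ', r')) *
            (algebraMap κ ℂ (ω (D.b γ').1) * θ ^ (D.b γ').2)) * z (pmap ω gd j₀ a θ u) r' := by
      rw [Fintype.sum_prod_type_right]
      refine Finset.sum_congr rfl fun r' _ => ?_
      rw [Finset.sum_mul]
      refine Finset.sum_congr rfl fun γ' _ => ?_
      rw [Matrix.map_apply, specM_aeval]
      unfold zpen
      ring
    rw [h7, h1, specM_aeval, mul_sub, sub_eq_zero, Finset.mul_sum]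
    calc MvPolynomial.aeval (pmap ω gd j₀ a θ u) T *
          (MvPolynomial.aeval (shM j₀ (fun p => (a p : ℂ)) u) D.Θ *
            (algebraMap κ ℂ (ω (D.b γ).1) * θ ^ (D.b γ).2 *
              (algebraMap κ ℂ (ω j₀) / denM ω gd (fun p => (a p : ℂ)) θ *
                pd i (fun t => z t r) (pmap ω gd j₀ a θ u))))
        = MvPolynomial.aeval (shM j₀ (fun p => (a p : ℂ)) u) D.Θ *
            (algebraMap κ ℂ (ω j₀) / denM ω gd (fun p => (a p : ℂ)) θ) *
            (algebraMap κ ℂ (ω (D.b γ).1) * θ ^ (D.b γ).2) *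
            (MvPolynomial.aeval (pmap ω gd j₀ a θ u) T *
              pd i (fun t => z t r) (pmap ω gd j₀ a θ u)) := by ring
      _ = ∑ r', MvPolynomial.aeval (shM j₀ (fun p => (a p : ℂ)) u) D.Θ *
            (algebraMap κ ℂ (ω j₀) / denM ω gd (fun p => (a p : ℂ)) θ) *
            (algebraMap κ ℂ (ω (D.b γ).1) * θ ^ (D.b γ).2) *
            (MvPolynomial.aeval (pmap ω gd j₀ a θ u) (A i r r') * z (pmap ω gd j₀ a θ u) r') := by
          rw [h2, Finset.mul_sum]
      _ = _ := by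
          refine Finset.sum_congr rfl fun r' _ => ?_
          rw [← mul_assoc, h5 r']
          ring
  intro u₀ hu₀ i k
  rw [← sub_eq_zero]
  by_contra hne
  set B : (Fin m → ℂ) → ℂ := fun u =>
    MvPolynomial.aeval u (specM j₀ a D.Θ) * pd i (fun u => zpen ω gd j₀ D.b z a θ u k) u -
          ∑ l, MvPolynomial.aeval u ((D.M i).map (specM j₀ a) k l) *
            zpen ω gd j₀ D.b z a θ u l with hB
  have hBc : ContinuousOn B (Metric.ball (0 : Fin m → ℂ) R) := by
    intro u hu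
    apply ContinuousAt.continuousWithinAt
    refine ContinuousAt.sub ?_ ?_
    · exact (analytic_aeval _ u).continuousAt.mul (pd_analyticAt (han k u hu) i).continuousAt
    · refine tendsto_finsetSum _ fun l _ => ?_
      exact (analytic_aeval _ u).continuousAt.mul (han l u hu).continuousAt
  have hVo : IsOpen (Metric.ball (0 : Fin m → ℂ) R ∩ B ⁻¹' {0}ᶜ) :=
    hBc.isOpen_inter_preimage Metric.isOpen_ball isOpen_compl_singleton
  set inv : (Fin m → ℂ) → (Fin m → ℂ) := fun x i =>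
    (x i - ptM ω gd (fun p => (a p : ℂ)) θ i) /
      (algebraMap κ ℂ (ω j₀) / denM ω gd (fun p => (a p : ℂ)) θ) with hinv
  have hinvc : Continuous inv := by
    refine continuous_pi fun i => ?_
    exact ((continuous_apply i).sub continuous_const).div_const _
  have hli : ∀ x, pmap ω gd j₀ a θ (inv x) = x := by
    intro x
    rw [pmap_eq]
    funext i
    rw [hinv]
    simp only
    rw [mul_div_cancel₀ _ hlam]
    ring
  have hri : ∀ u, inv (pmap ω gd j₀ a θ u) = u := by
    intro u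
    rw [pmap_eq]
    funext i
    rw [hinv]
    simp only
    rw [add_sub_cancel_left, mul_div_cancel_left₀ _ hlam]
  obtain ⟨x, hx, hxT⟩ := exists_ne hT (hVo.preimage hinvc)
    ⟨pmap ω gd j₀ a θ u₀, by
      rw [Set.mem_preimage, hri]
      exact ⟨hu₀, hne⟩⟩
  have h1 := key (inv x) hx.1 i k
  rw [hli] at h1
  rcases mul_eq_zero.1 h1 with h | h
  · exact hxT h
  · exact hx.2 h

end Pool.Agent.Helper79.DD
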