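import Pool.Agent.Helper79.DD.UDefs

/-!
# DD, BB-19: the universal identities at complex points

See `AA/Ident.lean` (copy parts of its proofs). Let `E` be at least the total degrees of `T` and `A r r'`. For a polynomial `P` of total degree `≤ E` there is `P^h ∈ κ[t, y]` (variables `Option Px`) such that, for every field `F ⊇ κ`, `t ∈ F` and
`y : Px → F` with `q = y (inr (inr ())) ≠ 0`: `aeval (t, y) P^h = q^E * aeval (ptM ω gd y t) P` (`MvPolynomial.induction_on'`, or `P^h = ∑_e c_e (∏_l (G_l)^(e_l)) q^(E - |e|)`).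
* `ptM_der`: `D_i x_l = δ_(il) ω_(j₀) / q`: the quotient rule, `ModM.ext`, `ModM.der`, `dt`, `const`.
* `modM_ident`: the hypothesis `hM`, multiplied by `Θ q · q^E T(x)`, is the identity `P(t, y) = 0` in `L` with the polynomial
  `P = Θ ω_(j₀) b_γ A^h - q T^h ∑ M_(γ, r)(γ', r') b_γ'`; by `ModM.gen` it holds at `(t', y')`; divide by `q'^E`.
* `modM_span`: as `mod_span` in `AA/Ident.lean`.
-/

open Polynomial

namespace Pool.Agent.Helper79.DD

open Pool.Agent.Helper79.BB

open Pool.Agent.Helper79.AA Pool.Agent.Helper79.GX Pool.Agent.Helper64.Per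

private noncomputable def identMQ {κ : IntermediateField ℚ Qbar} {J ν : Type} {m dg ed : ℕ}
    (Q : MvPolynomial (Px m dg ed J ν) ℚ) : MvPolynomial (Option (Px m dg ed J ν)) κ :=
  MvPolynomial.aeval (fun i => (MvPolynomial.X (some i) : MvPolynomial (Option (Px m dg ed J ν)) κ)) Q

private theorem identM_evQ {κ : IntermediateField ℚ Qbar} {J ν : Type} {m dg ed : ℕ} {R : Type}
    [CommRing R] [Algebra κ R] [Algebra ℚ R] (t : R) (a : Px m dg ed J ν → R)
    (Q : MvPolynomial (Px m dg ed J ν) ℚ) :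
    MvPolynomial.aeval (fun o : Option (Px m dg ed J ν) => o.elim t a) (identMQ (κ := κ) Q) =
      MvPolynomial.aeval a Q := by
  have key : (MvPolynomial.aeval (R := κ)
      (fun o : Option (Px m dg ed J ν) => (o.elim t a : R))).toRingHom.comp
      (MvPolynomial.aeval (R := ℚ)
        (fun i => (MvPolynomial.X (some i) : MvPolynomial (Option (Px m dg ed J ν)) κ))).toRingHom =
      (MvPolynomial.aeval (R := ℚ) a).toRingHom := by
    apply MvPolynomial.ringHom_ext
    · intro r
      exact RingHom.congr_fun (RingHom.ext_rat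
        (((MvPolynomial.aeval (R := κ)
          (fun o : Option (Px m dg ed J ν) => (o.elim t a : R))).toRingHom.comp
          (MvPolynomial.aeval (R := ℚ)
            (fun i => (MvPolynomial.X (some i) :
              MvPolynomial (Option (Px m dg ed J ν)) κ))).toRingHom).comp MvPolynomial.C)
        ((MvPolynomial.aeval (R := ℚ) a).toRingHom.comp MvPolynomial.C)) r
    · intro i
      simp
  exact RingHom.congr_fun key Q

private theorem identM_iota {J ν : Type} {m dg ed : ℕ} {k L : Type} [Field k]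
    [Algebra (MvPolynomial (Px m dg ed J ν) ℚ) k] [Field L] [CharZero L] [Algebra k L]
    (Q : MvPolynomial (Px m dg ed J ν) ℚ) :
    algebraMap k L (algebraMap (MvPolynomial (Px m dg ed J ν) ℚ) k Q) =
      MvPolynomial.aeval (yM m dg ed J ν k L) Q := by
  have key : (algebraMap k L).comp (algebraMap (MvPolynomial (Px m dg ed J ν) ℚ) k) =
      (MvPolynomial.aeval (R := ℚ) (yM m dg ed J ν k L)).toRingHom := by
    apply MvPolynomial.ringHom_ext
    · intro r
      exact RingHom.congr_fun (RingHom.ext_rat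
        (((algebraMap k L).comp (algebraMap (MvPolynomial (Px m dg ed J ν) ℚ) k)).comp MvPolynomial.C)
        ((MvPolynomial.aeval (R := ℚ) (yM m dg ed J ν k L)).toRingHom.comp MvPolynomial.C)) r
    · intro i
      simp [yM]
  exact RingHom.congr_fun key Q

/-- The denominator. -/
private noncomputable def identMD {κ : IntermediateField ℚ Qbar} {J ν : Type} [Fintype ν]
    (ω : J → κ) (gd : ν → ℕ × J) (m dg ed : ℕ) : MvPolynomial (Option (Px m dg ed J ν)) κ :=
  ∑ l : ν, MvPolynomial.X (some (Sum.inr (Sum.inr l))) * MvPolynomial.C (ω (gd l).2) *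
    MvPolynomial.X none ^ (gd l).1

private theorem identM_evD {κ : IntermediateField ℚ Qbar} {J ν : Type} [Fintype ν]
    (ω : J → κ) (gd : ν → ℕ × J) (m dg ed : ℕ) {F : Type} [Field F] [Algebra κ F] (t : F)
    (y : Px m dg ed J ν → F) :
    MvPolynomial.aeval (fun o : Option (Px m dg ed J ν) => o.elim t y) (identMD ω gd m dg ed) =
      denM ω gd y t := by
  unfold identMD denM
  rw [map_sum]
  refine Finset.sum_congr rfl fun l _ => ?_
  rw [map_mul, map_mul, map_pow, MvPolynomial.aeval_X, MvPolynomial.aeval_X, MvPolynomial.aeval_C]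
  rfl

/-- Homogenisation. -/
private theorem identM_hom {κ : IntermediateField ℚ Qbar} {J ν : Type} [Fintype J] [Fintype ν]
    (ω : J → κ) (gd : ν → ℕ × J) {m : ℕ} (dg ed : ℕ) (P : MvPolynomial (Fin m) κ) :
    ∃ (E : ℕ) (Ph : MvPolynomial (Option (Px m dg ed J ν)) κ), ∀ (F : Type) [Field F] [Algebra κ F]
      (t : F) (y : Px m dg ed J ν → F), denM ω gd y t ≠ 0 →
      MvPolynomial.aeval (fun o : Option (Px m dg ed J ν) => o.elim t y) Ph =
        denM ω gd y t ^ E * MvPolynomial.aeval (ptM ω gd y t) P := by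
  induction P using MvPolynomial.induction_on with
  | C a =>
    refine ⟨0, MvPolynomial.C a, ?_⟩
    intro F _ _ t y hy
    simp
  | add p q hp hq =>
    obtain ⟨E1, P1, h1⟩ := hp
    obtain ⟨E2, P2, h2⟩ := hq
    refine ⟨E1 + E2, P1 * identMD ω gd m dg ed ^ E2 + P2 * identMD ω gd m dg ed ^ E1, ?_⟩
    intro F _ _ t y hy
    simp only [map_add, map_mul, map_pow, identM_evD]
    rw [h1 F t y hy, h2 F t y hy]
    ring
  | mul_X p i hp =>
    obtain ⟨E1, P1, h1⟩ := hp
    refine ⟨E1 + 1, P1 * ∑ l : Fin (ed + 1) × J,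
      MvPolynomial.X (some (Sum.inr (Sum.inl (i, l)))) * MvPolynomial.C (ω l.2) *
        MvPolynomial.X none ^ (l.1 : ℕ), ?_⟩
    intro F _ _ t y hy
    simp only [map_mul, map_sum, map_pow, MvPolynomial.aeval_X, MvPolynomial.aeval_C]
    rw [h1 F t y hy]
    simp only [ptM, Option.elim_some, Option.elim_none]
    field_simp
    ring

variable {κ : IntermediateField ℚ Qbar} {J ν : Type} [Fintype J] [DecidableEq J] [Fintype ν]
  [DecidableEq ν] {ω : J → κ} {gd : ν → ℕ × J}
  {m dg ed : ℕ} {j₀ : J} {k L : Type} [Field k] [CharZero k]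
  [Algebra (MvPolynomial (Px m dg ed J ν) ℚ) k] [Field L] [CharZero L] [Algebra k L] [Algebra κ L]
  {Dk : Fin m → Derivation ℚ k k} {D : Fin m → Derivation ℚ L L} {t : L}
  (h : ModM ω gd m dg ed j₀ Dk D t)

include h

private theorem identM_ne {Θ : MvPolynomial (Px m dg ed J ν) ℚ} (hΘ : Θ ≠ 0) :
    algebraMap k L (algebraMap (MvPolynomial (Px m dg ed J ν) ℚ) k Θ) ≠ 0 := by
  haveI := h.frac
  intro h0
  have h1 := (map_eq_zero_iff _ (algebraMap k L).injective).mp h0
  exact hΘ ((map_eq_zero_iff _ (IsFractionRing.injective (MvPolynomial (Px m dg ed J ν) ℚ) k)).mp h1)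

private theorem identM_dy (i : Fin m) (p : Px m dg ed J ν) :
    D i (yM m dg ed J ν k L p) = if p = dirM j₀ i then 1 else 0 := by
  unfold yM
  rw [h.ext, h.der, MvPolynomial.pderiv_X]
  by_cases hp : p = dirM j₀ i
  · subst hp
    rw [Pi.single_eq_same, map_one, map_one, if_pos rfl]
  · rw [Pi.single_eq_of_ne hp, map_zero, map_zero, if_neg hp]

theorem ptM_der (i l : Fin m) : D i (ptM ω gd (yM m dg ed J ν k L) t l) =
    if l = i then algebraMap κ L (ω j₀) / denM ω gd (yM m dg ed J ν k L) t else 0 := by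
  have hq := h.den
  have hpow : ∀ n : ℕ, D i (t ^ n) = 0 := by
    intro n
    rw [Derivation.leibniz_pow, h.dt, smul_zero, smul_zero]
  have hdq : D i (denM ω gd (yM m dg ed J ν k L) t) = 0 := by
    unfold denM
    rw [map_sum]
    refine Finset.sum_eq_zero fun k' _ => ?_
    rw [Derivation.leibniz, Derivation.leibniz, h.const, hpow, identM_dy h,
      if_neg (fun h => by cases h)]
    simp
  set S : L := ∑ l' : Fin (ed + 1) × J, yM m dg ed J ν k L (Sum.inr (Sum.inl (l, l'))) *
    algebraMap κ L (ω l'.2) * t ^ (l'.1 : ℕ) with hS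
  have hDS : D i S = if l = i then algebraMap κ L (ω j₀) else 0 := by
    rw [hS, map_sum]
    have hterm : ∀ l' : Fin (ed + 1) × J, D i (yM m dg ed J ν k L (Sum.inr (Sum.inl (l, l'))) *
        algebraMap κ L (ω l'.2) * t ^ (l'.1 : ℕ)) =
        if l' = (0, j₀) then (if l = i then algebraMap κ L (ω j₀) else 0) else 0 := by
      intro l'
      rw [Derivation.leibniz, Derivation.leibniz, h.const, hpow, identM_dy h]
      simp only [smul_zero, add_zero, zero_add, smul_eq_mul]
      by_cases h1 : l' = (0, j₀)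
      · subst h1
        by_cases h2 : l = i
        · subst h2
          simp
        · rw [if_pos rfl, if_neg h2, if_neg]
          · ring
          · intro h3
            apply h2
            have h4 := Sum.inl.inj (Sum.inr.inj h3)
            exact (Prod.mk.inj h4).1
      · rw [if_neg h1, if_neg]
        · ring
        · intro h3
          apply h1
          have h4 := Sum.inl.inj (Sum.inr.inj h3)
          exact (Prod.mk.inj h4).2
    rw [Finset.sum_congr rfl (fun l' _ => hterm l'), Finset.sum_ite_eq' Finset.univ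
      ((0 : Fin (ed + 1)), j₀)]
    simp
  have hpt : ptM ω gd (yM m dg ed J ν k L) t l * denM ω gd (yM m dg ed J ν k L) t = S := by
    unfold ptM
    rw [div_mul_cancel₀ _ hq]
  have hd := congrArg (D i) hpt
  rw [Derivation.leibniz, hdq, hDS, smul_zero, zero_add, smul_eq_mul] at hd
  by_cases h2 : l = i
  · rw [if_pos h2] at hd ⊢
    rw [eq_div_iff hq, ← hd]
    ring
  · rw [if_neg h2] at hd ⊢
    exact (mul_eq_zero.mp hd).resolve_left hq

theorem modM_ident {Γ β : Type} [Fintype Γ] [DecidableEq Γ] [Fintype β] [DecidableEq β]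
    (b : Γ → J × ℕ) {T : MvPolynomial (Fin m) κ} (hT : T ≠ 0)
    {A : Matrix β β (MvPolynomial (Fin m) κ)} {Θ : MvPolynomial (Px m dg ed J ν) ℚ}
    (hΘ : Θ ≠ 0) {M : Matrix (Γ × β) (Γ × β) (MvPolynomial (Px m dg ed J ν) ℚ)}
    (hM : ∀ (γ : Γ) (r r' : β),
      algebraMap κ L (ω (b γ).1) * t ^ (b γ).2 *
        (algebraMap κ L (ω j₀) / denM ω gd (yM m dg ed J ν k L) t *
          (MvPolynomial.aeval (ptM ω gd (yM m dg ed J ν k L) t) (A r r') /
            MvPolynomial.aeval (ptM ω gd (yM m dg ed J ν k L) t) T)) =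
      ∑ γ', algebraMap k L (algebraMap (MvPolynomial (Px m dg ed J ν) ℚ) k (M (γ, r) (γ', r')) /
        algebraMap (MvPolynomial (Px m dg ed J ν) ℚ) k Θ) * (algebraMap κ L (ω (b γ').1) *
          t ^ (b γ').2)) (t' : ℂ) (y' : Px m dg ed J ν → ℂ) (hF : FvM ω y' t' = 0)
    (hq : denM ω gd y' t' ≠ 0) (γ : Γ) (r r' : β) :
    MvPolynomial.aeval y' Θ * algebraMap κ ℂ (ω j₀) * (algebraMap κ ℂ (ω (b γ).1) *
      t' ^ (b γ).2 * MvPolynomial.aeval (ptM ω gd y' t') (A r r')) =
    denM ω gd y' t' * MvPolynomial.aeval (ptM ω gd y' t') T *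
      ∑ γ', MvPolynomial.aeval y' (M (γ, r) (γ', r')) *
        (algebraMap κ ℂ (ω (b γ').1) * t' ^ (b γ').2) := by
  obtain ⟨E1, A1, hA1⟩ := identM_hom ω gd dg ed (A r r')
  obtain ⟨E2, T1, hT1⟩ := identM_hom ω gd dg ed T
  have hTx : MvPolynomial.aeval (ptM ω gd (yM m dg ed J ν k L) t) T ≠ 0 := by
    intro h0
    exact hT (h.trx.eq_zero_of_aeval_eq_zero T h0)
  have hΘL : MvPolynomial.aeval (yM m dg ed J ν k L) Θ ≠ 0 := by
    rw [← identM_iota]
    exact identM_ne h hΘ
  have hqL : denM ω gd (yM m dg ed J ν k L) t ≠ 0 := h.den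
  set P : MvPolynomial (Option (Px m dg ed J ν)) κ :=
    identMQ Θ * MvPolynomial.C (ω j₀) * (MvPolynomial.C (ω (b γ).1) *
      MvPolynomial.X none ^ (b γ).2 *
      (A1 * identMD ω gd m dg ed ^ E2)) -
    identMD ω gd m dg ed * (T1 * identMD ω gd m dg ed ^ E1) *
      ∑ γ', identMQ (M (γ, r) (γ', r')) * (MvPolynomial.C (ω (b γ').1) *
        MvPolynomial.X none ^ (b γ').2) with hP
  have hPF : ∀ (F : Type) [Field F] [CharZero F] [Algebra κ F] (t : F) (y : Px m dg ed J ν → F),
      denM ω gd y t ≠ 0 →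
      MvPolynomial.aeval (fun o : Option (Px m dg ed J ν) => o.elim t y) P =
      denM ω gd y t ^ (E1 + E2) *
      (MvPolynomial.aeval y Θ * algebraMap κ F (ω j₀) * (algebraMap κ F (ω (b γ).1) *
        t ^ (b γ).2 * MvPolynomial.aeval (ptM ω gd y t) (A r r')) -
      denM ω gd y t * MvPolynomial.aeval (ptM ω gd y t) T *
        ∑ γ', MvPolynomial.aeval y (M (γ, r) (γ', r')) *
          (algebraMap κ F (ω (b γ').1) * t ^ (b γ').2)) := by
    intro F _ _ _ t y hy
    rw [hP]
    simp only [map_sub, map_mul, map_pow, map_sum, MvPolynomial.aeval_X, MvPolynomial.aeval_C,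
      identM_evQ, identM_evD, Option.elim_none]
    rw [hA1 F t y hy, hT1 F t y hy]
    ring
  have hzero : MvPolynomial.aeval (fun o : Option (Px m dg ed J ν) => o.elim t (yM m dg ed J ν k L)) P
      = 0 := by
    rw [hPF L t (yM m dg ed J ν k L) hqL]
    have h1 := hM γ r r'
    have h2 : ∀ γ', algebraMap k L (algebraMap (MvPolynomial (Px m dg ed J ν) ℚ) k
        (M (γ, r) (γ', r')) / algebraMap (MvPolynomial (Px m dg ed J ν) ℚ) k Θ) *
        (algebraMap κ L (ω (b γ').1) * t ^ (b γ').2) =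
        (MvPolynomial.aeval (yM m dg ed J ν k L) (M (γ, r) (γ', r')) *
          (algebraMap κ L (ω (b γ').1) * t ^ (b γ').2)) /
          MvPolynomial.aeval (yM m dg ed J ν k L) Θ := by
      intro γ'
      rw [map_div₀, identM_iota, identM_iota]
      ring
    simp only [h2] at h1
    rw [← Finset.sum_div, eq_div_iff hΘL] at h1
    rw [← h1]
    field_simp
    ring
  have h3 := h.gen P hzero t' y' hF
  rw [hPF ℂ t' y' hq] at h3
  exact sub_eq_zero.mp ((mul_eq_zero.mp h3).resolve_left (pow_ne_zero _ hq))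

theorem modM_span {Γ : Type} [Fintype Γ] (b : Γ → J × ℕ) {Θ : MvPolynomial (Px m dg ed J ν) ℚ}
    (hΘ : Θ ≠ 0) {ρ : Γ → MvPolynomial (Px m dg ed J ν) ℚ} {p : J × ℕ}
    (hρ : algebraMap κ L (ω p.1) * t ^ p.2 =
      ∑ γ, algebraMap k L (algebraMap (MvPolynomial (Px m dg ed J ν) ℚ) k (ρ γ) /
        algebraMap (MvPolynomial (Px m dg ed J ν) ℚ) k Θ) * (algebraMap κ L (ω (b γ).1) *
          t ^ (b γ).2))
    (t' : ℂ) (y' : Px m dg ed J ν → ℂ) (hF : FvM ω y' t' = 0) :
    MvPolynomial.aeval y' Θ * (algebraMap κ ℂ (ω p.1) * t' ^ p.2) =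
      ∑ γ, MvPolynomial.aeval y' (ρ γ) * (algebraMap κ ℂ (ω (b γ).1) * t' ^ (b γ).2) := by
  set P : MvPolynomial (Option (Px m dg ed J ν)) κ :=
    identMQ Θ * (MvPolynomial.C (ω p.1) * MvPolynomial.X none ^ p.2) -
      ∑ γ, identMQ (ρ γ) * (MvPolynomial.C (ω (b γ).1) * MvPolynomial.X none ^ (b γ).2) with hP
  have hev : ∀ {R : Type} [CommRing R] [Algebra κ R] [Algebra ℚ R] (t : R) (a : Px m dg ed J ν → R),
      MvPolynomial.aeval (fun o : Option (Px m dg ed J ν) => o.elim t a) P =
      MvPolynomial.aeval a Θ * (algebraMap κ R (ω p.1) * t ^ p.2) -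
      ∑ γ, MvPolynomial.aeval a (ρ γ) * (algebraMap κ R (ω (b γ).1) * t ^ (b γ).2) := by
    intro R _ _ _ t a
    rw [hP]
    simp only [map_sub, map_mul, map_sum, map_pow,
      MvPolynomial.aeval_X, MvPolynomial.aeval_C, identM_evQ, Option.elim_none]
  have hΘ0 := identM_ne h hΘ
  have hzero : MvPolynomial.aeval (fun o : Option (Px m dg ed J ν) => o.elim t (yM m dg ed J ν k L)) P
      = 0 := by
    rw [hev]
    rw [← identM_iota, hρ, Finset.mul_sum, ← Finset.sum_sub_distrib]
    apply Finset.sum_eq_zero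
    intro γ _
    rw [map_div₀, ← identM_iota]
    field_simp
    ring
  have hfin := h.gen P hzero t' y' hF
  rw [hev] at hfin
  exact sub_eq_zero.mp hfin

end Pool.Agent.Helper79.DD
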