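import Pool.Agent.Helper79.DD.UDefs
import Pool.Agent.Helper79.AA.ModPG

/-!
# DD, BB-17: Taylor series in the model

Copy of `AA/ModPG.lean` with `pderiv (dirM j₀ i)` instead of `pderiv (0, j₀)`.
-/

open Polynomial

namespace Pool.Agent.Helper79.DD

open Pool.Agent.Helper79.BB

open Pool.Agent.Helper79.CU Pool.Agent.Helper79.SE Pool.Agent.Helper79.GA Pool.Agent.Helper64.Per

theorem modM_PG {κ : IntermediateField ℚ Qbar} {J ν : Type} [Fintype J] [DecidableEq J]
    [Fintype ν] [DecidableEq ν] {ω : J → κ} {gd : ν → ℕ × J}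
    {m dg ed : ℕ} {j₀ : J} {k L : Type} [Field k] [CharZero k]
    [Algebra (MvPolynomial (Px m dg ed J ν) ℚ) k] [Field L] [CharZero L] [Algebra k L] [Algebra κ L]
    {Dk : Fin m → Derivation ℚ k k} {D : Fin m → Derivation ℚ L L} {t : L}
    (h : ModM ω gd m dg ed j₀ Dk D t) (i : Fin m) : ∀ f : L, PG (tL (D i) f) := by
  have hfr := h.frac
  have hfin := h.fin
  have hpoly : ∀ P : MvPolynomial (Px m dg ed J ν) ℚ,
      PG (tLH (Dk i) (algebraMap (MvPolynomial (Px m dg ed J ν) ℚ) k P)) := by
    intro P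
    induction P using MvPolynomial.induction_on with
    | C c =>
      have h1 : Dk i (algebraMap (MvPolynomial (Px m dg ed J ν) ℚ) k (MvPolynomial.C c)) = 0 := by
        rw [h.der, MvPolynomial.pderiv_C, map_zero]
      rw [tLH_apply, tL_const (Dk i) h1]
      exact PG_C _
    | add p q hp hq =>
      rw [map_add, map_add]
      exact PG_add hp hq
    | mul_X p l hp =>
      rw [map_mul, map_mul]
      refine PG_mul hp ?_
      rw [tLH_apply]
      by_cases hl : l = dirM j₀ i
      · have h1 : Dk i (algebraMap (MvPolynomial (Px m dg ed J ν) ℚ) k (MvPolynomial.X l)) = 1 := by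
          rw [h.der, hl, MvPolynomial.pderiv_X_self, map_one]
        rw [tL_var (Dk i) h1]
        exact PG_add (PG_C _) (PG_single _ _)
      · have h1 : Dk i (algebraMap (MvPolynomial (Px m dg ed J ν) ℚ) k (MvPolynomial.X l)) = 0 := by
          rw [h.der, MvPolynomial.pderiv_X_of_ne (fun h2 => hl h2), map_zero]
        rw [tL_const (Dk i) h1]
        exact PG_C _
  have hk : ∀ f : k, PG (tL (Dk i) f) := by
    intro f
    obtain ⟨a, b, hb, rfl⟩ := IsFractionRing.div_surjective (A := MvPolynomial (Px m dg ed J ν) ℚ) f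
    rw [← tLH_apply, map_div₀, div_eq_mul_inv]
    exact PG_mul (hpoly a) (PG_inv (hpoly b))
  exact alg_tame (F := k) (L := L) (D := Dk i) (D' := D i) (h.ext i) hk

end Pool.Agent.Helper79.DD
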