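import Pool.Agent.Helper79.DD.Mod0
import Pool.Agent.Helper79.DD.Mod1
import Pool.Agent.Helper79.DD.ModPG
import Pool.Agent.Helper79.BB.UHom
import Pool.Agent.Helper79.DD.Ident
import Pool.Agent.Helper79.AA.Univ
import Pool.Agent.Helper79.BB.Univ
import Pool.Agent.Helper79.DD.Sym

/-!
# BB: the universal push-forward (assembly, helper79)
-/

open Polynomial

namespace Pool.Agent.Helper79.DD

open Pool.Agent.Helper79.BB

open Pool.Agent.Helper79.CU Pool.Agent.Helper79.SE Pool.Agent.Helper79.GA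
  Pool.Agent.Helper79.GX Pool.Agent.Helper79.AA Pool.Agent.Helper64.Per

/-- The universal push-forward, with the product formula for the tensor powers. -/
theorem exists_uniM {κ : IntermediateField ℚ Qbar} [FiniteDimensional ℚ κ] {J ν : Type}
    [Fintype J] [DecidableEq J] [Fintype ν] [DecidableEq ν] (ω : Module.Basis J ℚ κ)
    (gd : ν → ℕ × J) (l₀ : ν) {m dg : ℕ} (ed : ℕ) (hdg : 1 ≤ dg) (j₀ : J) {β : Type}
    [Fintype β] [DecidableEq β] {T : MvPolynomial (Fin m) κ} (hT : T ≠ 0)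
    {A : Fin m → Matrix β β (MvPolynomial (Fin m) κ)}
    (htame : ∀ i : Fin m, ∃ (K : Type) (_ : Field K) (_ : CharZero K) (_ : Algebra (Ki κ i) K)
      (u : K) (Du : Derivation ℚ K K), RatX (Ki κ i) u Du ∧
        TameM Du (fun r r' => aeval u (tauP i (A i r r')) / aeval u (tauP i T))) :
    ∃ 𝔇 : UniM (fun j => ω j) gd dg ed j₀ T A, ∀ i, Star (dirM j₀ i) 𝔇.Θ (𝔇.M i) := by
  classical
  obtain ⟨L, _, _, _, DL, t, y, h0⟩ := exists_mod0M (ω := fun j => ω j) (fun j => ω.ne_zero j)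
    gd l₀ m ed hdg j₀
  obtain ⟨k, _, _, _, _, Dk, h⟩ := exists_mod1M ω hdg h0
  set x : Fin m → L := ptM (fun j => ω j) gd (yM m dg ed J ν k L) t with hx
  have hPG := fun i => modM_PG h i
  have hder := ptM_der h
  have hchain : ∀ i, TameM (DL i) (fun r r' => DL i (x i) *
      (MvPolynomial.aeval x (A i r r') / MvPolynomial.aeval x T)) := by
    intro i
    obtain ⟨K, _, _, _, u, Du, hu, ht⟩ := htame i
    exact tame_pull i hu h.trx (h.const i) (fun l hl => by rw [hder, if_neg hl]) (hPG i (x i)) ht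
  have := h.fin
  have := h.frac
  -- the basis
  set v : J × ℕ → L := fun p => algebraMap κ L (ω p.1) * t ^ p.2 with hv
  obtain ⟨Γ, bb, hinj, hspan, hli⟩ := exists_linearIndependent' k v
  have hΓ : Finite Γ := hli.finite_of_isNoetherian
  have fΓ : Fintype Γ := Fintype.ofFinite Γ
  have hspan' : ⊤ ≤ Submodule.span k (Set.range (v ∘ bb)) := by
    rw [hspan, h.span]
  set b : Module.Basis Γ k L := Module.Basis.mk hli hspan' with hb
  have hbv : ∀ γ, b γ = v (bb γ) := fun γ => by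
    rw [hb, Module.Basis.mk_apply]
    rfl
  have hDv : ∀ i p, DL i (v p) = 0 := by
    intro i p
    rw [hv]
    simp only
    rw [Derivation.leibniz, Derivation.leibniz_pow, h.const, h.dt]
    simp
  have hpush := fun i => tame_push (h.ext i) (hPG i) b (hchain i)
  set α' : Fin m → Matrix (Γ × β) (Γ × β) k := fun i p q =>
    b.repr ((if p.2 = q.2 then DL i (b p.1) else 0) + b p.1 *
      (DL i (x i) * (MvPolynomial.aeval x (A i p.2 q.2) / MvPolynomial.aeval x T))) q.1 with hα'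
  have hden := fun i => exists_den (h.der i) (hpush i)
  choose Θ₀ hΘ₀ cc H hden using hden
  -- the common denominator
  obtain ⟨Θ₁, hΘ₁⟩ := IsLocalization.exist_integer_multiples_of_finite
    (nonZeroDivisors (MvPolynomial (Px m dg ed J ν) ℚ))
    (Sum.elim (fun x : Fin m × (Γ × β) × (Γ × β) => α' x.1 x.2.1 x.2.2)
      (fun x : (J × Fin (dg + 1)) × Γ => b.repr (v (x.1.1, x.1.2)) x.2))
  have hΘ₁0 : (Θ₁ : MvPolynomial (Px m dg ed J ν) ℚ) ≠ 0 := nonZeroDivisors.ne_zero Θ₁.2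
  set R := MvPolynomial (Px m dg ed J ν) ℚ with hR
  have hinjR : Function.Injective (algebraMap R k) := IsFractionRing.injective R k
  have hM₁ : ∀ i x y, ∃ P : R, algebraMap R k P = algebraMap R k Θ₁ * α' i x y := by
    intro i x y
    obtain ⟨P, hP⟩ := hΘ₁ (Sum.inl (i, x, y))
    refine ⟨P, ?_⟩
    rw [hP, Sum.elim_inl]
    exact Algebra.smul_def _ _
  have hρ₁ : ∀ (p : J × ℕ) (γ : Γ), ∃ P : R, p.2 ≤ dg →
      algebraMap R k P = algebraMap R k Θ₁ * b.repr (v p) γ := by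
    intro p γ
    by_cases hp : p.2 ≤ dg
    · obtain ⟨P, hP⟩ := hΘ₁ (Sum.inr ((p.1, ⟨p.2, by omega⟩), γ))
      refine ⟨P, fun _ => ?_⟩
      rw [hP, Sum.elim_inr]
      exact Algebra.smul_def _ _
    · exact ⟨0, fun h => absurd h hp⟩
  choose M₁ hM₁ using hM₁
  choose ρ₁ hρ₁ using hρ₁
  set Θ₂ : R := ∏ i, MvPolynomial.map (Int.castRingHom ℚ) (Θ₀ i) with hΘ₂
  have hΘ₂0 : Θ₂ ≠ 0 := by
    rw [hΘ₂]
    refine Finset.prod_ne_zero_iff.2 fun i _ h1 => hΘ₀ i ?_
    exact (MvPolynomial.map_injective _ (RingHom.injective_int (Int.castRingHom ℚ)))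
      (by rw [map_zero]; exact h1)
  set Θ : R := (Θ₁ : R) * Θ₂ with hΘ
  have hΘ0 : Θ ≠ 0 := mul_ne_zero hΘ₁0 hΘ₂0
  have hne : ∀ P : R, P ≠ 0 → algebraMap R k P ≠ 0 := fun P hP h1 =>
    hP (hinjR (by rw [h1, map_zero]))
  set M : Fin m → Matrix (Γ × β) (Γ × β) R := fun i x y => M₁ i x y * Θ₂ with hM
  have hMα : ∀ i x y, α' i x y = algebraMap R k (M i x y) / algebraMap R k Θ := by
    intro i x y
    rw [hM, hΘ, map_mul, map_mul, hM₁, mul_div_mul_right _ _ (hne _ hΘ₂0),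
      mul_div_cancel_left₀ _ (hne _ hΘ₁0)]
  have hρα : ∀ (p : J × ℕ) (γ : Γ), p.2 ≤ dg →
      b.repr (v p) γ = algebraMap R k (ρ₁ p γ * Θ₂) / algebraMap R k Θ := by
    intro p γ hp
    rw [hΘ, map_mul (algebraMap R k), map_mul (algebraMap R k), hρ₁ p γ hp, mul_div_mul_right _ _ (hne _ hΘ₂0),
      mul_div_cancel_left₀ _ (hne _ hΘ₁0)]
  have hΘ₀' : ∀ (i : Fin m) (a : Px m dg ed J ν → ℤ),
      MvPolynomial.eval (fun i => ((a i : ℤ) : ℚ)) Θ ≠ 0 →
      MvPolynomial.eval a (Θ₀ i) ≠ 0 := by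
    intro i a h1 h2
    apply h1
    rw [hΘ, map_mul, hΘ₂, map_prod]
    have h3 : MvPolynomial.eval (fun i => ((a i : ℤ) : ℚ))
        (MvPolynomial.map (Int.castRingHom ℚ) (Θ₀ i)) =
        ((MvPolynomial.eval a (Θ₀ i) : ℤ) : ℚ) := by
      rw [MvPolynomial.eval_map]
      have := MvPolynomial.eval₂_comp_left (Int.castRingHom ℚ) (RingHom.id ℤ) a (Θ₀ i)
      simp only [RingHomCompTriple.comp_eq] at this
      rw [MvPolynomial.eval, MvPolynomial.coe_eval₂Hom]
      exact this.symm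
    rw [Finset.prod_eq_zero (Finset.mem_univ i) (by rw [h3, h2, Int.cast_zero]), mul_zero]
  have hgr := fun i => gr_of (dirM j₀ i) Θ (M i) (Θ₀ i) (cc i) (H i)
    (hden i Θ (M i) hΘ0 (hMα i)) (hΘ₀' i)
  choose c' hc' using hgr
  -- sums
  have hsum : ∀ x : L, x = ∑ γ, algebraMap k L (b.repr x γ) * v (bb γ) := by
    intro x
    conv_lhs => rw [← b.sum_repr x]
    refine Finset.sum_congr rfl fun γ _ => ?_
    rw [Algebra.smul_def, hbv]
  refine ⟨{
    Γ := Γ
    b := bb
    Θ := Θ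
    Θ_ne := hΘ0
    M := M
    ρ := fun p γ => ρ₁ p γ * Θ₂
    c := ∑ i, c' i
    growth := ?_
    ident := ?_
    span := ?_ }, ?_⟩
  · intro X hX i a u ha hu
    have hX1 : (1 : ℝ) ≤ X := by exact_mod_cast (by omega : 1 ≤ X)
    refine gr_mono (hc' i X hX a u ha hu) (by positivity) (pow_le_pow_right₀ hX1 ?_)
    exact Finset.single_le_sum (f := c') (fun _ _ => Nat.zero_le _) (Finset.mem_univ i)
  · intro t' y' hF hq i γ r r'
    refine modM_ident h bb hT hΘ0 (A := A i) (M := M i) (fun γ r r' => ?_) t' y' hF hq γ r r'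
    have h1 := hsum ((if r = r' then DL i (b γ) else 0) + b γ *
      (DL i (x i) * (MvPolynomial.aeval x (A i r r') / MvPolynomial.aeval x T)))
    have h2 : (if r = r' then DL i (b γ) else 0) = 0 := by
      rw [hbv, hDv, ite_self]
    have h3 : DL i (x i) = algebraMap κ L (ω j₀) / denM (fun j => ω j) gd (yM m dg ed J ν k L) t := by
      rw [hx, hder, if_pos rfl]
    have h4 : algebraMap κ L (ω (bb γ).1) * t ^ (bb γ).2 *
        (algebraMap κ L (ω j₀) / denM (fun j => ω j) gd (yM m dg ed J ν k L) t *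
          (MvPolynomial.aeval (ptM (fun j => ω j) gd (yM m dg ed J ν k L) t) (A i r r') /
            MvPolynomial.aeval (ptM (fun j => ω j) gd (yM m dg ed J ν k L) t) T)) =
        (if r = r' then DL i (b γ) else 0) + b γ *
      (DL i (x i) * (MvPolynomial.aeval x (A i r r') / MvPolynomial.aeval x T)) := by
      rw [h2, zero_add, h3, hbv]
    rw [h4, h1]
    refine Finset.sum_congr rfl fun γ' _ => ?_
    rw [← hMα i (γ, r) (γ', r')]
  · intro t' y' hF p hp
    refine modM_span h bb hΘ0 (ρ := fun γ => ρ₁ p γ * Θ₂) ?_ t' y' hF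
    rw [show algebraMap κ L (ω p.1) * t ^ p.2 = v p from rfl]
    conv_lhs => rw [hsum (v p)]
    refine Finset.sum_congr rfl fun γ _ => ?_
    rw [hρα p γ hp]
  · intro i
    refine star_of (D := DL i) (Dk := Dk i) (b := b) (h.der i) (h.ext i)
      (fun γ => by rw [hbv, hDv]) hΘ0 (a := fun r r' => DL i (x i) *
        (MvPolynomial.aeval x (A i r r') / MvPolynomial.aeval x T)) (fun x' y' => ?_)
    rw [← hMα i x' y']
    have h2 : (if x'.2 = y'.2 then DL i (b x'.1) else 0) = 0 := by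
      rw [hbv, hDv, ite_self]
    change _ = b.repr ((if x'.2 = y'.2 then DL i (b x'.1) else 0) + b x'.1 *
      (DL i (x i) * (MvPolynomial.aeval x (A i x'.2 y'.2) / MvPolynomial.aeval x T))) y'.1
    rw [h2, zero_add]
    rfl

section

variable {κ : IntermediateField ℚ Qbar} {J ν : Type} [Fintype J] [DecidableEq J] [Fintype ν]
  [DecidableEq ν] {ω : J → κ} {gd : ν → ℕ × J} {m dg ed : ℕ} {j₀ : J}
  {T : MvPolynomial (Fin m) κ}

/-- The iterates at the integer points. -/
theorem gm_spec {σ : Type} [DecidableEq σ] {ι : Type} [Fintype ι] [DecidableEq ι] (i₀ : σ)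
    (a : σ → ℤ) (Θ : MvPolynomial σ ℚ) (M : Matrix ι ι (MvPolynomial σ ℚ)) (n : ℕ) (u : ℚ)
    (x y : ι) : gm (spec i₀ a Θ) (M.map (spec i₀ a)) n u x y =
      (spec i₀ a (mbeta i₀ Θ M n x y)).eval u / (spec i₀ a Θ).eval u ^ n := by
  rw [gm, Matrix.of_apply, spec_beta, Matrix.map_apply]

/-- The push-forward of a tensor power. -/
noncomputable def UniM.tens {β : Type} [Fintype β] [DecidableEq β]
    {A : Fin m → Matrix β β (MvPolynomial (Fin m) κ)} (𝔇 : UniM ω gd dg ed j₀ T A)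
    (hs : ∀ i, Star (dirM j₀ i) 𝔇.Θ (𝔇.M i)) (r : ℕ) :
    UniM ω gd dg ed j₀ T (fun i => Pool.Agent.Helper79.CU.tens r (A i)) where
  Γ := 𝔇.Γ
  b := 𝔇.b
  Θ := 𝔇.Θ
  Θ_ne := 𝔇.Θ_ne
  M := fun i => tensB r (𝔇.M i)
  ρ := 𝔇.ρ
  c := (𝔇.c + 1) * (r + 1)
  growth := by
    intro X hX i a u ha hu
    have hX1 : (1 : ℝ) ≤ X := by exact_mod_cast (by omega : 1 ≤ X)
    have hX2 : (2 : ℝ) ≤ X := by exact_mod_cast hX
    have h1 := gr_tens (Ar := fun r => (tensB r (𝔇.M i)).map (spec (dirM j₀ i) a))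
      (one_le_pow₀ hX1) (𝔇.growth X hX i a u ha hu) ?_ ?_ r
    · refine gr_mono h1 (by positivity) ?_
      rw [pow_mul]
      refine pow_le_pow_left₀ (by positivity) ?_ _
      rw [pow_succ, mul_comm]
      exact mul_le_mul_of_nonneg_left hX2 (by positivity)
    · ext1 x y
      rw [Matrix.map_apply, tensB, Finset.univ_eq_empty, Finset.sum_empty, map_zero]
      rfl
    · intro r n γ γ' I J
      simp only [gm_spec]
      rw [hs i r n γ γ' I J, map_sum, eval_finsetSum, Finset.sum_div]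
      refine Finset.sum_congr rfl fun p hp => ?_
      have hpn : p.1 + p.2 = n := Finset.HasAntidiagonal.mem_antidiagonal.1 hp
      rw [map_sum, eval_finsetSum, Finset.sum_div]
      refine Finset.sum_congr rfl fun γ'' _ => ?_
      rw [map_mul, eval_mul, ← hpn, pow_add, mul_div_mul_comm]
  ident := by
    intro t y hF hq i γ I J
    have h1 : ∀ s, (if (∀ s', s' ≠ s → I s' = J s') then
        MvPolynomial.aeval y 𝔇.Θ * algebraMap κ ℂ (ω j₀) * (algebraMap κ ℂ (ω (𝔇.b γ).1) *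
          t ^ (𝔇.b γ).2 * MvPolynomial.aeval (ptM ω gd y t) (A i (I s) (J s))) else 0) =
        denM ω gd y t * MvPolynomial.aeval (ptM ω gd y t) T *
          ∑ γ', (if (∀ s', s' ≠ s → I s' = J s') then
            MvPolynomial.aeval y (𝔇.M i (γ, I s) (γ', J s)) *
            (algebraMap κ ℂ (ω (𝔇.b γ').1) * t ^ (𝔇.b γ').2) else 0) := by
      intro s
      by_cases hs : ∀ s', s' ≠ s → I s' = J s'
      · simp only [if_pos hs]
        exact 𝔇.ident t y hF hq i γ (I s) (J s)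
      · simp only [if_neg hs]
        simp
    have h2 := Finset.sum_congr (rfl : (Finset.univ : Finset (Fin r)) = Finset.univ)
      fun s _ => h1 s
    have e1 : MvPolynomial.aeval (ptM ω gd y t) (Pool.Agent.Helper79.CU.tens r (A i) I J) =
        ∑ s, if (∀ s', s' ≠ s → I s' = J s') then
          MvPolynomial.aeval (ptM ω gd y t) (A i (I s) (J s)) else 0 := by
      unfold Pool.Agent.Helper79.CU.tens
      rw [map_sum]
      refine Finset.sum_congr rfl fun s _ => ?_
      split_ifs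
      · rfl
      · exact map_zero _
    have e2 : ∀ γ', MvPolynomial.aeval y (tensB r (𝔇.M i) (γ, I) (γ', J)) =
        ∑ s, if (∀ s', s' ≠ s → I s' = J s') then
          MvPolynomial.aeval y (𝔇.M i (γ, I s) (γ', J s)) else 0 := by
      intro γ'
      unfold tensB
      rw [map_sum]
      refine Finset.sum_congr rfl fun s _ => ?_
      split_ifs
      · rfl
      · exact map_zero _
    rw [e1]
    have e3 : MvPolynomial.aeval y 𝔇.Θ * algebraMap κ ℂ (ω j₀) * (algebraMap κ ℂ (ω (𝔇.b γ).1) *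
        t ^ (𝔇.b γ).2 * ∑ s, if (∀ s', s' ≠ s → I s' = J s') then
          MvPolynomial.aeval (ptM ω gd y t) (A i (I s) (J s)) else 0) =
        ∑ s, (if (∀ s', s' ≠ s → I s' = J s') then
        MvPolynomial.aeval y 𝔇.Θ * algebraMap κ ℂ (ω j₀) * (algebraMap κ ℂ (ω (𝔇.b γ).1) *
          t ^ (𝔇.b γ).2 * MvPolynomial.aeval (ptM ω gd y t) (A i (I s) (J s))) else 0) := by
      rw [Finset.mul_sum, Finset.mul_sum]
      refine Finset.sum_congr rfl fun s _ => ?_
      split_ifs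
      · rfl
      · rw [mul_zero, mul_zero]
    rw [e3, h2, ← Finset.mul_sum, Finset.sum_comm]
    congr 1
    refine Finset.sum_congr rfl fun γ' _ => ?_
    rw [e2, Finset.sum_mul]
    refine Finset.sum_congr rfl fun s _ => ?_
    split_ifs
    · rfl
    · rw [zero_mul]
  span := 𝔇.span

/-- The entries of the quotient matrix. -/
theorem qM_G {R Γ W W' : Type} [CommRing R] [Fintype Γ] [DecidableEq Γ] [Fintype W]
    [DecidableEq W'] (π : W → W') (σ : W' → W) (B : Matrix (Γ × W) (Γ × W) R) (γ γ' : Γ)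
    (s s' : W') : qM (fun x : Γ × W => (x.1, π x.2)) (fun s : Γ × W' => (s.1, σ s.2)) B (γ, s)
      (γ', s') = ∑ J, if π J = s' then B (γ, σ s) (γ', J) else 0 := by
  unfold qM
  rw [Fintype.sum_prod_type, Finset.sum_eq_single γ']
  · refine Finset.sum_congr rfl fun J _ => ?_
    simp
  · intro γ'' _ h
    refine Finset.sum_eq_zero fun J _ => ?_
    rw [if_neg]
    intro h1
    exact h (Prod.mk.inj h1).1
  · intro h
    exact absurd (Finset.mem_univ _) h

/-- The quotient. -/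
noncomputable def UniM.quo {W W' : Type} [Fintype W] [DecidableEq W] [Fintype W']
    [DecidableEq W'] {A : Fin m → Matrix W W (MvPolynomial (Fin m) κ)}
    (𝔇 : UniM ω gd dg ed j₀ T A) (π : W → W') (σ : W' → W) (hσ : ∀ s, π (σ s) = s)
    (hM : ∀ i, QInv (fun x : 𝔇.Γ × W => (x.1, π x.2)) (𝔇.M i)) :
    UniM ω gd dg ed j₀ T (fun i => qM π σ (A i)) where
  Γ := 𝔇.Γ
  b := 𝔇.b
  Θ := 𝔇.Θ
  Θ_ne := 𝔇.Θ_ne
  M := fun i => qM (fun x : 𝔇.Γ × W => (x.1, π x.2)) (fun s : 𝔇.Γ × W' => (s.1, σ s.2)) (𝔇.M i)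
  ρ := 𝔇.ρ
  c := 𝔇.c
  growth := by
    intro X hX i a u ha hu
    have hX1 : (1 : ℝ) ≤ X := by exact_mod_cast (by omega : 1 ≤ X)
    have h1 := gr_q (π := fun x : 𝔇.Γ × W => (x.1, π x.2)) (σ := fun s : 𝔇.Γ × W' => (s.1, σ s.2))
      (fun s => Prod.ext rfl (hσ s.2)) ((hM i).map (spec (dirM j₀ i) a : MvPolynomial _ ℚ →+* ℚ[X]))
      (one_le_pow₀ hX1) (𝔇.growth X hX i a u ha hu)
    rw [← qM_map] at h1
    exact h1
  ident := by
    intro t y hF hq i γ s s'
    have e1 : MvPolynomial.aeval (ptM ω gd y t) (qM π σ (A i) s s') =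
        ∑ J, if π J = s' then MvPolynomial.aeval (ptM ω gd y t) (A i (σ s) J) else 0 := by
      unfold qM
      rw [map_sum]
      refine Finset.sum_congr rfl fun J _ => ?_
      split_ifs
      · rfl
      · exact map_zero _
    have e2 : ∀ γ', MvPolynomial.aeval y (qM (fun x : 𝔇.Γ × W => (x.1, π x.2))
        (fun s : 𝔇.Γ × W' => (s.1, σ s.2)) (𝔇.M i) (γ, s) (γ', s')) =
        ∑ J, if π J = s' then MvPolynomial.aeval y (𝔇.M i (γ, σ s) (γ', J)) else 0 := by
      intro γ'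
      rw [qM_G, map_sum]
      refine Finset.sum_congr rfl fun J _ => ?_
      split_ifs
      · rfl
      · exact map_zero _
    have h1 : ∀ J, (if π J = s' then
        MvPolynomial.aeval y 𝔇.Θ * algebraMap κ ℂ (ω j₀) * (algebraMap κ ℂ (ω (𝔇.b γ).1) *
          t ^ (𝔇.b γ).2 * MvPolynomial.aeval (ptM ω gd y t) (A i (σ s) J)) else 0) =
        denM ω gd y t * MvPolynomial.aeval (ptM ω gd y t) T *
          ∑ γ', (if π J = s' then MvPolynomial.aeval y (𝔇.M i (γ, σ s) (γ', J)) *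
            (algebraMap κ ℂ (ω (𝔇.b γ').1) * t ^ (𝔇.b γ').2) else 0) := by
      intro J
      by_cases hJ : π J = s'
      · simp only [if_pos hJ]
        exact 𝔇.ident t y hF hq i γ (σ s) J
      · simp only [if_neg hJ]
        simp
    have h2 := Finset.sum_congr (rfl : (Finset.univ : Finset W) = Finset.univ) fun J _ => h1 J
    rw [e1]
    have e3 : MvPolynomial.aeval y 𝔇.Θ * algebraMap κ ℂ (ω j₀) * (algebraMap κ ℂ (ω (𝔇.b γ).1) *
        t ^ (𝔇.b γ).2 * ∑ J, if π J = s' then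
          MvPolynomial.aeval (ptM ω gd y t) (A i (σ s) J) else 0) =
        ∑ J, (if π J = s' then
        MvPolynomial.aeval y 𝔇.Θ * algebraMap κ ℂ (ω j₀) * (algebraMap κ ℂ (ω (𝔇.b γ).1) *
          t ^ (𝔇.b γ).2 * MvPolynomial.aeval (ptM ω gd y t) (A i (σ s) J)) else 0) := by
      rw [Finset.mul_sum, Finset.mul_sum]
      refine Finset.sum_congr rfl fun J _ => ?_
      split_ifs
      · rfl
      · rw [mul_zero, mul_zero]
    rw [e3, h2, ← Finset.mul_sum, Finset.sum_comm]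
    congr 1
    refine Finset.sum_congr rfl fun γ' _ => ?_
    rw [e2, Finset.sum_mul]
    refine Finset.sum_congr rfl fun J _ => ?_
    split_ifs
    · rfl
    · rw [zero_mul]
  span := 𝔇.span

end

end Pool.Agent.Helper79.DD
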