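import Pool.Agent.Helper79.BB.CountMain
import Pool.Agent.Helper79.DD.PenSys
import Pool.Agent.Helper79.DD.PenBad
import Pool.Agent.Helper79.DD.CountPts
import Pool.Agent.Helper79.DD.Univ
import Pool.Agent.Helper79.DD.BoxX

/-!
# DD: counting the bad parameters (helper79)
-/

open Polynomial

namespace Pool.Agent.Helper79.DD

open Pool.Agent.Helper79.BB Pool.Agent.Helper79.AA Pool.Agent.Helper79.GX Pool.Agent.Helper64.Per

/-- The size of the point. -/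
theorem ptM_bound {κ : IntermediateField ℚ Qbar} {J ν : Type} [Fintype J] [Fintype ν]
    {m dg ed : ℕ} (ω : J → κ) {gd : ν → ℕ × J}
    {y : Px m dg ed J ν → ℂ} {X M Q : ℝ} (hX : 0 ≤ X) (hM : 1 ≤ M) (hQ : 0 < Q)
    (hy : ∀ p, ‖y p‖ ≤ X) {t : ℂ} (hq : Q ≤ ‖denM ω gd y t‖) (ht : ‖t‖ ≤ M) :
    ‖ptM ω gd y t‖ ≤ X * (∑ l : Fin (ed + 1) × J, ‖algebraMap κ ℂ (ω l.2)‖) * M ^ ed / Q := by
  have hM0 : 0 ≤ M := by linarith
  rw [pi_norm_le_iff_of_nonneg (by positivity)]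
  intro i
  unfold ptM
  rw [norm_div]
  refine div_le_div₀ (by positivity) ?_ hQ hq
  refine (norm_sum_le _ _).trans ?_
  rw [Finset.mul_sum, Finset.sum_mul]
  refine Finset.sum_le_sum fun l _ => ?_
  rw [norm_mul, norm_mul, norm_pow]
  refine mul_le_mul (mul_le_mul_of_nonneg_right (hy _) (norm_nonneg _)) ?_ (by positivity)
    (by positivity)
  refine (pow_le_pow_left₀ (norm_nonneg _) ht _).trans (pow_le_pow_right₀ hM ?_)
  have := l.1.2
  omega

theorem card_Px {m dg ed : ℕ} {J ν : Type} [Fintype J] [Fintype ν] (j₀ : J) (l₀ : ν) :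
    m + 1 ≤ Fintype.card (Px m dg ed J ν) := by
  classical
  have h1 : Function.Injective (fun o : Option (Fin m) => (o.elim (Sum.inr (Sum.inr l₀))
      (fun i => dirM (dg := dg) (ed := ed) j₀ i) : Px m dg ed J ν)) := by
    intro a b hab
    cases a with
    | none =>
      cases b with
      | none => rfl
      | some b => simp at hab
    | some a =>
      cases b with
      | none => simp at hab
      | some b =>
        have := dirM_injective j₀ hab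
        rw [this]
  have h2 := Fintype.card_le_of_injective _ h1
  simpa using h2

/-- The size of the denominator. -/
theorem denM_bound {κ : IntermediateField ℚ Qbar} {J ν : Type} [Fintype ν]
    {m dg ed : ℕ} (ω : J → κ) {gd : ν → ℕ × J} {y : Px m dg ed J ν → ℂ} {X M : ℝ} (hX : 0 ≤ X)
    (hM : 1 ≤ M) (hy : ∀ p, ‖y p‖ ≤ X) {G : ℕ} (hG : ∀ l, (gd l).1 ≤ G) {t : ℂ}
    (ht : ‖t‖ ≤ M) : ‖denM ω gd y t‖ ≤ X * (∑ l : ν, ‖algebraMap κ ℂ (ω (gd l).2)‖) * M ^ G := by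
  have hM0 : 0 ≤ M := by linarith
  unfold denM
  refine (norm_sum_le _ _).trans ?_
  rw [Finset.mul_sum, Finset.sum_mul]
  refine Finset.sum_le_sum fun l _ => ?_
  rw [norm_mul, norm_mul, norm_pow]
  refine mul_le_mul (mul_le_mul_of_nonneg_right (hy _) (norm_nonneg _)) ?_ (by positivity)
    (by positivity)
  exact (pow_le_pow_left₀ (norm_nonneg _) ht _).trans (pow_le_pow_right₀ hM (hG l))

section

variable {κ : IntermediateField ℚ Qbar} {J ν : Type} [Fintype J]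
  [DecidableEq J] [Fintype ν] [DecidableEq ν] (ω : Module.Basis J ℚ κ) {gd : ν → ℕ × J}
  {m dg ed : ℕ}

theorem ps_large (hdg : 1 ≤ dg) {η : ℝ} (hη : 0 < η) (hη' : η < 1) :
    PS (Fintype.card (Px m dg ed J ν)) fun X => (Set.ncard {a : Px m dg ed J ν → ℤ | (∀ p, |a p| ≤ X) ∧
      ∃ t : ℂ, (X : ℝ) ^ η ≤ ‖t‖ ∧ FvM (fun j => ω j) (fun p => (a p : ℂ)) t = 0} : ℝ) := by
  classical
  have hJ : Nonempty J := ω.index_nonempty
  obtain ⟨C, hC⟩ := count_large (ω := fun j => ω j) (fun j => ω.ne_zero j) hdg hη hη'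
  set f : ℕ → ℝ := fun X => (Set.ncard {a : Ix dg J → ℤ | (∀ j, |a j| ≤ X) ∧ ∃ t : ℂ,
    (X : ℝ) ^ η ≤ ‖t‖ ∧ Fv (fun j => ω j) (fun i => (a i : ℂ)) t = 0} : ℝ) with hf
  have hps : PS (Fintype.card (Ix dg J)) f := PS.of hη fun X hX => hC X hX
  have hcard : Fintype.card (Px m dg ed J ν) = Fintype.card (Ix dg J) +
      Fintype.card ((Fin m × (Fin (ed + 1) × J)) ⊕ ν) := Fintype.card_sum
  rw [hcard]
  refine PS.mulpow hps (C := 3 ^ Fintype.card ((Fin m × (Fin (ed + 1) × J)) ⊕ ν))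
    (by positivity) fun X hX => ?_
  have hX1 : (1 : ℝ) ≤ X := by exact_mod_cast hX
  set S : Set (Ix dg J → ℤ) := {a : Ix dg J → ℤ | (∀ j, |a j| ≤ X) ∧ ∃ t : ℂ,
    (X : ℝ) ^ η ≤ ‖t‖ ∧ Fv (fun j => ω j) (fun i => (a i : ℂ)) t = 0} with hS
  have h1 := count_proj X S.ncard S (box_card X S fun a ha => ha.1).1 le_rfl
    {a : Px m dg ed J ν → ℤ | (∀ p, |a p| ≤ X) ∧
      ∃ t : ℂ, (X : ℝ) ^ η ≤ ‖t‖ ∧ FvM (fun j => ω j) (fun p => (a p : ℂ)) t = 0}
    (fun a ha => ⟨ha.1, fun l => ha.1 (Sum.inl l), ha.2⟩)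
  have h2 : (Set.ncard {a : Px m dg ed J ν → ℤ | (∀ p, |a p| ≤ X) ∧
      ∃ t : ℂ, (X : ℝ) ^ η ≤ ‖t‖ ∧ FvM (fun j => ω j) (fun p => (a p : ℂ)) t = 0} : ℝ) ≤
      S.ncard * (2 * X + 1) ^ Fintype.card ((Fin m × (Fin (ed + 1) × J)) ⊕ ν) := by
    exact_mod_cast h1
  refine h2.trans ?_
  rw [← mul_pow]
  refine mul_le_mul_of_nonneg_left (pow_le_pow_left₀ (by positivity) (by linarith) _)
    (Nat.cast_nonneg _)

/-- Few denominators are small. -/
theorem ps_den {l₀ : ν} (hl₀ : (gd l₀).1 = 0) {η : ℝ} (hη : 0 < η) (hη' : η < 1) :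
    PS (Fintype.card (Px m dg ed J ν)) fun X => (Set.ncard {a : Px m dg ed J ν → ℤ |
      (∀ p, |a p| ≤ X) ∧ (∃ l, a (Sum.inl l) ≠ 0) ∧ ∃ θ : ℂ,
      FvM (fun j => ω j) (fun p => (a p : ℂ)) θ = 0 ∧
      ‖denM (fun j => ω j) gd (fun p => (a p : ℂ)) θ‖ ≤ (X : ℝ) ^ (1 - η)} : ℝ) := by
  classical
  have hw : 0 < ‖algebraMap κ ℂ (ω (gd l₀).2)‖ := norm_pos_iff.2 (by
    rw [Ne, map_eq_zero]
    exact ω.ne_zero _)
  set w : ℝ := ‖algebraMap κ ℂ (ω (gd l₀).2)‖ with hwdef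
  have hn : 1 ≤ Fintype.card (Px m dg ed J ν) := Fintype.card_pos_iff.2 ⟨Sum.inr (Sum.inr l₀)⟩
  refine PS.of (θ := η) (C := 3 ^ (Fintype.card (Px m dg ed J ν) - 1) * dg * (4 / w + 1)) hη
    fun X hX => ?_
  have hX1 : (1 : ℝ) ≤ X := by exact_mod_cast hX
  have hX0 : (0 : ℝ) < X := by linarith
  have hx1 : 1 ≤ (X : ℝ) ^ (1 - η) := Real.one_le_rpow hX1 (by linarith)
  set N : ℕ := ⌊(4 / w + 1) * (X : ℝ) ^ (1 - η)⌋₊ with hN
  have hNle : (N : ℝ) ≤ (4 / w + 1) * (X : ℝ) ^ (((1 : ℕ) : ℝ) - η) := by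
    rw [Nat.cast_one]
    exact Nat.floor_le (by positivity)
  refine pts_le hn hX dg hNle ?_
  have h1 := count_ptsE ω (m := m) (dg := dg) (ed := ed) (m' := 1)
    (fun _ => (Sum.inr (Sum.inr l₀) : Px m dg ed J ν)) (fun a b _ => Subsingleton.elim a b)
    (fun i l h => by cases h) X N
    (fun a θ => ‖denM (fun j => ω j) gd (fun p => (a p : ℂ)) θ‖ ≤ (X : ℝ) ^ (1 - η))
    (fun a₀ θ ha₀ _ _ => by
      set S : Set (Fin 1 → ℤ) := {u : Fin 1 → ℤ | (∀ i, |u i| ≤ X) ∧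
        (∀ p, |shE (fun _ => (Sum.inr (Sum.inr l₀) : Px m dg ed J ν)) a₀ u p| ≤ X) ∧
        ‖denM (fun j => ω j) gd (fun p =>
          ((shE (fun _ => (Sum.inr (Sum.inr l₀) : Px m dg ed J ν)) a₀ u p : ℤ) : ℂ)) θ‖ ≤
          (X : ℝ) ^ (1 - η)} with hS
      rcases S.eq_empty_or_nonempty with hSe | ⟨u₁, hu₁⟩
      · rw [hSe, Set.ncard_empty]
        exact Nat.zero_le _
      have hden : ∀ u : Fin 1 → ℤ, denM (fun j => ω j) gd (fun p =>
          ((shE (fun _ => (Sum.inr (Sum.inr l₀) : Px m dg ed J ν)) a₀ u p : ℤ) : ℂ)) θ =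
          denM (fun j => ω j) gd (fun p => (a₀ p : ℂ)) θ +
            (u 0 : ℂ) * algebraMap κ ℂ (ω (gd l₀).2) := by
        intro u
        unfold denM shE
        have h2 : ∀ l : ν, (((a₀ (Sum.inr (Sum.inr l)) + ∑ i : Fin 1,
            if (Sum.inr (Sum.inr l) : Px m dg ed J ν) = Sum.inr (Sum.inr l₀) then u i else 0 : ℤ) :
              ℂ)) * algebraMap κ ℂ (ω (gd l).2) * θ ^ (gd l).1 =
            (a₀ (Sum.inr (Sum.inr l)) : ℂ) * algebraMap κ ℂ (ω (gd l).2) * θ ^ (gd l).1 +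
            if l = l₀ then (u 0 : ℂ) * algebraMap κ ℂ (ω (gd l₀).2) else 0 := by
          intro l
          rw [Fin.sum_univ_one]
          by_cases hl : l = l₀
          · subst hl
            rw [if_pos rfl, if_pos rfl, hl₀]
            push_cast
            ring
          · rw [if_neg (fun h => hl (Sum.inr.inj (Sum.inr.inj h))), if_neg hl, add_zero, add_zero]
        rw [Finset.sum_congr rfl fun l _ => h2 l, Finset.sum_add_distrib,
          Finset.sum_ite_eq' Finset.univ l₀, if_pos (Finset.mem_univ _)]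
      set Y : ℝ := 2 * (X : ℝ) ^ (1 - η) / w with hY
      have hY0 : 0 ≤ Y := by positivity
      set M : ℕ := ⌊Y⌋₊ with hM
      have hMle : (M : ℝ) ≤ Y := Nat.floor_le hY0
      have hclose : ∀ u ∈ S, |u 0 - u₁ 0| ≤ M := by
        intro u hu
        have h3 := hu.2.2
        have h4 := hu₁.2.2
        rw [hden] at h3 h4
        have h5 : ((u 0 - u₁ 0 : ℤ) : ℂ) * algebraMap κ ℂ (ω (gd l₀).2) =
            (denM (fun j => ω j) gd (fun p => (a₀ p : ℂ)) θ +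
              (u 0 : ℂ) * algebraMap κ ℂ (ω (gd l₀).2)) -
            (denM (fun j => ω j) gd (fun p => (a₀ p : ℂ)) θ +
              (u₁ 0 : ℂ) * algebraMap κ ℂ (ω (gd l₀).2)) := by
          push_cast
          ring
        have h6 : |((u 0 - u₁ 0 : ℤ) : ℝ)| * w ≤ 2 * (X : ℝ) ^ (1 - η) := by
          rw [← Complex.norm_intCast, hwdef, ← norm_mul, h5]
          refine (norm_sub_le _ _).trans ?_
          linarith
        have h7 : |((u 0 - u₁ 0 : ℤ) : ℝ)| ≤ Y := by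
          rw [hY, le_div_iff₀ hw]
          exact h6
        have h8 : ((|u 0 - u₁ 0|.toNat : ℕ) : ℝ) ≤ Y := by
          have h9 : ((|u 0 - u₁ 0|.toNat : ℕ) : ℤ) = |u 0 - u₁ 0| :=
            Int.toNat_of_nonneg (abs_nonneg _)
          have h10 : ((|u 0 - u₁ 0|.toNat : ℕ) : ℝ) = ((|u 0 - u₁ 0| : ℤ) : ℝ) := by
            exact_mod_cast congrArg (fun z : ℤ => (z : ℝ)) h9
          rw [h10, Int.cast_abs]
          exact h7
        have h11 := Nat.le_floor h8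
        have h12 : ((|u 0 - u₁ 0|.toNat : ℕ) : ℤ) = |u 0 - u₁ 0| :=
          Int.toNat_of_nonneg (abs_nonneg _)
        rw [← h12]
        exact_mod_cast h11
      have hinj : Set.InjOn (fun u : Fin 1 → ℤ => u 0) S := by
        intro u _ v _ huv
        funext i
        rw [Subsingleton.elim i 0]
        exact huv
      have hsub : (fun u : Fin 1 → ℤ => u 0) '' S ⊆
          (Finset.Icc (u₁ 0 - M) (u₁ 0 + M) : Finset ℤ) := by
        rintro _ ⟨u, hu, rfl⟩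
        have h3 := abs_le.1 (hclose u hu)
        rw [Finset.mem_coe, Finset.mem_Icc]
        constructor <;> linarith [h3.1, h3.2]
      have h3 := Set.ncard_le_ncard hsub (Finset.finite_toSet _)
      rw [Set.ncard_image_of_injOn hinj, Set.ncard_coe_finset, Int.card_Icc] at h3
      have h4 : (u₁ 0 + M + 1 - (u₁ 0 - M)).toNat = 2 * M + 1 := by omega
      rw [h4] at h3
      refine h3.trans (Nat.le_floor ?_)
      push_cast
      have h5 : 2 * Y = 4 / w * (X : ℝ) ^ (1 - η) := by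
        rw [hY]
        ring
      calc (2 * (M : ℝ) + 1) ≤ 2 * Y + 1 * (X : ℝ) ^ (1 - η) := by linarith
        _ = _ := by
            rw [h5]
            ring)
  exact_mod_cast h1

theorem ps_sub (hm : 1 ≤ m) (j₀ : J) (l₀ : ν) {T : MvPolynomial (Fin m) κ} (hT : T ≠ 0) {η : ℝ}
    (hη : 0 < η) : ∃ η₁ : ℝ, 0 < η₁ ∧ η₁ < 1 ∧
    PS (Fintype.card (Px m dg ed J ν)) fun X => (Set.ncard {a : Px m dg ed J ν → ℤ |
      (∀ p, |a p| ≤ X) ∧ (∃ l, a (Sum.inl l) ≠ 0) ∧ ∃ θ : ℂ,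
      FvM (fun j => ω j) (fun p => (a p : ℂ)) θ = 0 ∧
      (denM (fun j => ω j) gd (fun p => (a p : ℂ)) θ ≠ 0 ∧ ‖θ‖ ≤ (X : ℝ) ^ η₁ ∧
      ‖MvPolynomial.aeval (ptM (fun j => ω j) gd (fun p => (a p : ℂ)) θ) T‖ ≤ (X : ℝ) ^ (-η))} :
        ℝ) := by
  classical
  have hw : 0 < ‖algebraMap κ ℂ (ω j₀)‖ := norm_pos_iff.2 (by
    rw [Ne, map_eq_zero]
    exact ω.ne_zero j₀)
  set w : ℝ := ‖algebraMap κ ℂ (ω j₀)‖ with hwdef
  have hTC : MvPolynomial.map (algebraMap κ ℂ) T ≠ 0 := fun h0 => hT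
    (MvPolynomial.map_injective _ (algebraMap κ ℂ).injective (by rw [h0, map_zero]))
  set W : ℝ := ∑ l : ν, ‖algebraMap κ ℂ (ω (gd l).2)‖ + 1 with hW
  have hW0 : 0 ≤ ∑ l : ν, ‖algebraMap κ ℂ (ω (gd l).2)‖ :=
    Finset.sum_nonneg fun _ _ => norm_nonneg _
  have hW1 : 0 < W := by linarith
  set G : ℕ := ∑ l : ν, (gd l).1 with hG
  have hGl : ∀ l, (gd l).1 ≤ G := fun l =>
    Finset.single_le_sum (f := fun l => (gd l).1) (fun _ _ => Nat.zero_le _) (Finset.mem_univ l)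
  obtain ⟨θ', C, hθ0, hθ1, hC0, hC⟩ := sublevel hTC (η := η / 4) (by positivity)
    (c := w / W) (by positivity)
  set η₁ : ℝ := θ' / (2 * ((m : ℝ) + 1) * ((G : ℝ) + 1)) with hη₁
  have hη₁0 : 0 < η₁ := by positivity
  set β : ℝ := η₁ * G with hβ
  have hβ0 : 0 ≤ β := by positivity
  have hm0 : (1 : ℝ) ≤ m := by exact_mod_cast hm
  have hG0 : (0 : ℝ) ≤ G := Nat.cast_nonneg _
  have hη₁G : η₁ * ((G : ℝ) + 1) = θ' / (2 * ((m : ℝ) + 1)) := by
    rw [hη₁]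
    field_simp
  have hθm : θ' / (2 * ((m : ℝ) + 1)) * ((m : ℝ) + 1) = θ' / 2 := by field_simp
  have hη₁1 : η₁ < 1 := by
    have h1 : η₁ * 1 ≤ η₁ * ((G : ℝ) + 1) := mul_le_mul_of_nonneg_left (by linarith) hη₁0.le
    have h2 : θ' / (2 * ((m : ℝ) + 1)) * 1 ≤ θ' / (2 * ((m : ℝ) + 1)) * ((m : ℝ) + 1) :=
      mul_le_mul_of_nonneg_left (by linarith) (by positivity)
    linarith
  have hβm : β * m ≤ θ' / 2 := by
    have h1 : β ≤ θ' / (2 * ((m : ℝ) + 1)) := by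
      rw [← hη₁G, hβ]
      exact mul_le_mul_of_nonneg_left (by linarith) hη₁0.le
    calc β * m ≤ θ' / (2 * ((m : ℝ) + 1)) * ((m : ℝ) + 1) :=
          mul_le_mul h1 (by linarith) (by positivity) (by positivity)
      _ = _ := hθm
  have hβ1 : β ≤ 1 := by nlinarith
  refine ⟨η₁, hη₁0, hη₁1, ?_⟩
  have hmn : m ≤ Fintype.card (Px m dg ed J ν) := le_trans (Nat.le_succ m) (card_Px j₀ l₀)
  refine PS.of (θ := θ' / 2) (C := 3 ^ (Fintype.card (Px m dg ed J ν) - m) * dg * (C * 2 ^ m))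
    (by positivity) fun X hX => ?_
  have hX1 : (1 : ℝ) ≤ X := by exact_mod_cast hX
  have hX0 : (0 : ℝ) < X := by linarith
  set N : ℕ := ⌊(C * 2 ^ m) * (X : ℝ) ^ ((m : ℝ) - θ' / 2)⌋₊ with hN
  refine pts_le hmn hX dg (N := N) (Nat.floor_le (by positivity)) ?_
  -- the auxiliary size
  set X' : ℕ := ⌈(X : ℝ) ^ (1 + β)⌉₊ with hX'
  have hXβ1 : 1 ≤ (X : ℝ) ^ (1 + β) := Real.one_le_rpow hX1 (by linarith)
  have hX'1 : (X : ℝ) ^ (1 + β) ≤ X' := Nat.le_ceil _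
  have hX'2 : (X' : ℝ) ≤ 2 * (X : ℝ) ^ (1 + β) := by
    have := (Nat.ceil_lt_add_one (by positivity : 0 ≤ (X : ℝ) ^ (1 + β))).le
    linarith
  have hX'0 : 1 ≤ X' := by
    have : (1 : ℝ) ≤ X' := hXβ1.trans hX'1
    exact_mod_cast this
  have hX'r : (1 : ℝ) ≤ X' := by exact_mod_cast hX'0
  have hXX' : (X : ℝ) ≤ X' := by
    refine le_trans ?_ hX'1
    calc (X : ℝ) = (X : ℝ) ^ (1 : ℝ) := (Real.rpow_one _).symm
      _ ≤ _ := Real.rpow_le_rpow_of_exponent_le hX1 (by linarith)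
  have hpow : (X : ℝ) ^ (-η) ≤ (X' : ℝ) ^ (-(η / 4)) := by
    rcases Nat.eq_or_lt_of_le hX with h1 | h1
    · have hXe : (X : ℝ) = 1 := by exact_mod_cast h1.symm
      have hX'e : X' = 1 := by
        rw [hX', hXe, Real.one_rpow, Nat.ceil_one]
      rw [hX'e, hXe, Nat.cast_one, Real.one_rpow, Real.one_rpow]
    · have h2 : (2 : ℝ) ≤ X := by exact_mod_cast h1
      have h3 : (X' : ℝ) ≤ (X : ℝ) ^ (3 : ℝ) := by
        calc (X' : ℝ) ≤ 2 * (X : ℝ) ^ (1 + β) := hX'2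
          _ ≤ X * (X : ℝ) ^ (2 : ℝ) :=
              mul_le_mul h2 (Real.rpow_le_rpow_of_exponent_le hX1 (by linarith)) (by positivity)
                hX0.le
          _ = (X : ℝ) ^ (3 : ℝ) := by
              nth_rewrite 1 [← Real.rpow_one (X : ℝ)]
              rw [← Real.rpow_add hX0]
              norm_num
      rw [Real.rpow_neg hX0.le, Real.rpow_neg (by positivity)]
      refine inv_anti₀ (by positivity) ?_
      calc (X' : ℝ) ^ (η / 4) ≤ ((X : ℝ) ^ (3 : ℝ)) ^ (η / 4) :=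
            Real.rpow_le_rpow (by positivity) h3 (by positivity)
        _ = (X : ℝ) ^ (3 * (η / 4)) := by rw [← Real.rpow_mul hX0.le]
        _ ≤ (X : ℝ) ^ η := Real.rpow_le_rpow_of_exponent_le hX1 (by linarith)
  have hcount : C * (X' : ℝ) ^ ((m : ℝ) - θ') ≤ (C * 2 ^ m) * (X : ℝ) ^ ((m : ℝ) - θ' / 2) := by
    have hmθ : 0 ≤ (m : ℝ) - θ' := by linarith
    have h1 : (X' : ℝ) ^ ((m : ℝ) - θ') ≤ (2 * (X : ℝ) ^ (1 + β)) ^ ((m : ℝ) - θ') :=
      Real.rpow_le_rpow (by positivity) hX'2 hmθ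
    have h2 : (2 * (X : ℝ) ^ (1 + β)) ^ ((m : ℝ) - θ') =
        (2 : ℝ) ^ ((m : ℝ) - θ') * (X : ℝ) ^ ((1 + β) * ((m : ℝ) - θ')) := by
      rw [Real.mul_rpow (by norm_num) (by positivity), ← Real.rpow_mul hX0.le]
    have h3 : (2 : ℝ) ^ ((m : ℝ) - θ') ≤ 2 ^ m := by
      rw [← Real.rpow_natCast]
      exact Real.rpow_le_rpow_of_exponent_le (by norm_num) (by linarith)
    have h4 : (X : ℝ) ^ ((1 + β) * ((m : ℝ) - θ')) ≤ (X : ℝ) ^ ((m : ℝ) - θ' / 2) := by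
      refine Real.rpow_le_rpow_of_exponent_le hX1 ?_
      nlinarith
    calc C * (X' : ℝ) ^ ((m : ℝ) - θ') ≤
          C * ((2 : ℝ) ^ ((m : ℝ) - θ') * (X : ℝ) ^ ((1 + β) * ((m : ℝ) - θ'))) :=
          mul_le_mul_of_nonneg_left (h2 ▸ h1) hC0
      _ ≤ C * (2 ^ m * (X : ℝ) ^ ((m : ℝ) - θ' / 2)) :=
          mul_le_mul_of_nonneg_left (mul_le_mul h3 h4 (by positivity) (by positivity)) hC0
      _ = _ := by ring
  have h1 := count_pts ω (m := m) (dg := dg) (ed := ed) j₀ X N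
    (fun a θ => denM (fun j => ω j) gd (fun p => (a p : ℂ)) θ ≠ 0 ∧ ‖θ‖ ≤ (X : ℝ) ^ η₁ ∧
      ‖MvPolynomial.aeval (ptM (fun j => ω j) gd (fun p => (a p : ℂ)) θ) T‖ ≤ (X : ℝ) ^ (-η))
    (fun a₀ θ ha₀ _ _ => by
      have hsh : ∀ u : Fin m → ℤ, (fun p => ((shM j₀ a₀ u p : ℤ) : ℂ)) =
          shM j₀ (fun p => (a₀ p : ℂ)) (ip u) := fun u => (shM_cast j₀ a₀ u).symm
      by_cases hq : denM (fun j => ω j) gd (fun p => (a₀ p : ℂ)) θ ≠ 0 ∧ ‖θ‖ ≤ (X : ℝ) ^ η₁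
      swap
      · have h2 : {u : Fin m → ℤ | (∀ i, |u i| ≤ X) ∧ (∀ p, |shM j₀ a₀ u p| ≤ X) ∧
            (denM (fun j => ω j) gd (fun p => ((shM j₀ a₀ u p : ℤ) : ℂ)) θ ≠ 0 ∧
            ‖θ‖ ≤ (X : ℝ) ^ η₁ ∧
            ‖MvPolynomial.aeval (ptM (fun j => ω j) gd (fun p => ((shM j₀ a₀ u p : ℤ) : ℂ)) θ) T‖ ≤
              (X : ℝ) ^ (-η))} = ∅ := by
          rw [Set.eq_empty_iff_forall_notMem]
          rintro u ⟨-, -, h3, h4, -⟩
          rw [hsh, denM_shM] at h3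
          exact hq ⟨h3, h4⟩
        rw [h2, Set.ncard_empty]
        exact Nat.zero_le _
      · obtain ⟨hq0, hθX⟩ := hq
        refine Nat.le_floor ?_
        set l : ℂ := algebraMap κ ℂ (ω j₀) / denM (fun j => ω j) gd (fun p => (a₀ p : ℂ)) θ with hl
        have hden0 : 0 < ‖denM (fun j => ω j) gd (fun p => (a₀ p : ℂ)) θ‖ := norm_pos_iff.2 hq0
        have hdenX : ‖denM (fun j => ω j) gd (fun p => (a₀ p : ℂ)) θ‖ ≤ W * X' := by
          have h2 := denM_bound (fun j => ω j) (gd := gd) (y := fun p => (a₀ p : ℂ)) hX0.le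
            (Real.one_le_rpow hX1 hη₁0.le) (fun p => by
              rw [Complex.norm_intCast]
              exact_mod_cast ha₀ p) hGl hθX
          refine h2.trans ?_
          have h3 : (X : ℝ) * ((X : ℝ) ^ η₁) ^ G = (X : ℝ) ^ (1 + β) := by
            rw [← Real.rpow_natCast, ← Real.rpow_mul hX0.le]
            nth_rewrite 1 [← Real.rpow_one (X : ℝ)]
            rw [← Real.rpow_add hX0]
          calc (X : ℝ) * (∑ l : ν, ‖algebraMap κ ℂ (ω (gd l).2)‖) * ((X : ℝ) ^ η₁) ^ G =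
                (∑ l : ν, ‖algebraMap κ ℂ (ω (gd l).2)‖) * (X : ℝ) ^ (1 + β) := by
                rw [← h3]
                ring
            _ ≤ W * X' := mul_le_mul (by linarith) hX'1 (by positivity) hW1.le
        have hlX : w / W ≤ ‖l‖ * X' := by
          rw [hl, norm_div, div_mul_eq_mul_div, div_le_div_iff₀ hW1 hden0, ← hwdef, mul_assoc]
          refine mul_le_mul_of_nonneg_left ?_ hw.le
          rw [mul_comm]
          linarith
        refine le_trans ?_ hcount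
        refine le_trans ?_ (hC X' hX'0 (ptM (fun j => ω j) gd (fun p => (a₀ p : ℂ)) θ) l hlX)
        have hfin : {u : Fin m → ℤ | (∀ j, |u j| ≤ X') ∧ ‖MvPolynomial.eval (fun j =>
            ptM (fun j => ω j) gd (fun p => (a₀ p : ℂ)) θ j + l * (u j : ℂ))
            (MvPolynomial.map (algebraMap κ ℂ) T)‖ ≤ (X' : ℝ) ^ (-(η / 4))}.Finite :=
          (box_card X' _ fun a ha => ha.1).1
        have h2 := Set.ncard_le_ncard (s := {u : Fin m → ℤ | (∀ i, |u i| ≤ X) ∧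
            (∀ p, |shM j₀ a₀ u p| ≤ X) ∧
            (denM (fun j => ω j) gd (fun p => ((shM j₀ a₀ u p : ℤ) : ℂ)) θ ≠ 0 ∧
            ‖θ‖ ≤ (X : ℝ) ^ η₁ ∧
            ‖MvPolynomial.aeval (ptM (fun j => ω j) gd (fun p => ((shM j₀ a₀ u p : ℤ) : ℂ)) θ) T‖ ≤
              (X : ℝ) ^ (-η))}) (by
            rintro u ⟨hu1, -, -, -, hu2⟩
            refine ⟨fun j => (hu1 j).trans (by exact_mod_cast hXX'), ?_⟩
            rw [hsh, ptM_shM] at hu2
            rw [MvPolynomial.eval_map]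
            exact hu2.trans hpow) hfin
        exact_mod_cast h2)
  exact_mod_cast h1

end

end Pool.Agent.Helper79.DD
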