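import Pool.Agent.Helper79.DD.CountMain

/-!
# DD: the parameters with explicit dependence on the exponent (helper79)
-/

open Polynomial

namespace Pool.Agent.Helper79.DD

open Pool.Agent.Helper79.AA Pool.Agent.Helper79.GX Pool.Agent.Helper64.Per

/-- The parameters. -/
theorem paramsX (N dg : ℕ) {c₀ w W : ℝ} (hc₀ : 0 < c₀) (hw : 0 < w) (hW : 0 ≤ W) :
    ∃ η A : ℝ, 0 < η ∧ η < 1 ∧ 1 ≤ A ∧ ∀ E X : ℕ, 1 ≤ X →
      A ≤ (X : ℝ) ^ (1 / (2 * (E : ℝ) + 4)) → ∃ (K : ℕ) (R : ℝ),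
      2 ≤ X ∧ 2 ≤ K ∧ K ≤ X ∧ (K : ℝ) ^ E ≤ (X : ℝ) ^ (1 / 2 : ℝ) ∧ (K : ℝ) < R ∧
      (X : ℝ) ^ (1 / 2 : ℝ) ≤ R * K ∧
      (X : ℝ) / K ≤ 2 * (X : ℝ) ^ (1 - 1 / (2 * (E : ℝ) + 4)) ∧
      w / (X : ℝ) ^ (1 - η) * (2 * R) * (1 + X * W * ((X : ℝ) ^ η) ^ dg / (X : ℝ) ^ (1 - η)) ^ N ≤
        c₀ * ((X : ℝ) ^ (-η)) ^ N := by
  set η : ℝ := 1 / (4 * ((N : ℝ) * (dg + 2) + 1)) with hη
  have hden : (1 : ℝ) ≤ (N : ℝ) * (dg + 2) + 1 := by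
    have : (0 : ℝ) ≤ (N : ℝ) * (dg + 2) := by positivity
    linarith
  have hη0 : 0 < η := by positivity
  have hη1 : η ≤ 1 / 4 := by
    rw [hη]
    exact div_le_div_of_nonneg_left zero_le_one (by norm_num) (by linarith)
  have hηe : η * ((N : ℝ) * (dg + 2) + 1) = 1 / 4 := by
    rw [hη]
    field_simp
  set c₁ : ℝ := c₀ / (2 * w * (1 + W) ^ N) with hc₁
  have hc₁0 : 0 < c₁ := by positivity
  refine ⟨η, max 2 (2 / c₁), hη0, by linarith, le_trans one_le_two (le_max_left _ _),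
    fun E X hX1 hA => ?_⟩
  set ε : ℝ := 1 / (2 * (E : ℝ) + 4) with hε
  have hE0 : (0 : ℝ) ≤ E := Nat.cast_nonneg _
  have hε0 : 0 < ε := by positivity
  have hε4 : ε ≤ 1 / 4 := by
    rw [hε]
    exact div_le_div_of_nonneg_left zero_le_one (by norm_num) (by linarith)
  have hx1 : (1 : ℝ) ≤ X := by exact_mod_cast hX1
  have hx0 : (0 : ℝ) < X := by linarith
  have hmono : ∀ p q : ℝ, p ≤ q → (X : ℝ) ^ p ≤ (X : ℝ) ^ q := fun p q h =>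
    Real.rpow_le_rpow_of_exponent_le hx1 h
  have hxε : 2 ≤ (X : ℝ) ^ ε := (le_max_left _ _).trans hA
  have hX2 : 2 ≤ X := by
    have h1 : (2 : ℝ) ≤ (X : ℝ) ^ (1 : ℝ) := hxε.trans (hmono _ _ (by linarith))
    rw [Real.rpow_one] at h1
    exact_mod_cast h1
  set K : ℕ := ⌊(X : ℝ) ^ ε⌋₊ with hK
  have hK1 : (K : ℝ) ≤ (X : ℝ) ^ ε := Nat.floor_le (by positivity)
  have hK2 : 2 ≤ K := Nat.le_floor (by exact_mod_cast hxε)
  have hK3 : (X : ℝ) ^ ε / 2 ≤ K := by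
    have := Nat.lt_floor_add_one ((X : ℝ) ^ ε)
    rw [← hK] at this
    linarith
  have hk0 : (0 : ℝ) < K := by exact_mod_cast (by omega : 0 < K)
  have hk1 : (1 : ℝ) ≤ K := by exact_mod_cast (by omega : 1 ≤ K)
  have hKX : K ≤ X := by
    have : (K : ℝ) ≤ X := by
      refine hK1.trans ?_
      calc (X : ℝ) ^ ε ≤ (X : ℝ) ^ (1 : ℝ) := hmono _ _ (by linarith)
        _ = X := Real.rpow_one _
    exact_mod_cast this
  have hKE : (K : ℝ) ^ E ≤ (X : ℝ) ^ (1 / 2 : ℝ) := by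
    calc (K : ℝ) ^ E ≤ ((X : ℝ) ^ ε) ^ E := pow_le_pow_left₀ hk0.le hK1 E
      _ = (X : ℝ) ^ (ε * E) := by rw [Real.rpow_mul hx0.le, Real.rpow_natCast]
      _ ≤ (X : ℝ) ^ (1 / 2 : ℝ) := by
          refine hmono _ _ ?_
          rw [hε, div_mul_eq_mul_div, one_mul, div_le_iff₀ (by positivity)]
          linarith
  have hKhalf : (K : ℝ) ≤ (X : ℝ) ^ (1 / 2 : ℝ) := hK1.trans (hmono _ _ (by linarith))
  set R : ℝ := c₁ * (X : ℝ) ^ (3 / 4 : ℝ) with hR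
  have h14 : 2 / c₁ ≤ (X : ℝ) ^ (1 / 4 : ℝ) :=
    ((le_max_right _ _).trans hA).trans (hmono _ _ hε4)
  have hR2 : 2 * (X : ℝ) ^ (1 / 2 : ℝ) ≤ R := by
    have h1 : (X : ℝ) ^ (3 / 4 : ℝ) = (X : ℝ) ^ (1 / 4 : ℝ) * (X : ℝ) ^ (1 / 2 : ℝ) := by
      rw [← Real.rpow_add hx0]
      norm_num
    rw [hR, h1, ← mul_assoc]
    refine mul_le_mul_of_nonneg_right ?_ (by positivity)
    calc (2 : ℝ) = c₁ * (2 / c₁) := by field_simp
      _ ≤ c₁ * (X : ℝ) ^ (1 / 4 : ℝ) := mul_le_mul_of_nonneg_left h14 hc₁0.le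
  have hh1 : 1 ≤ (X : ℝ) ^ (1 / 2 : ℝ) := Real.one_le_rpow hx1 (by norm_num)
  have hR0 : 0 < R := by linarith
  refine ⟨K, R, hX2, hK2, hKX, hKE, by linarith, ?_, ?_, ?_⟩
  · calc (X : ℝ) ^ (1 / 2 : ℝ) ≤ R := by linarith
      _ = R * 1 := (mul_one R).symm
      _ ≤ R * K := mul_le_mul_of_nonneg_left hk1 hR0.le
  · rw [div_le_iff₀ hk0]
    have e1 : (X : ℝ) ^ (1 - ε) * (X : ℝ) ^ ε = X := by
      rw [← Real.rpow_add hx0]
      have : (1 - ε + ε) = 1 := by ring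
      rw [this, Real.rpow_one]
    have hx1ε : 0 < (X : ℝ) ^ (1 - ε) := by positivity
    calc (X : ℝ) = 2 * (X : ℝ) ^ (1 - ε) * ((X : ℝ) ^ ε / 2) := by linear_combination -e1
      _ ≤ _ := mul_le_mul_of_nonneg_left hK3 (by positivity)
  · have e1 : (X : ℝ) * W * ((X : ℝ) ^ η) ^ dg / (X : ℝ) ^ (1 - η) =
        W * (X : ℝ) ^ (((dg : ℝ) + 1) * η) := by
      have h1 : ((X : ℝ) ^ η) ^ dg = (X : ℝ) ^ (η * dg) := by
        rw [← Real.rpow_natCast, ← Real.rpow_mul hx0.le]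
      rw [h1, div_eq_iff (by positivity)]
      have h2 : (X : ℝ) ^ (((dg : ℝ) + 1) * η) * (X : ℝ) ^ (1 - η) = X * (X : ℝ) ^ (η * dg) := by
        rw [← Real.rpow_add hx0]
        nth_rewrite 2 [← Real.rpow_one (X : ℝ)]
        rw [← Real.rpow_add hx0]
        congr 1
        ring
      rw [mul_assoc W, h2]
      ring
    have hy1 : 1 ≤ (X : ℝ) ^ (((dg : ℝ) + 1) * η) := Real.one_le_rpow hx1 (by positivity)
    have h2 : (1 + W * (X : ℝ) ^ (((dg : ℝ) + 1) * η)) ^ N ≤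
        (1 + W) ^ N * ((X : ℝ) ^ (((dg : ℝ) + 1) * η)) ^ N := by
      rw [← mul_pow]
      refine pow_le_pow_left₀ (by positivity) ?_ _
      generalize (X : ℝ) ^ (((dg : ℝ) + 1) * η) = y at hy1
      rw [add_mul, one_mul]
      linarith
    have e2 : w / (X : ℝ) ^ (1 - η) * (2 * R) *
        ((1 + W) ^ N * ((X : ℝ) ^ (((dg : ℝ) + 1) * η)) ^ N) = c₀ * ((X : ℝ) ^ (-η)) ^ N := by
      have h3 : ((X : ℝ) ^ (((dg : ℝ) + 1) * η)) ^ N = (X : ℝ) ^ (((dg : ℝ) + 1) * η * N) := by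
        rw [← Real.rpow_natCast, ← Real.rpow_mul hx0.le]
      have h4 : ((X : ℝ) ^ (-η)) ^ N = (X : ℝ) ^ (-η * N) := by
        rw [← Real.rpow_natCast, ← Real.rpow_mul hx0.le]
      have h5 : (X : ℝ) ^ (3 / 4 : ℝ) * (X : ℝ) ^ (((dg : ℝ) + 1) * η * N) =
          (X : ℝ) ^ (-η * N) * (X : ℝ) ^ (1 - η) := by
        rw [← Real.rpow_add hx0, ← Real.rpow_add hx0]
        congr 1
        linear_combination hηe
      rw [h3, h4, hR, hc₁]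
      have hy : 0 < (X : ℝ) ^ (1 - η) := by positivity
      have hW1 : 0 < (1 + W) ^ N := by positivity
      calc w / (X : ℝ) ^ (1 - η) * (2 * (c₀ / (2 * w * (1 + W) ^ N) * (X : ℝ) ^ (3 / 4 : ℝ))) *
            ((1 + W) ^ N * (X : ℝ) ^ (((dg : ℝ) + 1) * η * N)) =
          c₀ * ((X : ℝ) ^ (3 / 4 : ℝ) * (X : ℝ) ^ (((dg : ℝ) + 1) * η * N)) /
            (X : ℝ) ^ (1 - η) := by
            field_simp
        _ = _ := by
            rw [h5]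
            field_simp
    rw [e1]
    calc _ ≤ w / (X : ℝ) ^ (1 - η) * (2 * R) *
        ((1 + W) ^ N * ((X : ℝ) ^ (((dg : ℝ) + 1) * η)) ^ N) :=
          mul_le_mul_of_nonneg_left h2 (by positivity)
      _ = _ := e2

end Pool.Agent.Helper79.DD
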