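import Pool.Agent.Helper79.DD.BoxX

/-!
# DD: the size of the constants of the core theorem (helper79)
-/

namespace Pool.Agent.Helper79.DD

/-- Bounded by a power of `δ + 2`. -/
def PB (f : ℕ → ℕ) : Prop := ∃ a : ℕ, ∀ δ, f δ ≤ (δ + 2) ^ a

/-- Bounded by two to a power of `δ + 2`. -/
def EB (f : ℕ → ℕ) : Prop := ∃ a : ℕ, ∀ δ, f δ ≤ 2 ^ (δ + 2) ^ a

theorem PB.const (c : ℕ) : PB fun _ => c := by
  refine ⟨c, fun δ => ?_⟩
  exact (Nat.lt_pow_self (by omega : 1 < δ + 2)).le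

theorem PB.base : PB fun δ => δ + 2 := ⟨1, fun δ => by rw [pow_one]⟩

theorem PB.mul {f g : ℕ → ℕ} (hf : PB f) (hg : PB g) : PB fun δ => f δ * g δ := by
  obtain ⟨a, ha⟩ := hf
  obtain ⟨b, hb⟩ := hg
  exact ⟨a + b, fun δ => by rw [pow_add]; exact Nat.mul_le_mul (ha δ) (hb δ)⟩

theorem PB.add {f g : ℕ → ℕ} (hf : PB f) (hg : PB g) : PB fun δ => f δ + g δ := by
  obtain ⟨a, ha⟩ := hf
  obtain ⟨b, hb⟩ := hg
  refine ⟨a + b + 1, fun δ => ?_⟩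
  have h1 : (δ + 2) ^ a ≤ (δ + 2) ^ (a + b) := Nat.pow_le_pow_right (by omega) (by omega)
  have h2 : (δ + 2) ^ b ≤ (δ + 2) ^ (a + b) := Nat.pow_le_pow_right (by omega) (by omega)
  have h3 : (δ + 2) ^ (a + b) * 2 ≤ (δ + 2) ^ (a + b) * (δ + 2) := Nat.mul_le_mul le_rfl (by omega)
  have h4 := ha δ
  have h5 := hb δ
  rw [pow_succ]
  change f δ + g δ ≤ _
  linarith

theorem PB.pow {f : ℕ → ℕ} (hf : PB f) (k : ℕ) : PB fun δ => f δ ^ k := by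
  obtain ⟨a, ha⟩ := hf
  exact ⟨a * k, fun δ => by rw [pow_mul]; exact Nat.pow_le_pow_left (ha δ) k⟩

theorem PB.mono {f g : ℕ → ℕ} (hg : PB g) (h : ∀ δ, f δ ≤ g δ) : PB f := by
  obtain ⟨a, ha⟩ := hg
  exact ⟨a, fun δ => (h δ).trans (ha δ)⟩

theorem PB.eb {f : ℕ → ℕ} (hf : PB f) : EB f := by
  obtain ⟨a, ha⟩ := hf
  exact ⟨a, fun δ => (ha δ).trans (Nat.lt_pow_self (by omega : 1 < 2)).le⟩

theorem EB.mono {f g : ℕ → ℕ} (hg : EB g) (h : ∀ δ, f δ ≤ g δ) : EB f := by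
  obtain ⟨a, ha⟩ := hg
  exact ⟨a, fun δ => (h δ).trans (ha δ)⟩

theorem EB.of {f g : ℕ → ℕ} (hg : PB g) (h : ∀ δ, f δ ≤ 2 ^ g δ) : EB f := by
  obtain ⟨a, ha⟩ := hg
  exact ⟨a, fun δ => (h δ).trans (Nat.pow_le_pow_right (by omega) (ha δ))⟩

theorem EB.mul {f g : ℕ → ℕ} (hf : EB f) (hg : EB g) : EB fun δ => f δ * g δ := by
  obtain ⟨a, ha⟩ := hf
  obtain ⟨b, hb⟩ := hg
  refine EB.of (PB.add ⟨a, fun δ => le_rfl⟩ ⟨b, fun δ => le_rfl⟩) fun δ => ?_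
  rw [pow_add]
  exact Nat.mul_le_mul (ha δ) (hb δ)

theorem EB.add {f g : ℕ → ℕ} (hf : EB f) (hg : EB g) : EB fun δ => f δ + g δ := by
  obtain ⟨a, ha⟩ := hf
  obtain ⟨b, hb⟩ := hg
  refine EB.of (PB.add (PB.add ⟨a, fun δ => le_rfl⟩ ⟨b, fun δ => le_rfl⟩) (PB.const 1))
    fun δ => ?_
  have h1 : 2 ^ (δ + 2) ^ a ≤ 2 ^ ((δ + 2) ^ a + (δ + 2) ^ b) :=
    Nat.pow_le_pow_right (by omega) (by omega)
  have h2 : 2 ^ (δ + 2) ^ b ≤ 2 ^ ((δ + 2) ^ a + (δ + 2) ^ b) :=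
    Nat.pow_le_pow_right (by omega) (by omega)
  have h4 := ha δ
  have h5 := hb δ
  rw [pow_succ]
  change f δ + g δ ≤ _
  linarith

theorem EB.pow {f : ℕ → ℕ} (hf : EB f) (k : ℕ) : EB fun δ => f δ ^ k := by
  obtain ⟨a, ha⟩ := hf
  refine EB.of (PB.mul ⟨a, fun δ => le_rfl⟩ (PB.const k)) fun δ => ?_
  rw [pow_mul]
  exact Nat.pow_le_pow_left (ha δ) k

theorem cB_le (c n : ℕ) : cB c n + 1 ≤ ((4 * n + 7) * (3 + 6 * c * n ^ 2)) ^ n := by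
  induction n with
  | zero => simp [cB]
  | succ n ih =>
    have h1 : cB c (n + 1) + 1 ≤
        (cB c n + 1) * ((4 * (n + 1) + 7) * (3 + 6 * c * (n + 1) ^ 2)) := by
      rw [cB, stepB]
      generalize cB c n = B
      generalize 6 * c * (n + 1) ^ 2 = q
      generalize n + 1 = N
      have e1 : (B + 1) * ((4 * N + 7) * (3 + q)) =
          B + (2 * N + 1) * (2 * (B + 1 + (q + 1))) + 1 +
          (B * ((4 * N + 7) * (2 + q)) + 4 * B + 4 * N + 5 * q + 16) := by ring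
      rw [e1]
      exact Nat.le_add_right _ _
    have h3 : (4 * n + 7) * (3 + 6 * c * n ^ 2) ≤
        (4 * (n + 1) + 7) * (3 + 6 * c * (n + 1) ^ 2) := by
      refine Nat.mul_le_mul (by omega) ?_
      exact Nat.add_le_add_left (Nat.mul_le_mul (le_refl (6 * c))
        (Nat.pow_le_pow_left (by omega) 2)) 3
    rw [pow_succ]
    exact h1.trans (Nat.mul_le_mul (ih.trans (Nat.pow_le_pow_left h3 n)) le_rfl)

theorem cE_le (n : ℕ) : cE n ≤ n * (16 * n ^ 3 + 8 * n ^ 2 + 8 * n + 16) := by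
  induction n with
  | zero => simp [cE]
  | succ n ih =>
    rw [cE, stepE]
    have h3 : n * (16 * n ^ 3 + 8 * n ^ 2 + 8 * n + 16) ≤
        n * (16 * (n + 1) ^ 3 + 8 * (n + 1) ^ 2 + 8 * (n + 1) + 16) := by
      have h2 : n ^ 2 ≤ (n + 1) ^ 2 := Nat.pow_le_pow_left (by omega) 2
      have h3 : n ^ 3 ≤ (n + 1) ^ 3 := Nat.pow_le_pow_left (by omega) 3
      exact Nat.mul_le_mul le_rfl (by linarith)
    have h4 := ih.trans h3
    have e1 : (n + 1) * (16 * (n + 1) ^ 3 + 8 * (n + 1) ^ 2 + 8 * (n + 1) + 16) =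
      n * (16 * (n + 1) ^ 3 + 8 * (n + 1) ^ 2 + 8 * (n + 1) + 16) +
        2 * (8 * (n + 1) ^ 3 + 4 * (n + 1) ^ 2 + 4 * (n + 1) + 6) + 4 := by ring
    rw [e1]
    linarith

theorem cB_EB {c n : ℕ → ℕ} (hc : PB c) (hn : PB n) : EB fun δ => cB (c δ) (n δ) := by
  refine EB.of (((((PB.const 4).mul hn).add (PB.const 7)).mul
    ((PB.const 3).add (((PB.const 6).mul hc).mul (hn.pow 2)))).mul hn) fun δ => ?_
  rw [pow_mul]
  refine (Nat.le_succ _).trans ((cB_le _ _).trans (Nat.pow_le_pow_left ?_ _))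
  exact (Nat.lt_pow_self (by omega : 1 < 2)).le

theorem bB_EB (m d : ℕ) {c n : ℕ → ℕ} (hc : PB c) (hn : PB n) :
    EB fun δ => bB m (n δ) d (c δ) := by
  have h1 := cB_EB hc hn
  have h2 : EB fun δ => m * (cB (c δ) (n δ) + d) := (PB.const m).eb.mul (h1.add (PB.const d).eb)
  have h3 : EB fun δ => 2 * (n δ + 1) * m * (m * d + 2) :=
    ((((PB.const 2).mul (hn.add (PB.const 1))).mul (PB.const m)).mul (PB.const (m * d + 2))).eb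
  have h4 : EB fun δ => gK m (m * (cB (c δ) (n δ) + d)) (2 * (n δ + 1) * m * (m * d + 2)) :=
    h3.add ((h2.mul (h3.pow m)).mul (PB.const (2 ^ (m - 1))).eb)
  have h5 : EB fun δ => cB (c δ) (n δ) + d + 1 := (h1.add (PB.const d).eb).add (PB.const 1).eb
  refine EB.mono (((((PB.const 2).eb.mul (h4.add h5)).add (PB.const 1).eb).add h2).mul
    (PB.const (3 ^ (m - 1))).eb) fun δ => ?_
  rw [bB]
  refine Nat.mul_le_mul (Nat.add_le_add_right (Nat.add_le_add_right (Nat.mul_le_mul le_rfl ?_) _)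
    _) le_rfl
  exact max_le (Nat.le_add_right _ _) (Nat.le_add_left _ _)

theorem bE_PB {n : ℕ → ℕ} (hn : PB n) : PB fun δ => bE (n δ) := by
  have h1 : PB fun δ => cE (n δ) := (hn.mul (((((PB.const 16).mul (hn.pow 3)).add
    ((PB.const 8).mul (hn.pow 2))).add ((PB.const 8).mul hn)).add (PB.const 16))).mono
      fun δ => cE_le _
  exact (h1.add (PB.const 3)).add (PB.const 3)

/-- From the constants of the core theorem to a power of `δ + 2`. -/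
theorem num_final {m N₁ s c₁ δ₀ : ℕ} {θ₀ C n : ℝ} (hθ₀ : 0 < θ₀) (hC : 0 ≤ C) :
    ∃ a : ℕ, ∀ δ X : ℕ, 1 ≤ X →
      C * (X : ℝ) ^ (n - θ₀) + C * (bB m (N₁ * (δ + 2) ^ s) δ₀ (c₁ * (δ + 2)) + 1) *
          (X : ℝ) ^ (n - 1 / (2 * (bE (N₁ * (δ + 2) ^ s) : ℝ) + 4)) ≤
        Real.exp (((δ : ℝ) + 2) ^ a) * (X : ℝ) ^ (n - 1 / ((δ : ℝ) + 2) ^ a) := by
  have hn : PB fun δ => N₁ * (δ + 2) ^ s := (PB.const N₁).mul (PB.base.pow s)
  have hc : PB fun δ => c₁ * (δ + 2) := (PB.const c₁).mul PB.base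
  obtain ⟨a₁, h1⟩ := (bB_EB m δ₀ hc hn)
  obtain ⟨a₂, h2⟩ := ((PB.const 2).mul (bE_PB hn)).add (PB.const 4)
  obtain ⟨a₃, h3⟩ := exists_nat_ge (1 / θ₀)
  obtain ⟨a₄, h4⟩ := exists_nat_ge (C + C)
  refine ⟨a₁ + a₂ + a₃ + a₄ + 1, fun δ X hX => ?_⟩
  set a : ℕ := a₁ + a₂ + a₃ + a₄ + 1 with ha
  have hX1 : (1 : ℝ) ≤ X := by exact_mod_cast hX
  have hL2 : (2 : ℝ) ≤ (δ : ℝ) + 2 := by
    have := Nat.cast_nonneg (α := ℝ) δ
    linarith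
  have hL1 : (1 : ℝ) ≤ (δ : ℝ) + 2 := by linarith
  have hLa : (0 : ℝ) < ((δ : ℝ) + 2) ^ a := by positivity
  -- the first exponent
  have g1 : 1 / ((δ : ℝ) + 2) ^ a ≤ θ₀ := by
    rw [div_le_iff₀ hLa]
    have e1 : (1 : ℝ) / θ₀ ≤ ((δ : ℝ) + 2) ^ a := by
      refine h3.trans ?_
      have e2 : (a₃ : ℝ) ≤ (2 : ℝ) ^ a₃ := by
        exact_mod_cast (Nat.lt_pow_self (by omega : 1 < 2) (n := a₃)).le
      exact e2.trans ((pow_le_pow_left₀ (by norm_num) hL2 _).trans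
        (pow_le_pow_right₀ hL1 (by omega)))
    rw [div_le_iff₀ hθ₀] at e1
    linarith
  -- the second exponent
  have g2 : 1 / ((δ : ℝ) + 2) ^ a ≤ 1 / (2 * (bE (N₁ * (δ + 2) ^ s) : ℝ) + 4) := by
    refine one_div_le_one_div_of_le (by positivity) ?_
    have e1 : (2 * (bE (N₁ * (δ + 2) ^ s) : ℝ) + 4) ≤ ((δ : ℝ) + 2) ^ a₂ := by
      exact_mod_cast h2 δ
    exact e1.trans (pow_le_pow_right₀ hL1 (by omega))
  -- the constant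
  have g3 : C + C * ((bB m (N₁ * (δ + 2) ^ s) δ₀ (c₁ * (δ + 2)) : ℝ) + 1) ≤
      Real.exp (((δ : ℝ) + 2) ^ a) := by
    have e1 : (bB m (N₁ * (δ + 2) ^ s) δ₀ (c₁ * (δ + 2)) : ℝ) ≤ (2 : ℝ) ^ ((δ + 2) ^ a₁) := by
      exact_mod_cast h1 δ
    have e2 : (1 : ℝ) ≤ (2 : ℝ) ^ ((δ + 2) ^ a₁) := one_le_pow₀ (by norm_num)
    have e3 : (a₄ : ℝ) ≤ (2 : ℝ) ^ a₄ := by
      exact_mod_cast (Nat.lt_pow_self (by omega : 1 < 2) (n := a₄)).le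
    have e4 : C + C * ((bB m (N₁ * (δ + 2) ^ s) δ₀ (c₁ * (δ + 2)) : ℝ) + 1) ≤
        (C + C) * ((2 : ℝ) ^ ((δ + 2) ^ a₁) * 2) := by
      nlinarith
    have e5 : (C + C) * ((2 : ℝ) ^ ((δ + 2) ^ a₁) * 2) ≤
        (2 : ℝ) ^ a₄ * ((2 : ℝ) ^ ((δ + 2) ^ a₁) * 2) :=
      mul_le_mul_of_nonneg_right (h4.trans e3) (by positivity)
    have e6 : (2 : ℝ) ^ a₄ * ((2 : ℝ) ^ ((δ + 2) ^ a₁) * 2) = (2 : ℝ) ^ (a₄ + (δ + 2) ^ a₁ + 1) := by
      rw [pow_succ, pow_add]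
      ring
    have e7 : a₄ + (δ + 2) ^ a₁ + 1 ≤ (δ + 2) ^ a := by
      have f1 : (δ + 2) ^ (a₁ + (a₄ + 1)) ≤ (δ + 2) ^ a := Nat.pow_le_pow_right (by omega) (by omega)
      have f2 : (δ + 2) ^ a₁ * (a₄ + 2) ≤ (δ + 2) ^ (a₁ + (a₄ + 1)) := by
        rw [pow_add]
        refine Nat.mul_le_mul le_rfl ?_
        have f3 : a₄ + 1 < 2 ^ (a₄ + 1) := Nat.lt_pow_self (by omega)
        have f4 : 2 ^ (a₄ + 1) ≤ (δ + 2) ^ (a₄ + 1) := Nat.pow_le_pow_left (by omega) _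
        omega
      have f5 : 1 ≤ (δ + 2) ^ a₁ := Nat.one_le_pow _ _ (by omega)
      nlinarith
    have e8 : (2 : ℝ) ^ (a₄ + (δ + 2) ^ a₁ + 1) ≤ (2 : ℝ) ^ ((δ + 2) ^ a) :=
      pow_le_pow_right₀ (by norm_num) e7
    have e9 : (2 : ℝ) ^ ((δ + 2) ^ a) ≤ Real.exp (((δ : ℝ) + 2) ^ a) := by
      have f1 : (2 : ℝ) ≤ Real.exp 1 := by
        have := Real.add_one_le_exp (1 : ℝ)
        linarith
      have f2 : Real.exp (((δ : ℝ) + 2) ^ a) = Real.exp 1 ^ ((δ + 2) ^ a) := by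
        rw [← Real.exp_nat_mul, mul_one]
        congr 1
        push_cast
        rfl
      rw [f2]
      exact pow_le_pow_left₀ (by norm_num) f1 _
    linarith
  have hXn : ∀ x y : ℝ, y ≤ x → (X : ℝ) ^ (n - x) ≤ (X : ℝ) ^ (n - y) := fun x y hxy =>
    Real.rpow_le_rpow_of_exponent_le hX1 (by linarith)
  have k1 := mul_le_mul_of_nonneg_left (hXn _ _ g1) hC
  have k2 := mul_le_mul_of_nonneg_left (hXn _ _ g2)
    (by positivity : 0 ≤ C * ((bB m (N₁ * (δ + 2) ^ s) δ₀ (c₁ * (δ + 2)) : ℝ) + 1))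
  have k3 := mul_le_mul_of_nonneg_right g3
    (Real.rpow_nonneg (by positivity : (0 : ℝ) ≤ X) (n - 1 / ((δ : ℝ) + 2) ^ a))
  calc _ ≤ (C + C * ((bB m (N₁ * (δ + 2) ^ s) δ₀ (c₁ * (δ + 2)) : ℝ) + 1)) *
        (X : ℝ) ^ (n - 1 / ((δ : ℝ) + 2) ^ a) := by
        rw [add_mul]
        exact add_le_add k1 k2
    _ ≤ _ := k3

end Pool.Agent.Helper79.DD
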