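import Pool.Agent.Helper79.DD.MainU
import Pool.Agent.Helper79.DD.Num

/-!
# DD: the theorem on the points of bounded degree, uniform in the degree of the relations (helper79)
-/

namespace Pool.Agent.Helper79.DD

open Pool.Agent.Helper79.GX Pool.Agent.Helper64.Per Pool.Agent.Helper79.GA Pool.Agent.Helper79.CU
  Pool.Agent.Helper79.AA Pool.Agent.Helper79.BB

/-- The relations of degree a small power of `log X`. -/
theorem log_form {f : ℕ → ℕ → ℝ} {a : ℕ} {n : ℝ} (h : ∀ δ X : ℕ, 1 ≤ X →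
    f δ X ≤ Real.exp (((δ : ℝ) + 2) ^ a) * (X : ℝ) ^ (n - 1 / ((δ : ℝ) + 2) ^ a)) :
    ∃ c : ℝ, 0 < c ∧ ∃ X₀ : ℕ, ∀ X δ : ℕ, X₀ ≤ X → (δ : ℝ) ≤ Real.log X ^ c →
      f δ X ≤ (X : ℝ) ^ n * Real.exp (-√(Real.log X)) := by
  set c : ℝ := 1 / (8 * ((a : ℝ) + 1)) with hc
  have hc0 : 0 < c := by positivity
  refine ⟨c, hc0, ?_⟩
  -- `log X ≥ 16` and `(log X)^c ≥ 2`
  have hlog : Filter.Tendsto (fun X : ℕ => Real.log (X : ℝ)) Filter.atTop Filter.atTop :=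
    Real.tendsto_log_atTop.comp tendsto_natCast_atTop_atTop
  have h1 := (hlog.eventually_ge_atTop 16)
  have h2 := ((tendsto_rpow_atTop hc0).comp hlog).eventually_ge_atTop 2
  obtain ⟨X₀, hX₀⟩ := Filter.eventually_atTop.1 ((h1.and h2).and (Filter.eventually_ge_atTop 1))
  refine ⟨X₀, fun X δ hX hδ => ?_⟩
  obtain ⟨⟨h16, hz2⟩, hX1⟩ := hX₀ X hX
  change 2 ≤ Real.log X ^ c at hz2
  have hXp : (0 : ℝ) < X := by
    have : (1 : ℝ) ≤ X := by exact_mod_cast hX1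
    linarith
  set L : ℝ := Real.log X with hL
  have hL0 : 0 ≤ L := by linarith
  have hL1 : 1 ≤ L := by linarith
  set y : ℝ := L ^ (1 / 4 : ℝ) with hy
  have hy4 : y ^ 4 = L := by
    rw [hy, ← Real.rpow_natCast, ← Real.rpow_mul hL0]
    norm_num
  have hy0 : 0 ≤ y := Real.rpow_nonneg hL0 _
  have hy2 : 2 ≤ y := by
    by_contra hlt
    push Not at hlt
    have : y ^ 4 < 2 ^ 4 := pow_lt_pow_left₀ hlt hy0 (by norm_num)
    rw [hy4] at this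
    linarith
  have hsq : √L = y ^ 2 := by
    rw [Real.sqrt_eq_iff_mul_self_eq hL0 (by positivity)]
    rw [← hy4]
    ring
  -- the bound of `δ + 2`
  have hδ2 : ((δ : ℝ) + 2) ^ a ≤ y := by
    have e1 : (δ : ℝ) + 2 ≤ L ^ c * L ^ c := by nlinarith
    have hd0 : (0 : ℝ) ≤ (δ : ℝ) + 2 := by positivity
    have e2 : ((δ : ℝ) + 2) ^ a ≤ (L ^ c * L ^ c) ^ a := pow_le_pow_left₀ hd0 e1 a
    refine e2.trans ?_
    rw [← Real.rpow_add (by linarith), ← Real.rpow_natCast, ← Real.rpow_mul hL0, hy]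
    refine Real.rpow_le_rpow_of_exponent_le hL1 ?_
    rw [hc]
    have ha0 : (0 : ℝ) ≤ a := Nat.cast_nonneg a
    have e3 : (1 / (8 * ((a : ℝ) + 1)) + 1 / (8 * ((a : ℝ) + 1))) * (a : ℝ) =
        a / (4 * ((a : ℝ) + 1)) := by
      field_simp
      ring
    rw [e3, div_le_iff₀ (by positivity)]
    linarith
  have hd1 : (0 : ℝ) < ((δ : ℝ) + 2) ^ a := by positivity
  refine (h δ X hX1).trans ?_
  have e1 : (X : ℝ) ^ (n - 1 / ((δ : ℝ) + 2) ^ a) =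
      (X : ℝ) ^ n * Real.exp (-(L / ((δ : ℝ) + 2) ^ a)) := by
    rw [sub_eq_add_neg, Real.rpow_add hXp]
    congr 1
    rw [Real.rpow_def_of_pos hXp]
    congr 1
    ring
  rw [e1, mul_left_comm, ← Real.exp_add]
  refine mul_le_mul_of_nonneg_left (Real.exp_le_exp.2 ?_) (by positivity)
  have e2 : y ^ 3 ≤ L / ((δ : ℝ) + 2) ^ a := by
    rw [le_div_iff₀ hd1]
    calc y ^ 3 * ((δ : ℝ) + 2) ^ a ≤ y ^ 3 * y := mul_le_mul_of_nonneg_left hδ2 (by positivity)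
      _ = L := by rw [← hy4]; ring
  rw [hsq]
  nlinarith [mul_nonneg hy0 (mul_nonneg (by linarith : (0:ℝ) ≤ y - 2) (by linarith : (0:ℝ) ≤ y + 1))]

section

variable {κ : IntermediateField ℚ Qbar} {m : ℕ} {F : FamiliesM κ m} {μ r : ℕ} {ι : Type}
  [Fintype ι] [DecidableEq ι] (E : F.Sub μ r ι) {U : Set (Fin m → ℂ)} (hU : IsOpen U)
  {w : (Fin m → ℂ) → ℂ} (hw : IsBranchM κ U μ w) {P : (Fin m → ℂ) → Matrix ι ι ℂ}
  (hP : E.IsPeriod U w P)

variable [FiniteDimensional ℚ κ] [Nonempty ι] (hm : 1 ≤ m) (hU' : IsPreconnected U)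
  (hdet : ∀ t ∈ U, IsUnit (P t).det) {V : Set (Fin m → ℂ)} (hV : Deep F.T U V) {J : Type}
  [Fintype J] (ω : Module.Basis J ℚ κ) {N : Finset (ℕ × J)} (hN : ∃ j, (0, j) ∈ N)

include hU hw hP hm hU' hdet hV hN

/-- The theorem on the points of bounded degree, uniform in the degree of the relations. -/
theorem mainU {D : ℕ} (hD : 1 ≤ D) (e : ℕ) :
    ∃ a : ℕ, ∀ δ X : ℕ, 1 ≤ X → ((RelPointU ω N U V w P δ D e X).ncard : ℝ) ≤
      Real.exp (((δ : ℝ) + 2) ^ a) *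
        (X : ℝ) ^ ((((D + 1 + m * (e + 1)) * Module.finrank ℚ κ + N.card : ℕ) : ℝ) -
          1 / ((δ : ℝ) + 2) ^ a) := by
  obtain ⟨θ₀, C, N₁, s, c₁, δ₀, hθ₀, hC, h⟩ := mainU₀ E hU hw hP hm hU' hdet hV ω hN hD e
  have hc : Fintype.card (Px m D e J N) =
      (D + 1 + m * (e + 1)) * Module.finrank ℚ κ + N.card := by
    rw [Module.finrank_eq_card_basis ω]
    simp only [Px, Fintype.card_sum, Fintype.card_prod, Fintype.card_fin, Fintype.card_coe]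
    ring
  rw [← hc]
  obtain ⟨a, ha⟩ := num_final (m := m) (N₁ := N₁) (s := s) (c₁ := c₁) (δ₀ := δ₀)
    (n := (Fintype.card (Px m D e J N) : ℝ)) hθ₀ hC
  exact ⟨a, fun δ X hX => (h δ X hX).trans (ha δ X hX)⟩

end

end Pool.Agent.Helper79.DD
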