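import Pool.Agent.Helper79.DD.Tens
import Pool.Agent.Helper79.AA.Defs

/-!
# DD: the growth of the iterates of tensor powers and of quotients (helper79)
-/

open Polynomial

namespace Pool.Agent.Helper79.DD

open Pool.Agent.Helper79.CU Pool.Agent.Helper79.GX Pool.Agent.Helper79.AA

theorem gm_zero {ι : Type} [Fintype ι] [DecidableEq ι] (T : ℚ[X]) (u : ℚ) (n : ℕ) (x y : ι) :
    gm T (0 : Matrix ι ι ℚ[X]) n u x y = if n = 0 ∧ x = y then 1 else 0 := by
  have h0 : ∀ n, betaF T (0 : Matrix ι ι ℚ[X]) n = if n = 0 then 1 else 0 := by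
    intro n
    induction n with
    | zero => rfl
    | succ n ih =>
      rw [if_neg (Nat.succ_ne_zero n), betaF, ih, mul_zero, add_zero]
      by_cases hn : n = 0
      · subst hn
        have h1 : (1 : Matrix ι ι ℚ[X]).map derivative = 0 := by
          ext1 i j
          rw [Matrix.map_apply, Matrix.one_apply]
          split_ifs
          · simp
          · simp
        rw [if_pos rfl, h1]
        simp
      · rw [if_neg hn]
        have h1 : (0 : Matrix ι ι ℚ[X]).map derivative = 0 := by
          ext1 i j
          simp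
        rw [h1]
        simp
  rw [gm, Matrix.of_apply, h0]
  by_cases hn : n = 0
  · subst hn
    simp only [if_true, true_and, pow_zero, div_one, Matrix.one_apply]
    split_ifs
    · simp
    · simp
  · simp [hn]

/-- Growth of the iterates of the tensor powers. -/
theorem gr_tens {Γ β : Type} [Fintype Γ] [DecidableEq Γ] [Fintype β] [DecidableEq β] {T : ℚ[X]}
    {A : Matrix (Γ × β) (Γ × β) ℚ[X]}
    {Ar : ∀ r : ℕ, Matrix (Γ × (Fin r → β)) (Γ × (Fin r → β)) ℚ[X]} {u : ℚ} {Q : ℝ}
    (hQ : 1 ≤ Q) (h : Gr T A u Q) (h0 : Ar 0 = 0)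
    (h1 : ∀ (r n : ℕ) (γ γ' : Γ) (I J : Fin (r + 1) → β), gm T (Ar (r + 1)) n u (γ, I) (γ', J) =
      ∑ p ∈ Finset.HasAntidiagonal.antidiagonal n, ∑ γ'', gm T A p.1 u (γ, I 0) (γ'', J 0) *
        gm T (Ar r) p.2 u (γ'', Fin.tail I) (γ', Fin.tail J)) (r : ℕ) :
    Gr T (Ar r) u ((2 * Q) ^ (r + 1)) := by
  induction r with
  | zero =>
    refine ⟨1, fun N => ⟨1, one_pos, ?_, fun j _ x y => ?_⟩⟩
    · rw [Nat.cast_one, one_mul]
      exact one_le_pow₀ (one_le_pow₀ (by linarith))
    · rw [h0, gm_zero]
      split_ifs
      · refine ⟨⟨1, by simp⟩, ?_⟩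
        rw [one_mul, Rat.cast_one, abs_one]
        exact one_le_pow₀ (one_le_pow₀ (by linarith))
      · refine ⟨⟨0, by simp⟩, ?_⟩
        rw [Rat.cast_zero, abs_zero]
        positivity
  | succ r ih =>
    obtain ⟨C, hC⟩ := h
    obtain ⟨C', hC'⟩ := ih
    have hC0 : 0 ≤ C := by
      obtain ⟨q, hq0, hq, -⟩ := hC 0
      rw [pow_zero, mul_one] at hq
      exact le_trans (Nat.cast_nonneg _) hq
    have hC'0 : 0 ≤ C' := by
      obtain ⟨q, hq0, hq, -⟩ := hC' 0
      rw [pow_zero, mul_one] at hq
      exact le_trans (Nat.cast_nonneg _) hq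
    set P : ℝ := (2 * Q) ^ (r + 1) with hP
    have hP1 : 1 ≤ P := one_le_pow₀ (by linarith)
    have hQP : Q ≤ P := by
      calc Q ≤ (2 * Q) ^ 1 := by rw [pow_one]; linarith
        _ ≤ P := pow_le_pow_right₀ (by linarith) (by omega)
    have hPQ : (2 * Q) ^ (r + 1 + 1) = P * (2 * Q) := by rw [pow_succ]
    refine ⟨(C + Fintype.card Γ * C) * (C' + C'), fun N => ?_⟩
    obtain ⟨q, hq0, hq, hj⟩ := hC N
    obtain ⟨q', hq'0, hq', hj'⟩ := hC' N
    refine ⟨q * q', Nat.mul_pos hq0 hq'0, ?_, fun j hjN x y => ?_⟩
    · rw [hPQ]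
      push_cast
      calc (q : ℝ) * q' ≤ (C * Q ^ N) * (C' * P ^ N) :=
            mul_le_mul hq hq' (Nat.cast_nonneg _) (by positivity)
        _ = (C * C') * (P * Q) ^ N := by
            rw [mul_pow]
            ring
        _ ≤ (C * C') * (P * (2 * Q)) ^ N := by
            refine mul_le_mul_of_nonneg_left (pow_le_pow_left₀ (by positivity) ?_ _)
              (by positivity)
            exact mul_le_mul_of_nonneg_left (by linarith) (by linarith)
        _ ≤ (C + Fintype.card Γ * C) * (C' + C') * (P * (2 * Q)) ^ N := by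
            refine mul_le_mul_of_nonneg_right ?_ (by positivity)
            have h3 : 0 ≤ (Fintype.card Γ : ℝ) * C := by positivity
            nlinarith [mul_nonneg hC0 hC'0, mul_nonneg h3 hC'0]
    · obtain ⟨γ, I⟩ := x
      obtain ⟨γ', J⟩ := y
      rw [h1]
      refine ⟨?_, ?_⟩
      · have h3 : ∀ p ∈ Finset.HasAntidiagonal.antidiagonal j, ∀ γ'', ∃ n : ℤ,
            ((q * q' : ℕ) : ℚ) * (gm T A p.1 u (γ, I 0) (γ'', J 0) *
              gm T (Ar r) p.2 u (γ'', Fin.tail I) (γ', Fin.tail J)) = n := by
          intro p hp γ''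
          have hp' : p.1 + p.2 = j := Finset.HasAntidiagonal.mem_antidiagonal.1 hp
          obtain ⟨n, hn⟩ := (hj p.1 (by omega) (γ, I 0) (γ'', J 0)).1
          obtain ⟨n', hn'⟩ := (hj' p.2 (by omega) (γ'', Fin.tail I) (γ', Fin.tail J)).1
          refine ⟨n * n', ?_⟩
          push_cast
          rw [← hn, ← hn']
          ring
        choose! n hn using h3
        refine ⟨∑ p ∈ Finset.HasAntidiagonal.antidiagonal j, ∑ γ'', n p γ'', ?_⟩
        rw [Finset.mul_sum]
        push_cast
        refine Finset.sum_congr rfl fun p hp => ?_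
        rw [Finset.mul_sum]
        refine Finset.sum_congr rfl fun γ'' _ => ?_
        rw [← hn p hp γ'']
        push_cast
        ring
      · push_cast
        have h4 : ∀ p ∈ Finset.HasAntidiagonal.antidiagonal j,
            |∑ γ'', ((gm T A p.1 u (γ, I 0) (γ'', J 0) : ℚ) : ℝ) *
              ((gm T (Ar r) p.2 u (γ'', Fin.tail I) (γ', Fin.tail J) : ℚ) : ℝ)| ≤
            Fintype.card Γ * (C * C' * P ^ j) := by
          intro p hp
          have hp' : p.1 + p.2 = j := Finset.HasAntidiagonal.mem_antidiagonal.1 hp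
          refine (Finset.abs_sum_le_sum_abs _ _).trans ?_
          refine (Finset.sum_le_card_nsmul _ _ (C * C' * P ^ j) fun γ'' _ => ?_).trans ?_
          · rw [abs_mul]
            have g1 := (hj p.1 (by omega) (γ, I 0) (γ'', J 0)).2
            have g2 := (hj' p.2 (by omega) (γ'', Fin.tail I) (γ', Fin.tail J)).2
            calc _ ≤ (C * Q ^ p.1) * (C' * P ^ p.2) :=
                  mul_le_mul g1 g2 (abs_nonneg _) (by positivity)
              _ ≤ (C * P ^ p.1) * (C' * P ^ p.2) := by
                  refine mul_le_mul_of_nonneg_right ?_ (by positivity)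
                  exact mul_le_mul_of_nonneg_left (pow_le_pow_left₀ (by linarith) hQP _) hC0
              _ = C * C' * P ^ j := by
                  rw [← hp', pow_add]
                  ring
          · rw [nsmul_eq_mul, Finset.card_univ]
        refine (Finset.abs_sum_le_sum_abs _ _).trans ?_
        refine (Finset.sum_le_card_nsmul _ _ _ h4).trans ?_
        rw [Finset.Nat.card_antidiagonal, nsmul_eq_mul, hPQ]
        have h5 : ((j + 1 : ℕ) : ℝ) ≤ 2 ^ j * 2 := by
          have : j + 1 ≤ 2 ^ j * 2 := by
            have := Nat.lt_two_pow_self (n := j)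
            omega
          exact_mod_cast this
        have hPj : 0 ≤ P ^ j := by positivity
        have hg : (0 : ℝ) ≤ Fintype.card Γ := Nat.cast_nonneg _
        calc ((j + 1 : ℕ) : ℝ) * (Fintype.card Γ * (C * C' * P ^ j)) ≤
              (2 ^ j * 2) * (Fintype.card Γ * (C * C' * P ^ j)) :=
              mul_le_mul_of_nonneg_right h5 (by positivity)
          _ = (Fintype.card Γ * C) * (C' + C') * (P * 2) ^ j := by
              rw [mul_pow]
              ring
          _ ≤ (Fintype.card Γ * C) * (C' + C') * (P * (2 * Q)) ^ j := by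
              refine mul_le_mul_of_nonneg_left (pow_le_pow_left₀ (by positivity) ?_ _)
                (by positivity)
              exact mul_le_mul_of_nonneg_left (by linarith) (by linarith)
          _ ≤ (C + Fintype.card Γ * C) * (C' + C') * (P * (2 * Q)) ^ j := by
              refine mul_le_mul_of_nonneg_right ?_ (by positivity)
              refine mul_le_mul_of_nonneg_right (by linarith) (by linarith)

/-! ### Quotients -/

section Quo

variable {R : Type} [CommRing R] {W W' : Type} [Fintype W] [DecidableEq W']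

/-- The matrix on the classes. -/
def qM (π : W → W') (σ : W' → W) (B : Matrix W W R) : Matrix W' W' R :=
  fun s s' => ∑ J, if π J = s' then B (σ s) J else 0

/-- The sums over the classes depend only on the class of the row. -/
def QInv (π : W → W') (B : Matrix W W R) : Prop :=
  ∀ I I' s', π I = π I' →
    (∑ J, if π J = s' then B I J else 0) = ∑ J, if π J = s' then B I' J else 0

theorem qM_map {S : Type} [CommRing S] (φ : R →+* S) (π : W → W') (σ : W' → W)
    (B : Matrix W W R) : (qM π σ B).map φ = qM π σ (B.map φ) := by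
  ext1 s s'
  rw [Matrix.map_apply]
  unfold qM
  rw [map_sum]
  refine Finset.sum_congr rfl fun J _ => ?_
  split_ifs
  · rfl
  · exact map_zero φ

theorem QInv.map {S : Type} [CommRing S] (φ : R →+* S) {π : W → W'} {B : Matrix W W R}
    (h : QInv π B) : QInv π (B.map φ) := by
  intro I I' s' hI
  have h1 := congrArg φ (h I I' s' hI)
  rw [map_sum, map_sum] at h1
  have h2 : ∀ I J, φ (if π J = s' then B I J else 0) = if π J = s' then (B.map φ) I J else 0 := by
    intro I J
    split_ifs
    · rfl
    · exact map_zero φ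
  rw [Finset.sum_congr rfl fun J _ => h2 I J, Finset.sum_congr rfl fun J _ => h2 I' J] at h1
  exact h1

end Quo

/-- The iterates of the quotient. -/
theorem beta_q {W W' : Type} [Fintype W] [DecidableEq W] [Fintype W'] [DecidableEq W']
    {π : W → W'} {σ : W' → W} (hσ : ∀ s, π (σ s) = s) (T : ℚ[X]) {A : Matrix W W ℚ[X]}
    (hA : QInv π A) (n : ℕ) : QInv π (betaF T A n) ∧ betaF T (qM π σ A) n = qM π σ (betaF T A n) := by
  -- row sums
  have hrow : ∀ (B : Matrix W W ℚ[X]), (∀ I s', (∑ J, if π J = s' then B I J else 0) =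
      qM π σ B (π I) s') ↔ QInv π B := by
    intro B
    constructor
    · intro h I I' s' hI
      rw [h, h, hI]
    · intro h I s'
      exact h _ _ _ (hσ _).symm
  induction n with
  | zero =>
    have h1 : QInv π (betaF T A 0) := by
      intro I I' s' hI
      simp only [betaF, Matrix.one_apply]
      have h2 : ∀ I : W, (∑ J, if π J = s' then (if I = J then (1 : ℚ[X]) else 0) else 0) =
          if π I = s' then 1 else 0 := by
        intro I
        rw [Finset.sum_eq_single I]
        · simp
        · intro J _ hJ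
          simp only [if_neg (fun h : I = J => hJ h.symm), ite_self]
        · intro h
          exact absurd (Finset.mem_univ _) h
      rw [h2, h2, hI]
    refine ⟨h1, ?_⟩
    ext1 s s'
    unfold qM
    simp only [betaF, Matrix.one_apply]
    rw [Finset.sum_eq_single (σ s)]
    · rw [hσ, if_pos rfl]
    · intro J _ hJ
      simp only [if_neg (fun h : σ s = J => hJ h.symm), ite_self]
    · intro h
      exact absurd (Finset.mem_univ _) h
  | succ n ih =>
    obtain ⟨ih1, ih2⟩ := ih
    have hA' := (hrow A).2 hA
    have hB' := (hrow _).2 ih1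
    -- the row sums of the next iterate
    have key : ∀ I s', (∑ J, if π J = s' then betaF T A (n + 1) I J else 0) =
        betaF T (qM π σ A) (n + 1) (π I) s' := by
      intro I s'
      have e1 : ∀ J, (if π J = s' then betaF T A (n + 1) I J else 0) =
          C (((n : ℚ) + 1)⁻¹) * (T * derivative (if π J = s' then betaF T A n I J else 0) -
            ((n : ℚ[X]) * derivative T) * (if π J = s' then betaF T A n I J else 0) +
            ∑ K, betaF T A n I K * (if π J = s' then A K J else 0)) := by
        intro J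
        by_cases hJ : π J = s'
        · simp only [if_pos hJ]
          rw [betaF, Matrix.smul_apply, Matrix.add_apply, Matrix.sub_apply, Matrix.smul_apply,
            Matrix.smul_apply, Matrix.map_apply, Matrix.mul_apply]
          simp only [smul_eq_mul]
        · simp only [if_neg hJ]
          simp
      rw [Finset.sum_congr rfl fun J _ => e1 J, ← Finset.mul_sum, Finset.sum_add_distrib,
        Finset.sum_sub_distrib, ← Finset.mul_sum, ← Finset.mul_sum, ← map_sum, hB',
        Finset.sum_comm]
      have e2 : ∑ K, ∑ J, betaF T A n I K * (if π J = s' then A K J else 0) =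
          ∑ t, qM π σ (betaF T A n) (π I) t * qM π σ A t s' := by
        have e3 : ∀ K, ∑ J, betaF T A n I K * (if π J = s' then A K J else 0) =
            betaF T A n I K * qM π σ A (π K) s' := by
          intro K
          rw [← Finset.mul_sum, hA']
        rw [Finset.sum_congr rfl fun K _ => e3 K]
        have e4 : ∀ t, qM π σ (betaF T A n) (π I) t * qM π σ A t s' =
            ∑ K, if π K = t then betaF T A n I K * qM π σ A t s' else 0 := by
          intro t
          rw [← hB', Finset.sum_mul]
          refine Finset.sum_congr rfl fun K _ => ?_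
          rw [ite_mul, zero_mul]
        rw [Finset.sum_congr rfl fun t _ => e4 t, Finset.sum_comm]
        refine Finset.sum_congr rfl fun K _ => ?_
        rw [Finset.sum_ite_eq Finset.univ (π K)]
        simp
      rw [e2, betaF, Matrix.smul_apply, Matrix.add_apply, Matrix.sub_apply, Matrix.smul_apply,
        Matrix.smul_apply, Matrix.map_apply, Matrix.mul_apply, ih2]
      simp only [smul_eq_mul]
    have h1 : QInv π (betaF T A (n + 1)) := by
      intro I I' s' hI
      rw [key, key, hI]
    refine ⟨h1, ?_⟩
    ext1 s s'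
    rw [← (hσ s), ← key]
    unfold qM
    rw [hσ]

/-- Growth of the iterates of the quotient. -/
theorem gr_q {W W' : Type} [Fintype W] [DecidableEq W] [Fintype W'] [DecidableEq W']
    {π : W → W'} {σ : W' → W} (hσ : ∀ s, π (σ s) = s) {T : ℚ[X]} {A : Matrix W W ℚ[X]}
    (hA : QInv π A) {u : ℚ} {Q : ℝ} (hQ : 1 ≤ Q) (h : Gr T A u Q) : Gr T (qM π σ A) u Q := by
  obtain ⟨C, hC⟩ := h
  have hC0 : 0 ≤ C := by
    obtain ⟨q, hq0, hq, -⟩ := hC 0
    rw [pow_zero, mul_one] at hq
    exact le_trans (Nat.cast_nonneg _) hq
  have hgm : ∀ j s s', gm T (qM π σ A) j u s s' =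
      ∑ J, if π J = s' then gm T A j u (σ s) J else 0 := by
    intro j s s'
    rw [gm, Matrix.of_apply, (beta_q hσ T hA j).2]
    unfold qM
    rw [eval_finsetSum, Finset.sum_div]
    refine Finset.sum_congr rfl fun J _ => ?_
    split_ifs
    · rfl
    · rw [eval_zero, zero_div]
  refine ⟨C + Fintype.card W * C, fun N => ?_⟩
  obtain ⟨q, hq0, hq, hj⟩ := hC N
  refine ⟨q, hq0, ?_, fun j hjN s s' => ⟨?_, ?_⟩⟩
  · refine hq.trans (mul_le_mul_of_nonneg_right ?_ (by positivity))
    have : (0 : ℝ) ≤ Fintype.card W * C := by positivity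
    linarith
  · rw [hgm]
    have h3 : ∀ J, ∃ n : ℤ, (q : ℚ) * (if π J = s' then gm T A j u (σ s) J else 0) = n := by
      intro J
      split_ifs
      · exact (hj j hjN _ _).1
      · exact ⟨0, by simp⟩
    choose n hn using h3
    refine ⟨∑ J, n J, ?_⟩
    rw [Finset.mul_sum]
    push_cast
    exact Finset.sum_congr rfl fun J _ => hn J
  · rw [hgm]
    push_cast
    refine (Finset.abs_sum_le_sum_abs _ _).trans ?_
    refine (Finset.sum_le_card_nsmul _ _ (C * Q ^ j) fun J _ => ?_).trans ?_
    · split_ifs
      · exact (hj j hjN _ _).2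
      · rw [Rat.cast_zero, abs_zero]
        positivity
    · rw [nsmul_eq_mul, Finset.card_univ, add_mul, mul_assoc]
      have : 0 ≤ C * Q ^ j := by positivity
      linarith

end Pool.Agent.Helper79.DD
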