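import Pool.Agent.Helper79.DD.Sym
import Pool.Agent.Helper79.BB.UDefs
import Pool.Agent.Helper79.BB.Words

/-!
# DD: the system of the classes of words (helper79)
-/

namespace Pool.Agent.Helper79.DD

open Pool.Agent.Helper79.CU Pool.Agent.Helper79.AA Pool.Agent.Helper79.BB
  Pool.Agent.Helper64.Per

section

variable {κ : IntermediateField ℚ Qbar} {m : ℕ} {W W' : Type} [Fintype W] [DecidableEq W]
  [Fintype W'] [DecidableEq W'] {π : W → W'} {σ : W' → W} (hσ : ∀ s, π (σ s) = s)
  {U : Set (Fin m → ℂ)} {z : (Fin m → ℂ) → W → ℂ} (hz : ∀ t ∈ U, ∀ I, z t I = z t (σ (π I)))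

include hσ hz

theorem kbad_q {x₀ : Fin m → ℂ} (hx₀ : x₀ ∈ U) (h : KBadM κ U z x₀) :
    KBadM κ U (fun t s => z t (σ s)) x₀ := by
  obtain ⟨g, hg, hno⟩ := h
  set g' : W' → MvPolynomial (Fin m) κ := fun s => ∑ I, if π I = s then g I else 0 with hg'
  have hsum : ∀ t ∈ U, ∑ s, MvPolynomial.aeval t (g' s) * z t (σ s) =
      ∑ I, MvPolynomial.aeval t (g I) * z t I := by
    intro t ht
    have e1 : ∀ s, MvPolynomial.aeval t (g' s) * z t (σ s) =
        ∑ I, if π I = s then MvPolynomial.aeval t (g I) * z t (σ s) else 0 := by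
      intro s
      rw [hg']
      simp only
      rw [map_sum, Finset.sum_mul]
      refine Finset.sum_congr rfl fun I _ => ?_
      split_ifs
      · rfl
      · rw [map_zero, zero_mul]
    rw [Finset.sum_congr rfl fun s _ => e1 s, Finset.sum_comm]
    refine Finset.sum_congr rfl fun I _ => ?_
    rw [Finset.sum_ite_eq Finset.univ (π I), if_pos (Finset.mem_univ _), ← hz t ht I]
  refine ⟨g', by rw [hsum x₀ hx₀, hg], ?_⟩
  rintro ⟨h', h1, h2⟩
  apply hno
  set ψ : MvPolynomial (Fin m) κ →+* MvPolynomial (Fin m) Qbar :=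
    MvPolynomial.map (algebraMap κ Qbar) with hψ
  have hψe : ∀ (t : Fin m → ℂ) (p : MvPolynomial (Fin m) κ),
      MvPolynomial.aeval t (ψ p) = MvPolynomial.aeval t p := by
    intro t p
    exact MvPolynomial.aeval_map_algebraMap Qbar t p
  refine ⟨fun I => ψ (g I) + if I = σ (π I) then h' (π I) - ψ (g' (π I)) else 0, fun I => ?_,
    fun t ht => ?_⟩
  · rw [map_add, hψe]
    split_ifs
    · rw [map_sub, h1, hψe, sub_self, add_zero]
    · rw [map_zero, add_zero]
  · have e2 : ∀ I, MvPolynomial.aeval t (ψ (g I) +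
        if I = σ (π I) then h' (π I) - ψ (g' (π I)) else 0) *
        z t I = MvPolynomial.aeval t (g I) * z t I +
          ∑ s, if I = σ s then MvPolynomial.aeval t (h' s - ψ (g' s)) * z t (σ s) else 0 := by
      intro I
      rw [map_add, add_mul, hψe]
      congr 1
      by_cases hI : I = σ (π I)
      · rw [if_pos hI, Finset.sum_eq_single (π I), if_pos hI, ← hI]
        · intro s _ hs
          rw [if_neg]
          intro h3
          apply hs
          rw [h3, hσ]
        · intro h3
          exact absurd (Finset.mem_univ _) h3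
      · rw [if_neg hI, map_zero, zero_mul]
        symm
        refine Finset.sum_eq_zero fun s _ => ?_
        rw [if_neg]
        intro h3
        apply hI
        rw [h3, hσ]
    rw [Finset.sum_congr rfl fun I _ => e2 I, Finset.sum_add_distrib, ← hsum t ht,
      Finset.sum_comm]
    have e3 : ∀ s, ∑ I, (if I = σ s then MvPolynomial.aeval t (h' s - ψ (g' s)) *
        z t (σ s) else 0) =
        MvPolynomial.aeval t (h' s) * z t (σ s) - MvPolynomial.aeval t (g' s) * z t (σ s) := by
      intro s
      rw [Finset.sum_ite_eq' Finset.univ (σ s), if_pos (Finset.mem_univ _), map_sub, sub_mul,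
        hψe]
    rw [Finset.sum_congr rfl fun s _ => e3 s, Finset.sum_sub_distrib, h2 t ht]
    ring

omit [DecidableEq W] [Fintype W'] hσ in
/-- The system of the classes. -/
theorem sys_q {T : MvPolynomial (Fin m) κ} {A : Fin m → Matrix W W (MvPolynomial (Fin m) κ)}
    [Fintype W'] (hode : ∀ t ∈ U, ∀ s I, MvPolynomial.aeval t T * pd s (fun t => z t I) t =
      ∑ J, MvPolynomial.aeval t (A s I J) * z t J) : ∀ t ∈ U, ∀ s (c : W'),
    MvPolynomial.aeval t T * pd s (fun t => z t (σ c)) t =
      ∑ c', MvPolynomial.aeval t (qM π σ (A s) c c') * z t (σ c') := by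
  intro t ht s c
  rw [hode t ht]
  have e1 : ∀ c', MvPolynomial.aeval t (qM π σ (A s) c c') * z t (σ c') =
      ∑ J, if π J = c' then MvPolynomial.aeval t (A s (σ c) J) * z t (σ c') else 0 := by
    intro c'
    unfold qM
    rw [map_sum, Finset.sum_mul]
    refine Finset.sum_congr rfl fun J _ => ?_
    split_ifs
    · rfl
    · rw [map_zero, zero_mul]
  rw [Finset.sum_congr rfl fun c' _ => e1 c', Finset.sum_comm]
  refine Finset.sum_congr rfl fun J _ => ?_
  rw [Finset.sum_ite_eq Finset.univ (π J), if_pos (Finset.mem_univ _), ← hz t ht J]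

end

/-- Words of the same class have the same value. -/
theorem wd_sym {μ : ℕ} {ι : Type} [Fintype ι] [DecidableEq ι] {R : Type} [CommRing R] (r : ℕ)
    (w : R) (P : Matrix ι ι R) (I : Fin r → Al μ ι) : wd r w P I = wd r w P (rep (cls I)) := by
  obtain ⟨τ, hτ⟩ := exists_perm (cls_rep (cls I))
  conv_lhs => rw [hτ]
  unfold wd
  exact Equiv.prod_comp τ fun k => lt w P (rep (cls I) k)

end Pool.Agent.Helper79.DD
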