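import Pool.Agent.Helper79.BB.Main
import Pool.Agent.Helper79.DD.CountMain3
import Pool.Agent.Helper79.DD.SymBad

/-!
# DD: assembly (helper79)
-/

open Polynomial

namespace Pool.Agent.Helper79.DD

open Pool.Agent.Helper79.GX Pool.Agent.Helper64.Per Pool.Agent.Helper79.GA Pool.Agent.Helper79.CU
  Pool.Agent.Helper79.AA Pool.Agent.Helper79.BB

theorem BoxC.mono {m n n' δ c B E : ℕ} (h : BoxC m n δ c B E) (hn : n' ≤ n) :
    BoxC m n' δ c B E := by
  intro ι _ _ hι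
  exact h (hι.trans hn)

theorem totalDegree_qM {σ W W' : Type} [Fintype W] [DecidableEq W']
    {δ : ℕ} (π : W → W') (τ : W' → W) (B : Matrix W W (MvPolynomial σ ℚ))
    (hB : ∀ x y, (B x y).totalDegree ≤ δ) (s s' : W') : (qM π τ B s s').totalDegree ≤ δ := by
  unfold qM
  refine MvPolynomial.totalDegree_finsetSum_le fun J _ => ?_
  split_ifs
  · exact hB _ _
  · rw [MvPolynomial.totalDegree_zero]
    exact Nat.zero_le _

theorem totalDegree_tensB {σ Γ β : Type} [DecidableEq β] {δ : ℕ} (r : ℕ)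
    (B : Matrix (Γ × β) (Γ × β) (MvPolynomial σ ℚ)) (hB : ∀ x y, (B x y).totalDegree ≤ δ)
    (x y : Γ × (Fin r → β)) : (tensB r B x y).totalDegree ≤ δ := by
  unfold tensB
  refine MvPolynomial.totalDegree_finsetSum_le fun J _ => ?_
  split_ifs
  · exact hB _ _
  · rw [MvPolynomial.totalDegree_zero]
    exact Nat.zero_le _

theorem iter_submatrix {K α β : Type} [Field K] [CharZero K] [Fintype α] [DecidableEq α]
    [Fintype β] [DecidableEq β] (D : Derivation ℚ K K) (A : Matrix α α K) (f : β ≃ α) (n : ℕ) :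
    ∀ i j, iter D (A.submatrix f f) n i j = iter D A n (f i) (f j) := by
  induction n with
  | zero =>
    intro i j
    change (1 : Matrix β β K) i j = (1 : Matrix α α K) (f i) (f j)
    rw [Matrix.one_apply, Matrix.one_apply]
    by_cases h : i = j
    · rw [if_pos h, if_pos (by rw [h])]
    · rw [if_neg h, if_neg fun h' => h (f.injective h')]
  | succ n ih =>
    intro i j
    change (((n + 1 : ℕ) : K)⁻¹) * (D (iter D (A.submatrix f f) n i j) +
        ∑ l, iter D (A.submatrix f f) n i l * A (f l) (f j)) =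
      (((n + 1 : ℕ) : K)⁻¹) * (D (iter D A n (f i) (f j)) + ∑ l, iter D A n (f i) l * A l (f j))
    rw [ih]
    have h1 : ∑ l, iter D (A.submatrix f f) n i l * A (f l) (f j) =
        ∑ l, iter D A n (f i) l * A l (f j) := by
      rw [← f.sum_comp]
      exact Finset.sum_congr rfl fun l _ => by rw [ih]
    rw [h1]

theorem tame_submatrix {K α β : Type} [Field K] [CharZero K] [Fintype α] [DecidableEq α]
    [Fintype β] [DecidableEq β] {D : Derivation ℚ K K} {A : Matrix α α K} (h : TameM D A)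
    (f : β ≃ α) : TameM D (A.submatrix f f) := by
  have h1 := GmS.comp h fun p : β × β => (f p.1, f p.2)
  have h2 : (fun (n : ℕ) (p : β × β) => iter D (A.submatrix f f) n p.1 p.2) =
      fun (n : ℕ) (p : β × β) => iter D A n (f p.1) (f p.2) := by
    funext n p
    exact iter_submatrix D A f n p.1 p.2
  unfold TameM
  rw [h2]
  exact h1

theorem tens_one_apply {R α : Type} [CommRing R] [DecidableEq α] (a : Matrix α α R) (i j : α) :
    tens 1 a (fun _ => i) (fun _ => j) = a i j := by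
  unfold tens
  rw [Fin.sum_univ_one, if_pos]
  intro s' hs'
  exact absurd (Subsingleton.elim _ _) hs'

theorem fam_tame_wm {κ : IntermediateField ℚ Qbar} {m : ℕ} (F : FamiliesM κ m) {μ r : ℕ}
    {ι : Type} [Fintype ι] [DecidableEq ι] (E : F.Sub μ r ι) (i : Fin m) :
    ∃ (K : Type) (_ : Field K) (_ : CharZero K) (_ : Algebra (Ki κ i) K) (u : K)
      (Du : Derivation ℚ K K), RatX (Ki κ i) u Du ∧
        TameM Du (fun r r' => aeval u (tauP i (wm (SubTensorM.B E i) r r')) /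
          aeval u (tauP i F.T)) := by
  obtain ⟨K, i1, i2, i3, u, Du, hu, ht⟩ := fam_tame F E 1 i
  refine ⟨K, i1, i2, i3, u, Du, hu, ?_⟩
  have h1 := tame_submatrix ht (Equiv.funUnique (Fin 1) (Al μ ι)).symm
  have h2 : Matrix.submatrix (fun r r' => aeval u (tauP i (tens 1 (wm (SubTensorM.B E i)) r r')) /
      aeval u (tauP i F.T)) (Equiv.funUnique (Fin 1) (Al μ ι)).symm
        (Equiv.funUnique (Fin 1) (Al μ ι)).symm =
      fun r r' => aeval u (tauP i (wm (SubTensorM.B E i) r r')) / aeval u (tauP i F.T) := by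
    funext r r'
    change aeval u (tauP i (tens 1 (wm (SubTensorM.B E i)) (fun _ => r) (fun _ => r'))) /
      aeval u (tauP i F.T) = _
    rw [tens_one_apply]
  rw [h2] at h1
  exact h1

section

variable {κ : IntermediateField ℚ Qbar} {m : ℕ} {F : FamiliesM κ m} {μ r : ℕ} {ι : Type}
  [Fintype ι] [DecidableEq ι] (E : F.Sub μ r ι) {U : Set (Fin m → ℂ)} (hU : IsOpen U)
  {w : (Fin m → ℂ) → ℂ} (hw : IsBranchM κ U μ w) {P : (Fin m → ℂ) → Matrix ι ι ℂ}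
  (hP : E.IsPeriod U w P)

variable [FiniteDimensional ℚ κ] [Nonempty ι] (hm : 1 ≤ m) (hU' : IsPreconnected U)
  (hdet : ∀ t ∈ U, IsUnit (P t).det) {V : Set (Fin m → ℂ)} (hV : Deep F.T U V) {J : Type}
  [Fintype J] (ω : Module.Basis J ℚ κ) {N : Finset (ℕ × J)} (hN : ∃ j, (0, j) ∈ N)

include hU hw hP hm hU' hdet hV hN

/-- The theorem on the points of bounded degree, with the constants of the core theorem. -/
theorem mainU₀ {D : ℕ} (hD : 1 ≤ D) (e : ℕ) :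
    ∃ (θ₀ C : ℝ) (N₁ s c₁ δ₀ : ℕ), 0 < θ₀ ∧ 0 ≤ C ∧ ∀ δ X : ℕ, 1 ≤ X →
      ((RelPointU ω N U V w P δ D e X).ncard : ℝ) ≤
        C * (X : ℝ) ^ ((Fintype.card (Px m D e J N) : ℝ) - θ₀) +
        C * (bB m (N₁ * (δ + 2) ^ s) δ₀ (c₁ * (δ + 2)) + 1) *
          (X : ℝ) ^ ((Fintype.card (Px m D e J N) : ℝ) -
            1 / (2 * (bE (N₁ * (δ + 2) ^ s) : ℝ) + 4)) := by
  classical
  have hVU := deep_sub hV
  obtain ⟨f, hf⟩ := hw.eqn
  rcases U.eq_empty_or_nonempty with hUe | ⟨t₁, ht₁⟩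
  · refine ⟨1, 0, 0, 0, 0, 0, one_pos, le_rfl, fun δ X _ => ?_⟩
    have : RelPointU ω N U V w P δ D e X = ∅ := by
      rw [Set.eq_empty_iff_forall_notMem]
      rintro a ⟨_, θ, _, _, h2, _⟩
      have h3 := hVU h2
      rw [hUe] at h3
      exact h3
    rw [this, Set.ncard_empty, Nat.cast_zero]
    simp
  have hμ : 0 < μ := by
    rcases Nat.eq_zero_or_pos μ with h0 | h0
    · subst h0
      have h1 := hf _ ht₁
      simp at h1
    · exact h0
  have hJ : Nonempty J := ω.index_nonempty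
  obtain ⟨j₀⟩ := hJ
  obtain ⟨j₁, hj₁⟩ := hN
  set l₀ : N := ⟨(0, j₁), hj₁⟩ with hl₀
  set gd : N → ℕ × J := fun l => l.1 with hgd
  -- the system of the letters
  obtain ⟨𝔇, hstar⟩ := exists_uniM ω gd l₀ (m := m) e hD j₀ F.T_ne
    (A := fun i => wm (SubTensorM.B E i)) fun i => fam_tame_wm F E i
  set δ₀ : ℕ := 𝔇.Θ.totalDegree + ∑ i, ∑ x, ∑ y, (𝔇.M i x y).totalDegree with hδ₀
  have hδM : ∀ i x y, (𝔇.M i x y).totalDegree ≤ δ₀ := by
    intro i x y
    have h1 : (𝔇.M i x y).totalDegree ≤ ∑ y, (𝔇.M i x y).totalDegree :=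
      Finset.single_le_sum (f := fun y => (𝔇.M i x y).totalDegree) (fun _ _ => Nat.zero_le _)
        (Finset.mem_univ y)
    have h2 : ∑ y, (𝔇.M i x y).totalDegree ≤ ∑ x, ∑ y, (𝔇.M i x y).totalDegree :=
      Finset.single_le_sum (f := fun x => ∑ y, (𝔇.M i x y).totalDegree)
        (fun _ _ => Nat.zero_le _) (Finset.mem_univ x)
    have h3 : ∑ x, ∑ y, (𝔇.M i x y).totalDegree ≤ ∑ i, ∑ x, ∑ y, (𝔇.M i x y).totalDegree :=
      Finset.single_le_sum (f := fun i => ∑ x, ∑ y, (𝔇.M i x y).totalDegree)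
        (fun _ _ => Nat.zero_le _) (Finset.mem_univ i)
    omega
  obtain ⟨θ₀, C, hθ₀, hC, hcount⟩ := countX ω (gd := gd) (T := F.T) F.T_ne hU hU' hm hD hV j₀
    (l₀ := l₀) rfl 𝔇.Θ_ne
  refine ⟨θ₀, C, Fintype.card 𝔇.Γ, Fintype.card (Al μ ι), 6 * (𝔇.c + 1), δ₀, hθ₀, hC,
    fun δ X hX => ?_⟩
  set ρ : ℕ := δ + 1 with hρ
  obtain ⟨hzan, hzode⟩ := words_sys E hU hw hP hμ ρ
  set 𝔈 := (𝔇.tens hstar ρ).quo (cls (β := Al μ ι) (r := ρ)) rep cls_rep
    (fun i => tensB_qinv (𝔇.M i)) with h𝔈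
  have hcard : Fintype.card (𝔈.Γ × Wt (Al μ ι) ρ) ≤
      Fintype.card 𝔇.Γ * (δ + 2) ^ Fintype.card (Al μ ι) := by
    rw [Fintype.card_prod]
    exact Nat.mul_le_mul le_rfl (card_Wt ρ)
  have hbox : BoxC m (Fintype.card 𝔇.Γ * (δ + 2) ^ Fintype.card (Al μ ι)) δ₀
      (6 * (𝔇.c + 1) * (δ + 2))
      (bB m (Fintype.card 𝔇.Γ * (δ + 2) ^ Fintype.card (Al μ ι)) δ₀ (6 * (𝔇.c + 1) * (δ + 2)))
      (bE (Fintype.card 𝔇.Γ * (δ + 2) ^ Fintype.card (Al μ ι))) :=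
    box_coreX m _ δ₀ _ hm
  have hsym : ∀ t ∈ U, ∀ I : Fin ρ → Al μ ι, wd ρ (w t) (P t) I = wd ρ (w t) (P t) (rep (cls I)) :=
    fun t _ I => wd_sym ρ _ _ I
  have hc : 6 * 𝔈.c = 6 * (𝔇.c + 1) * (δ + 2) := by
    change 6 * ((𝔇.c + 1) * (ρ + 1)) = _
    rw [hρ]
    ring
  have hbox' : BoxC m (Fintype.card (𝔈.Γ × Wt (Al μ ι) ρ)) δ₀ (6 * 𝔈.c)
      (bB m (Fintype.card 𝔇.Γ * (δ + 2) ^ Fintype.card (Al μ ι)) δ₀ (6 * (𝔇.c + 1) * (δ + 2)))
      (bE (Fintype.card 𝔇.Γ * (δ + 2) ^ Fintype.card (Al μ ι))) := by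
    rw [hc]
    exact BoxC.mono @hbox hcard
  have hdM : ∀ i x y, (𝔈.M i x y).totalDegree ≤ δ₀ := by
    intro i x y
    change (qM (fun x : 𝔇.Γ × (Fin ρ → Al μ ι) => (x.1, cls x.2))
      (fun s : 𝔇.Γ × Wt (Al μ ι) ρ => (s.1, rep s.2)) (tensB ρ (𝔇.M i)) x y).totalDegree ≤ δ₀
    exact totalDegree_qM _ _ _ (totalDegree_tensB ρ _ (hδM i)) x y
  have hmain := hcount (Wt (Al μ ι) ρ) _ 𝔈 (fun t s => wd ρ (w t) (P t) (rep s)) rfl
    (fun s => hzan (rep s)) (sys_q hsym hzode) δ₀ _ _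
    (by change 𝔇.Θ.totalDegree ≤ δ₀; omega)
    hdM
    @hbox' X hX
  refine le_trans ?_ hmain
  have hfin : {a : Px m D e J N → ℤ | (∀ p, |a p| ≤ X) ∧
      ∃ θ : ℂ, FvM (fun j => ω j) (fun p => (a p : ℂ)) θ = 0 ∧
      denM (fun j => ω j) gd (fun p => (a p : ℂ)) θ ≠ 0 ∧
      ptM (fun j => ω j) gd (fun p => (a p : ℂ)) θ ∈ V ∧
      KBadM κ U (fun t s => wd (μ := μ) ρ (w t) (P t) (rep s))
        (ptM (fun j => ω j) gd (fun p => (a p : ℂ)) θ)}.Finite :=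
    (box_card X _ fun a ha => ha.1).1
  have hsub : RelPointU ω N U V w P δ D e X ⊆ {a : Px m D e J N → ℤ | (∀ p, |a p| ≤ X) ∧
      ∃ θ : ℂ, FvM (fun j => ω j) (fun p => (a p : ℂ)) θ = 0 ∧
      denM (fun j => ω j) gd (fun p => (a p : ℂ)) θ ≠ 0 ∧
      ptM (fun j => ω j) gd (fun p => (a p : ℂ)) θ ∈ V ∧
      KBadM κ U (fun t s => wd (μ := μ) ρ (w t) (P t) (rep s))
        (ptM (fun j => ω j) gd (fun p => (a p : ℂ)) θ)} := by
    rintro a ⟨ha, θ, hθ, hq, hθV, hrel⟩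
    exact ⟨ha, θ, hθ, hq, hθV, kbad_q cls_rep hsym (hVU hθV)
      (kbadM_of_rel hf (hVU hθV) (hdet _ (hVU hθV)) hrel)⟩
  exact_mod_cast Set.ncard_le_ncard hsub hfin

end

end Pool.Agent.Helper79.DD
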