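import Pool.Agent.Helper79.DD.UDefs

/-!
# DD: the pencils: definitions
-/

namespace Pool.Agent.Helper79.DD

open Pool.Agent.Helper79.BB

open Pool.Agent.Helper79.AA Pool.Agent.Helper79.GX Pool.Agent.Helper64.Per

variable {κ : IntermediateField ℚ Qbar} {J ν : Type} [Fintype J] [DecidableEq J] [Fintype ν]
  [DecidableEq ν] {m dg ed : ℕ}

/-- The affine map `u ↦ x⁰ + (ω_(j₀) / G_0(θ)) u`, `x⁰` the point with parameters `a` and `θ`. -/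
noncomputable def pmap (ω : J → κ) (gd : ν → ℕ × J) (j₀ : J) (a : Px m dg ed J ν → ℤ) (θ : ℂ)
    (u : Fin m → ℂ) : Fin m → ℂ :=
  ptM ω gd (shM j₀ (fun p => (a p : ℂ)) u) θ

/-- The functions `b_γ(θ) z_r(x⁰ + (ω_(j₀) / G_0(θ)) u)`. -/
noncomputable def zpen {Γ β : Type} (ω : J → κ) (gd : ν → ℕ × J) (j₀ : J) (b : Γ → J × ℕ)
    (z : (Fin m → ℂ) → β → ℂ) (a : Px m dg ed J ν → ℤ) (θ : ℂ) (u : Fin m → ℂ) : Γ × β → ℂ :=
  fun p => algebraMap κ ℂ (ω (b p.1).1) * θ ^ (b p.1).2 * z (pmap ω gd j₀ a θ u) p.2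

end Pool.Agent.Helper79.DD
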