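import Pool.Agent.Helper79.BB.StatM

/-!
# DD: points with numerators of degree at most `e` and denominators in a set of monomials: definitions for the statement

The coordinates of the points are `G_i(θ) / G_0(θ)`, where `θ` is a root of a polynomial `F` of degree at most `D`, the `G_i`
are polynomials of degree at most `e`, with coefficients in `κ`, and `G_0` is a combination of the monomials `ω_j y^k`,
`(k, j) ∈ N`, with integral coefficients.
-/

namespace Pool.Agent.Helper79.DD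

open Pool.Agent.Helper79.BB Pool.Agent.Helper64.Per

/-- The indices of the integer parameters of a point: the coefficients of `F_a`, of `G_1, …, G_m`, and
of `G_0`. -/
abbrev Px (m D e : ℕ) (J ν : Type) : Type :=
  (Fin (D + 1) × J) ⊕ ((Fin m × (Fin (e + 1) × J)) ⊕ ν)

section Pts

variable {κ : IntermediateField ℚ Qbar} {J : Type} [Fintype J] (ω : Module.Basis J ℚ κ)
  (N : Finset (ℕ × J)) {m D e : ℕ}

/-- The value at `θ` of the polynomial `F_a = ∑_k (∑_j a_(k,j) ω_j) θ^k` of degree at most `D` over `κ`. -/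
noncomputable def polyU (a : Px m D e J N → ℤ) (θ : ℂ) : ℂ :=
  ∑ l : Fin (D + 1) × J, (a (Sum.inl l) : ℂ) * algebraMap κ ℂ (ω l.2) * θ ^ (l.1 : ℕ)

/-- The value at `θ` of the denominator `G_0 = ∑_((k,j) ∈ N) a_(k,j) ω_j θ^k`. -/
noncomputable def denU (a : Px m D e J N → ℤ) (θ : ℂ) : ℂ :=
  ∑ l : N, (a (Sum.inr (Sum.inr l)) : ℂ) * algebraMap κ ℂ (ω l.1.2) * θ ^ l.1.1

/-- The point `(G_1(θ) / G_0(θ), …, G_m(θ) / G_0(θ))`, where `G_i = ∑_k (∑_j a_(i,k,j) ω_j) θ^k` is of
degree at most `e`. -/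
noncomputable def pointU (a : Px m D e J N → ℤ) (θ : ℂ) : Fin m → ℂ := fun i =>
  (∑ l : Fin (e + 1) × J, (a (Sum.inr (Sum.inl (i, l))) : ℂ) * algebraMap κ ℂ (ω l.2) *
    θ ^ (l.1 : ℕ)) / denU ω N a θ

/-- The integer parameters `a` with coordinates of absolute value at most `X` such that for a root `θ` of
`F_a` with `G_0(θ) ≠ 0` the point `t = (G_1(θ) / G_0(θ), …, G_m(θ) / G_0(θ))` is in `V` and there is a
relation of degree at most `δ` over `κ(s)` at the point `s = (t, w t)`. -/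
def RelPointU {ι : Type} [Fintype ι] [DecidableEq ι] (U V : Set (Fin m → ℂ))
    (w : (Fin m → ℂ) → ℂ) (P : (Fin m → ℂ) → Matrix ι ι ℂ) (δ D e X : ℕ) :
    Set (Px m D e J N → ℤ) :=
  {a | (∀ p, |a p| ≤ X) ∧ ∃ θ : ℂ, polyU ω N a θ = 0 ∧ denU ω N a θ ≠ 0 ∧
    pointU ω N a θ ∈ V ∧ HasRelationM U w P (pointU ω N a θ) κ δ}

end Pts

end Pool.Agent.Helper79.DD
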