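import Pool.Agent.Helper79.GA.TTens
import Pool.Agent.Helper79.AA.Den

/-!
# DD: tensor powers of a push-forward (helper79)

`tensB r M` is the matrix of the push-forward of the `r`-th tensor power.
-/

open Polynomial

namespace Pool.Agent.Helper79.DD

open Pool.Agent.Helper79.CU Pool.Agent.Helper79.SE Pool.Agent.Helper79.GA Pool.Agent.Helper79.AA

/-- The push-forward of the `r`-th tensor power. -/
def tensB {R Γ β : Type} [CommRing R] [DecidableEq β] (r : ℕ) (M : Matrix (Γ × β) (Γ × β) R) :
    Matrix (Γ × (Fin r → β)) (Γ × (Fin r → β)) R :=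
  fun x y => ∑ s, if (∀ s', s' ≠ s → x.2 s' = y.2 s') then M (x.1, x.2 s) (y.1, y.2 s) else 0

/-- The iterates of the tensor powers are products. -/
def Star {σ Γ β : Type} [DecidableEq σ] [Fintype Γ] [DecidableEq Γ] [Fintype β] [DecidableEq β]
    (i₀ : σ) (Θ : MvPolynomial σ ℚ) (M : Matrix (Γ × β) (Γ × β) (MvPolynomial σ ℚ)) : Prop :=
  ∀ (r n : ℕ) (γ γ' : Γ) (I J : Fin (r + 1) → β),
    mbeta i₀ Θ (tensB (r + 1) M) n (γ, I) (γ', J) =
      ∑ p ∈ Finset.HasAntidiagonal.antidiagonal n, ∑ γ'', mbeta i₀ Θ M p.1 (γ, I 0) (γ'', J 0) *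
        mbeta i₀ Θ (tensB r M) p.2 (γ'', Fin.tail I) (γ', Fin.tail J)

section

variable {K : Type} [Field K] [CharZero K] (D : Derivation ℚ K K)

private noncomputable def tcD (F : PowerSeries K) : PowerSeries K :=
  PowerSeries.mk fun j => D (PowerSeries.coeff j F)

private lemma coeff_tcD (F : PowerSeries K) (j : ℕ) :
    PowerSeries.coeff j (tcD D F) = D (PowerSeries.coeff j F) := by
  unfold tcD
  rw [PowerSeries.coeff_mk]

/-- The recursion of the iterates. -/
private lemma it_succ {ι : Type} [Fintype ι] [DecidableEq ι] (a : Matrix ι ι K) (n : ℕ)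
    (i j : ι) : ((n + 1 : ℕ) : K) * iter D a (n + 1) i j =
      D (iter D a n i j) + ∑ l, iter D a n i l * a l j := by
  have h0 : ((n + 1 : ℕ) : K) ≠ 0 := Nat.cast_ne_zero.2 (Nat.succ_ne_zero n)
  rw [iter, Matrix.of_apply, ← mul_assoc, mul_inv_cancel₀ h0, one_mul]

/-- The matrix of a tensor power, first factor. -/
theorem tens_succ {ι : Type} [DecidableEq ι] (r : ℕ) (a : Matrix ι ι K) (I J : Fin (r + 1) → ι) :
    tens (r + 1) a I J = (if Fin.tail I = Fin.tail J then a (I 0) (J 0) else 0) +
      (if I 0 = J 0 then tens r a (Fin.tail I) (Fin.tail J) else 0) := by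
  unfold tens
  rw [Fin.sum_univ_succ]
  congr 1
  · congr 1
    rw [eq_iff_iff]
    constructor
    · intro h
      funext s
      exact h s.succ (Fin.succ_ne_zero s)
    · intro h s hs
      obtain ⟨s', rfl⟩ := Fin.exists_succ_eq.2 hs
      exact congrFun h s'
  · by_cases h0 : I 0 = J 0
    · rw [if_pos h0]
      refine Finset.sum_congr rfl fun s _ => ?_
      congr 1
      rw [eq_iff_iff]
      constructor
      · intro h s' hs'
        exact h s'.succ fun h1 => hs' (Fin.succ_injective _ h1)
      · intro h s' hs'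
        rcases Fin.eq_zero_or_eq_succ s' with rfl | ⟨s'', rfl⟩
        · exact h0
        · exact h s'' fun h1 => hs' (by rw [h1])
    · rw [if_neg h0]
      refine Finset.sum_eq_zero fun s _ => ?_
      rw [if_neg]
      intro h
      exact h0 (h 0 (Fin.succ_ne_zero s).symm)

/-- The iterates of a tensor power. -/
theorem iter_tens {ι : Type} [Fintype ι] [DecidableEq ι] (a : Matrix ι ι K) (r n : ℕ)
    (I J : Fin (r + 1) → ι) : iter D (tens (r + 1) a) n I J =
      ∑ p ∈ Finset.HasAntidiagonal.antidiagonal n, iter D a p.1 (I 0) (J 0) *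
        iter D (tens r a) p.2 (Fin.tail I) (Fin.tail J) := by
  induction n generalizing J with
  | zero =>
    rw [Finset.Nat.antidiagonal_zero, Finset.sum_singleton]
    simp only [iter]
    by_cases h : I = J
    · subst h
      simp
    · rw [Matrix.one_apply_ne h]
      by_cases h0 : I 0 = J 0
      · have h1 : Fin.tail I ≠ Fin.tail J := by
          intro h1
          apply h
          rw [← Fin.cons_self_tail I, ← Fin.cons_self_tail J, h0, h1]
        rw [Matrix.one_apply_ne h1, mul_zero]
      · rw [Matrix.one_apply_ne h0, zero_mul]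
  | succ n ih =>
    have h0 : ((n + 1 : ℕ) : K) ≠ 0 := Nat.cast_ne_zero.2 (Nat.succ_ne_zero n)
    apply mul_left_cancel₀ h0
    rw [it_succ, ih, map_sum]
    -- the sum over the tensor indices
    have e1 : ∑ L : Fin (r + 1) → ι, iter D (tens (r + 1) a) n I L * tens (r + 1) a L J =
        ∑ p ∈ Finset.HasAntidiagonal.antidiagonal n,
          ((∑ l, iter D a p.1 (I 0) l * a l (J 0)) * iter D (tens r a) p.2 (Fin.tail I) (Fin.tail J) +
          iter D a p.1 (I 0) (J 0) *
            ∑ L', iter D (tens r a) p.2 (Fin.tail I) L' * tens r a L' (Fin.tail J)) := by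
      rw [← (Fin.consEquiv (fun _ : Fin (r + 1) => ι)).sum_comp, Fintype.sum_prod_type]
      have e2 : ∀ (l : ι) (L' : Fin r → ι),
          iter D (tens (r + 1) a) n I (Fin.consEquiv (fun _ : Fin (r + 1) => ι) (l, L')) *
            tens (r + 1) a (Fin.consEquiv (fun _ : Fin (r + 1) => ι) (l, L')) J =
          ∑ p ∈ Finset.HasAntidiagonal.antidiagonal n,
            ((if L' = Fin.tail J then iter D a p.1 (I 0) l * a l (J 0) *
                iter D (tens r a) p.2 (Fin.tail I) L' else 0) +
              (if l = J 0 then iter D a p.1 (I 0) l *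
                (iter D (tens r a) p.2 (Fin.tail I) L' * tens r a L' (Fin.tail J)) else 0)) := by
        intro l L'
        have hc : Fin.consEquiv (fun _ : Fin (r + 1) => ι) (l, L') =
            (Fin.cons l L' : Fin (r + 1) → ι) := rfl
        rw [hc, ih, tens_succ, Finset.sum_mul]
        refine Finset.sum_congr rfl fun p _ => ?_
        rw [Fin.cons_zero, Fin.tail_cons]
        split_ifs <;> ring
      simp only [e2]
      rw [Finset.sum_congr rfl fun l _ => Finset.sum_comm, Finset.sum_comm]
      refine Finset.sum_congr rfl fun p _ => ?_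
      simp only [Finset.sum_add_distrib]
      congr 1
      · rw [Finset.sum_mul]
        refine Finset.sum_congr rfl fun l _ => ?_
        rw [Finset.sum_ite_eq' Finset.univ (Fin.tail J)]
        simp
      · rw [Finset.sum_comm, Finset.mul_sum]
        refine Finset.sum_congr rfl fun L' _ => ?_
        rw [Finset.sum_ite_eq' Finset.univ (J 0)]
        simp
    rw [e1, ← Finset.sum_add_distrib]
    have e3 : ∀ p ∈ Finset.HasAntidiagonal.antidiagonal n,
        D (iter D a p.1 (I 0) (J 0) * iter D (tens r a) p.2 (Fin.tail I) (Fin.tail J)) +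
        ((∑ l, iter D a p.1 (I 0) l * a l (J 0)) * iter D (tens r a) p.2 (Fin.tail I) (Fin.tail J) +
          iter D a p.1 (I 0) (J 0) *
            ∑ L', iter D (tens r a) p.2 (Fin.tail I) L' * tens r a L' (Fin.tail J)) =
        ((p.1 + 1 : ℕ) : K) * iter D a (p.1 + 1) (I 0) (J 0) *
          iter D (tens r a) p.2 (Fin.tail I) (Fin.tail J) +
        iter D a p.1 (I 0) (J 0) *
          (((p.2 + 1 : ℕ) : K) * iter D (tens r a) (p.2 + 1) (Fin.tail I) (Fin.tail J)) := by
      intro p _
      rw [it_succ, it_succ, Derivation.leibniz, smul_eq_mul, smul_eq_mul]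
      ring
    rw [Finset.sum_congr rfl e3]
    -- the combinatorial identity
    set f : ℕ → K := fun j => iter D a j (I 0) (J 0) with hf
    set g : ℕ → K := fun j => iter D (tens r a) j (Fin.tail I) (Fin.tail J) with hg
    have key : ∑ p ∈ Finset.HasAntidiagonal.antidiagonal n,
        (((p.1 + 1 : ℕ) : K) * f (p.1 + 1) * g p.2 + f p.1 * (((p.2 + 1 : ℕ) : K) * g (p.2 + 1))) =
        ((n + 1 : ℕ) : K) * ∑ p ∈ Finset.HasAntidiagonal.antidiagonal (n + 1), f p.1 * g p.2 := by
      have h1 : ((n + 1 : ℕ) : K) * ∑ p ∈ Finset.HasAntidiagonal.antidiagonal (n + 1),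
          f p.1 * g p.2 = ∑ p ∈ Finset.HasAntidiagonal.antidiagonal (n + 1),
            ((p.1 : K) * f p.1 * g p.2 + f p.1 * ((p.2 : K) * g p.2)) := by
        rw [Finset.mul_sum]
        refine Finset.sum_congr rfl fun p hp => ?_
        have h2 : p.1 + p.2 = n + 1 := Finset.HasAntidiagonal.mem_antidiagonal.1 hp
        rw [← h2]
        push_cast
        ring
      rw [h1, Finset.sum_add_distrib, Finset.sum_add_distrib]
      congr 1
      · rw [Finset.Nat.antidiagonal_succ, Finset.sum_cons, Finset.sum_map]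
        simp
      · rw [Finset.Nat.antidiagonal_succ', Finset.sum_cons, Finset.sum_map]
        simp
    exact key

end

section

variable {k L : Type} [Field k] [CharZero k] [Field L] [CharZero L] [Algebra k L]
  {Dk : Derivation ℚ k k} {D : Derivation ℚ L L} {Γ : Type} [Fintype Γ] [DecidableEq Γ]

/-- The matrix of the push-forward, if the basis is constant. -/
noncomputable def pushM {W : Type} (b : Module.Basis Γ k L) (a : Matrix W W L) :
    Matrix (Γ × W) (Γ × W) k := fun p q => b.repr (b p.1 * a p.2 q.2) q.1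

/-- A constant basis: `D` acts on the coordinates. -/
theorem push_D (hext : ∀ c : k, D (algebraMap k L c) = algebraMap k L (Dk c))
    {b : Module.Basis Γ k L} (hb : ∀ γ, D (b γ) = 0) (x : L) (γ : Γ) :
    b.repr (D x) γ = Dk (b.repr x γ) := by
  have h1 : D x = ∑ γ, Dk (b.repr x γ) • b γ := by
    conv_lhs => rw [← b.sum_repr x]
    rw [map_sum]
    refine Finset.sum_congr rfl fun γ _ => ?_
    rw [Algebra.smul_def, Derivation.leibniz, hb, smul_zero, zero_add, hext, smul_eq_mul,
      Algebra.smul_def, mul_comm]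
  rw [h1, b.repr_sum_self]

/-- The iterates of the push-forward. -/
theorem iter_push (hext : ∀ c : k, D (algebraMap k L c) = algebraMap k L (Dk c))
    {b : Module.Basis Γ k L} (hb : ∀ γ, D (b γ) = 0) {W : Type} [Fintype W] [DecidableEq W]
    (a : Matrix W W L) (n : ℕ) (γ γ' : Γ) (I J : W) :
    iter Dk (pushM b a) n (γ, I) (γ', J) = b.repr (b γ * iter D a n I J) γ' := by
  induction n generalizing γ' J with
  | zero =>
    simp only [iter]
    by_cases hI : I = J
    · subst hI
      rw [Matrix.one_apply_eq, mul_one, b.repr_self]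
      by_cases hγ : γ = γ'
      · subst hγ
        simp
      · rw [Matrix.one_apply_ne (fun h => hγ (Prod.mk.inj h).1), Finsupp.single_eq_of_ne]
        exact fun h => hγ h.symm
    · rw [Matrix.one_apply_ne hI, mul_zero, map_zero, Finsupp.zero_apply,
        Matrix.one_apply_ne (fun h => hI (Prod.mk.inj h).2)]
  | succ n ih =>
    have hk : ((n + 1 : ℕ) : k) ≠ 0 := Nat.cast_ne_zero.2 (Nat.succ_ne_zero n)
    apply mul_left_cancel₀ hk
    rw [it_succ, ih, Fintype.sum_prod_type]
    have h1 : ((n + 1 : ℕ) : k) * b.repr (b γ * iter D a (n + 1) I J) γ' =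
        b.repr (b γ * (((n + 1 : ℕ) : L) * iter D a (n + 1) I J)) γ' := by
      have h2 : b γ * (((n + 1 : ℕ) : L) * iter D a (n + 1) I J) =
          ((n + 1 : ℕ) : k) • (b γ * iter D a (n + 1) I J) := by
        rw [Algebra.smul_def, map_natCast]
        ring
      rw [h2, map_smul, Finsupp.smul_apply, smul_eq_mul]
    rw [h1, it_succ, mul_add, map_add, Finsupp.add_apply]
    congr 1
    · rw [← push_D hext hb, Derivation.leibniz, hb, smul_zero, add_zero, smul_eq_mul]
    · rw [Finset.mul_sum, map_sum, Finsupp.finset_sum_apply, Finset.sum_comm]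
      refine Finset.sum_congr rfl fun l _ => ?_
      have h3 : ∀ γ'', iter Dk (pushM b a) n (γ, I) (γ'', l) * pushM b a (γ'', l) (γ', J) =
          b.repr (b.repr (b γ * iter D a n I l) γ'' • (b γ'' * a l J)) γ' := by
        intro γ''
        rw [ih, map_smul, Finsupp.smul_apply, smul_eq_mul]
        rfl
      rw [Finset.sum_congr rfl fun γ'' _ => h3 γ'', ← Finsupp.finset_sum_apply, ← map_sum]
      congr 2
      have h4 : ∀ γ'', b.repr (b γ * iter D a n I l) γ'' • (b γ'' * a l J) =
          (b.repr (b γ * iter D a n I l) γ'' • b γ'') * a l J := by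
        intro γ''
        rw [smul_mul_assoc]
      rw [Finset.sum_congr rfl fun γ'' _ => h4 γ'', ← Finset.sum_mul, b.sum_repr]
      ring

/-- The push-forward of a tensor power. -/
theorem push_tens {W : Type} [DecidableEq W] (b : Module.Basis Γ k L) (a : Matrix W W L) (r : ℕ) :
    pushM b (tens r a) = tensB r (pushM b a) := by
  funext x y
  unfold pushM tens tensB
  rw [Finset.mul_sum, map_sum, Finsupp.finset_sum_apply]
  refine Finset.sum_congr rfl fun s _ => ?_
  split_ifs
  · rfl
  · rw [mul_zero, map_zero, Finsupp.zero_apply]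

/-- The product formula for the iterates of the push-forward. -/
theorem iter_star (hext : ∀ c : k, D (algebraMap k L c) = algebraMap k L (Dk c))
    {b : Module.Basis Γ k L} (hb : ∀ γ, D (b γ) = 0) {β : Type} [Fintype β] [DecidableEq β]
    (a : Matrix β β L) (r n : ℕ) (γ γ' : Γ) (I J : Fin (r + 1) → β) :
    iter Dk (tensB (r + 1) (pushM b a)) n (γ, I) (γ', J) =
      ∑ p ∈ Finset.HasAntidiagonal.antidiagonal n, ∑ γ'', iter Dk (pushM b a) p.1 (γ, I 0)
        (γ'', J 0) * iter Dk (tensB r (pushM b a)) p.2 (γ'', Fin.tail I) (γ', Fin.tail J) := by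
  rw [← push_tens, ← push_tens, iter_push hext hb, iter_tens, Finset.mul_sum, map_sum,
    Finsupp.finset_sum_apply]
  refine Finset.sum_congr rfl fun p _ => ?_
  have h1 : ∀ γ'', iter Dk (pushM b a) p.1 (γ, I 0) (γ'', J 0) *
      iter Dk (pushM b (tens r a)) p.2 (γ'', Fin.tail I) (γ', Fin.tail J) =
      b.repr ((b.repr (b γ * iter D a p.1 (I 0) (J 0)) γ'' • b γ'') *
        iter D (tens r a) p.2 (Fin.tail I) (Fin.tail J)) γ' := by
    intro γ''
    rw [iter_push hext hb, iter_push hext hb, smul_mul_assoc, map_smul, Finsupp.smul_apply,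
      smul_eq_mul]
  rw [Finset.sum_congr rfl fun γ'' _ => h1 γ'', ← Finsupp.finset_sum_apply, ← map_sum,
    ← Finset.sum_mul, b.sum_repr, mul_assoc]

/-- The product formula over the polynomial ring. -/
theorem star_of {σ : Type} [DecidableEq σ] [Algebra (MvPolynomial σ ℚ) k]
    [IsFractionRing (MvPolynomial σ ℚ) k] {i₀ : σ}
    (hD : ∀ P, Dk (algebraMap (MvPolynomial σ ℚ) k P) =
      algebraMap (MvPolynomial σ ℚ) k (MvPolynomial.pderiv i₀ P))
    (hext : ∀ c : k, D (algebraMap k L c) = algebraMap k L (Dk c))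
    {b : Module.Basis Γ k L} (hb : ∀ γ, D (b γ) = 0) {β : Type} [Fintype β] [DecidableEq β]
    {a : Matrix β β L} {Θ : MvPolynomial σ ℚ} (hΘ : Θ ≠ 0)
    {M : Matrix (Γ × β) (Γ × β) (MvPolynomial σ ℚ)}
    (hM : ∀ x y, pushM b a x y = algebraMap (MvPolynomial σ ℚ) k (M x y) /
      algebraMap (MvPolynomial σ ℚ) k Θ) : Star i₀ Θ M := by
  have hinj : Function.Injective (algebraMap (MvPolynomial σ ℚ) k) :=
    IsFractionRing.injective (MvPolynomial σ ℚ) k
  have hΘk : algebraMap (MvPolynomial σ ℚ) k Θ ≠ 0 := fun h => hΘ (hinj (by rw [h, map_zero]))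
  have hMr : ∀ (r : ℕ) (x y : Γ × (Fin r → β)), tensB r (pushM b a) x y =
      algebraMap (MvPolynomial σ ℚ) k (tensB r M x y) / algebraMap (MvPolynomial σ ℚ) k Θ := by
    intro r x y
    unfold tensB
    rw [map_sum, Finset.sum_div]
    refine Finset.sum_congr rfl fun s _ => ?_
    split_ifs
    · exact hM _ _
    · rw [map_zero, zero_div]
  intro r n γ γ' I J
  apply hinj
  rw [← den_iter hD Θ _ hΘk (hMr (r + 1)) n, iter_star hext hb, map_sum, Finset.mul_sum]
  refine Finset.sum_congr rfl fun p hp => ?_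
  have hpn : p.1 + p.2 = n := Finset.HasAntidiagonal.mem_antidiagonal.1 hp
  rw [map_sum, Finset.mul_sum]
  refine Finset.sum_congr rfl fun γ'' _ => ?_
  rw [map_mul, ← den_iter hD Θ M hΘk hM p.1, ← den_iter hD Θ _ hΘk (hMr r) p.2, ← hpn, pow_add]
  ring

end

end Pool.Agent.Helper79.DD
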