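import Pool.Agent.Helper79.BB.UDefs
import Pool.Agent.Helper79.DD.StatU
import Pool.Agent.Helper79.GA.Defs

/-!
# DD: the universal point: definitions

`y = (y_p)`, `p ∈ Px m dg ed J ν`, are the coefficients of `F_y = ∑_k (∑_j y_(k,j) ω_j) t^k`, of `G_1, …, G_m`, and of the denominator
`G_0 = ∑_(l ∈ ν) y_l ω_j t^k`, `gd l = (k, j)`. The universal point is `x = (G_1(t) / G_0(t), …, G_m(t) / G_0(t))`, `F_y(t) = 0`. The direction `dirM j₀ i` is the constant term
`(i, (0, j₀))` of `G_i`.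
-/

open Polynomial

namespace Pool.Agent.Helper79.DD

open Pool.Agent.Helper79.BB Pool.Agent.Helper79.AA Pool.Agent.Helper79.GX Pool.Agent.Helper64.Per

/-- The direction `i`. -/
abbrev dirM {m dg ed : ℕ} {J ν : Type} (j₀ : J) (i : Fin m) : Px m dg ed J ν := Sum.inr (Sum.inl (i, (0, j₀)))

section

variable {κ : IntermediateField ℚ Qbar} {J ν : Type} [Fintype J] [Fintype ν] {m dg ed : ℕ}
  {L : Type} [Field L] [Algebra κ L]

/-- `F_y(t)`. -/
noncomputable def FvM (ω : J → κ) (y : Px m dg ed J ν → L) (t : L) : L :=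
  ∑ l : Fin (dg + 1) × J, y (Sum.inl l) * algebraMap κ L (ω l.2) * t ^ (l.1 : ℕ)

/-- The denominator `G_0(t)`. -/
noncomputable def denM (ω : J → κ) (gd : ν → ℕ × J) (y : Px m dg ed J ν → L) (t : L) : L :=
  ∑ l : ν, y (Sum.inr (Sum.inr l)) * algebraMap κ L (ω (gd l).2) * t ^ (gd l).1

/-- The point `(G_1(t) / G_0(t), …, G_m(t) / G_0(t))`. -/
noncomputable def ptM (ω : J → κ) (gd : ν → ℕ × J) (y : Px m dg ed J ν → L) (t : L) :
    Fin m → L := fun i =>
  (∑ l : Fin (ed + 1) × J, y (Sum.inr (Sum.inl (i, l))) * algebraMap κ L (ω l.2) *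
    t ^ (l.1 : ℕ)) / denM ω gd y t

end

section

variable {J ν : Type} [DecidableEq J] [DecidableEq ν] {m dg ed : ℕ}

/-- The points `y + ∑ u_i e_(dirM i)`. -/
def shM {R : Type} [CommRing R] (j₀ : J) (y : Px m dg ed J ν → R) (u : Fin m → R) : Px m dg ed J ν → R :=
  fun p => y p + ∑ i, if p = dirM j₀ i then u i else 0

/-- The restriction of a polynomial to this `m`-dimensional space. -/
noncomputable def specM (j₀ : J) (a : Px m dg ed J ν → ℤ) :
    MvPolynomial (Px m dg ed J ν) ℚ →ₐ[ℚ] MvPolynomial (Fin m) ℚ :=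
  MvPolynomial.aeval fun p => MvPolynomial.C ((a p : ℤ) : ℚ) +
    ∑ i, if p = dirM j₀ i then MvPolynomial.X i else 0

end

/-- A model of the field generated by the coordinates `y` of the universal point, the field `κ` and
the root `t`. -/
structure Mod0M {κ : IntermediateField ℚ Qbar} {J ν : Type} [Fintype J] [DecidableEq J]
    [Fintype ν] [DecidableEq ν] (ω : J → κ) (gd : ν → ℕ × J) (m dg ed : ℕ) (j₀ : J) {L : Type} [Field L] [CharZero L] [Algebra κ L]
    (D : Fin m → Derivation ℚ L L) (t : L) (y : Px m dg ed J ν → L) : Prop where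
  ind : AlgebraicIndependent ℚ y
  trx : AlgebraicIndependent κ (ptM ω gd y t)
  eqn : FvM ω y t = 0
  den : denM ω gd y t ≠ 0
  const : ∀ i (c : κ), D i (algebraMap κ L c) = 0
  dt : ∀ i, D i t = 0
  der : ∀ i p, D i (y p) = if p = dirM j₀ i then 1 else 0
  quo : ∀ f : L, ∃ P Q : MvPolynomial (Option (Px m dg ed J ν)) κ,
    MvPolynomial.aeval (fun o => o.elim t y) Q ≠ 0 ∧
    f = MvPolynomial.aeval (fun o => o.elim t y) P / MvPolynomial.aeval (fun o => o.elim t y) Q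
  gen : ∀ P : MvPolynomial (Option (Px m dg ed J ν)) κ,
    MvPolynomial.aeval (fun o => o.elim t y) P = 0 →
    ∀ (t' : ℂ) (y' : Px m dg ed J ν → ℂ), FvM ω y' t' = 0 →
      MvPolynomial.aeval (fun o => o.elim t' y') P = 0

/-- The coordinates as elements of the field `k = ℚ(y)`, mapped to `L`. -/
noncomputable def yM (m dg ed : ℕ) (J ν k L : Type) [Field k] [Algebra (MvPolynomial (Px m dg ed J ν) ℚ) k]
    [Field L] [Algebra k L] : Px m dg ed J ν → L := fun p =>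
  algebraMap k L (algebraMap (MvPolynomial (Px m dg ed J ν) ℚ) k (MvPolynomial.X p))

/-- The same with the subfield `k = ℚ(y)`. -/
structure ModM {κ : IntermediateField ℚ Qbar} {J ν : Type} [Fintype J] [DecidableEq J]
    [Fintype ν] [DecidableEq ν] (ω : J → κ) (gd : ν → ℕ × J) (m dg ed : ℕ) (j₀ : J) {k L : Type} [Field k] [CharZero k]
    [Algebra (MvPolynomial (Px m dg ed J ν) ℚ) k] [Field L] [CharZero L] [Algebra k L] [Algebra κ L]
    (Dk : Fin m → Derivation ℚ k k) (D : Fin m → Derivation ℚ L L) (t : L) : Prop where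
  frac : IsFractionRing (MvPolynomial (Px m dg ed J ν) ℚ) k
  fin : FiniteDimensional k L
  der : ∀ i P, Dk i (algebraMap (MvPolynomial (Px m dg ed J ν) ℚ) k P) =
    algebraMap (MvPolynomial (Px m dg ed J ν) ℚ) k (MvPolynomial.pderiv (dirM j₀ i) P)
  ext : ∀ i (c : k), D i (algebraMap k L c) = algebraMap k L (Dk i c)
  const : ∀ i (c : κ), D i (algebraMap κ L c) = 0
  dt : ∀ i, D i t = 0
  trx : AlgebraicIndependent κ (ptM ω gd (yM m dg ed J ν k L) t)
  eqn : FvM ω (yM m dg ed J ν k L) t = 0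
  den : denM ω gd (yM m dg ed J ν k L) t ≠ 0
  span : Submodule.span k (Set.range fun p : J × ℕ => algebraMap κ L (ω p.1) * t ^ p.2) = ⊤
  gen : ∀ P : MvPolynomial (Option (Px m dg ed J ν)) κ,
    MvPolynomial.aeval (fun o => o.elim t (yM m dg ed J ν k L)) P = 0 →
    ∀ (t' : ℂ) (y' : Px m dg ed J ν → ℂ), FvM ω y' t' = 0 →
      MvPolynomial.aeval (fun o => o.elim t' y') P = 0

/-- The universal push-forward: the basis `b_γ = ω_(b γ).1 t^(b γ).2` of `L` over `k = ℚ(y)`, the matrices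
`M_i / Θ` of the push-forward of the connection `∂z/∂x_i = (A_i / T) z` in the directions
`dirM j₀ i`. -/
structure UniM {κ : IntermediateField ℚ Qbar} {J ν : Type} [Fintype J] [DecidableEq J]
    [Fintype ν] [DecidableEq ν] (ω : J → κ) (gd : ν → ℕ × J) {m : ℕ} (dg ed : ℕ) (j₀ : J) {β : Type} [Fintype β] [DecidableEq β] (T : MvPolynomial (Fin m) κ)
    (A : Fin m → Matrix β β (MvPolynomial (Fin m) κ)) where
  Γ : Type
  [fΓ : Fintype Γ]
  [dΓ : DecidableEq Γ]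
  b : Γ → J × ℕ
  Θ : MvPolynomial (Px m dg ed J ν) ℚ
  Θ_ne : Θ ≠ 0
  M : Fin m → Matrix (Γ × β) (Γ × β) (MvPolynomial (Px m dg ed J ν) ℚ)
  ρ : J × ℕ → Γ → MvPolynomial (Px m dg ed J ν) ℚ
  c : ℕ
  growth : ∀ X : ℕ, 2 ≤ X → ∀ (i : Fin m) (a : Px m dg ed J ν → ℤ) (u : ℤ),
    (∀ p, |pt (dirM j₀ i) a u p| ≤ X) →
    MvPolynomial.eval (fun p => ((pt (dirM j₀ i) a u p : ℤ) : ℚ)) Θ ≠ 0 →
    Gr (spec (dirM j₀ i) a Θ) ((M i).map (spec (dirM j₀ i) a)) (u : ℚ) ((X : ℝ) ^ c)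
  ident : ∀ (t : ℂ) (y : Px m dg ed J ν → ℂ), FvM ω y t = 0 → denM ω gd y t ≠ 0 →
    ∀ (i : Fin m) (γ : Γ) (r r' : β),
    MvPolynomial.aeval y Θ * algebraMap κ ℂ (ω j₀) * (algebraMap κ ℂ (ω (b γ).1) * t ^ (b γ).2 *
      MvPolynomial.aeval (ptM ω gd y t) (A i r r')) =
    denM ω gd y t * MvPolynomial.aeval (ptM ω gd y t) T *
      ∑ γ', MvPolynomial.aeval y (M i (γ, r) (γ', r')) *
        (algebraMap κ ℂ (ω (b γ').1) * t ^ (b γ').2)
  span : ∀ (t : ℂ) (y : Px m dg ed J ν → ℂ), FvM ω y t = 0 → ∀ p : J × ℕ, p.2 ≤ dg →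
    MvPolynomial.aeval y Θ * (algebraMap κ ℂ (ω p.1) * t ^ p.2) =
      ∑ γ, MvPolynomial.aeval y (ρ p γ) * (algebraMap κ ℂ (ω (b γ).1) * t ^ (b γ).2)

attribute [instance] UniM.fΓ UniM.dΓ

end Pool.Agent.Helper79.DD
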